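import Pool.Agent.Y820.LD.Stm2
import Pool.Agent.Y542.LD.G3

/-!
# LD-G (helper542 for helper820, job 9765): products of local factors at the sums of powers

The proof is in the files `Pool/Agent/Y542/LD/G1.lean` to `G3.lean` (they use the files of LD-R by helper438).
-/

set_option autoImplicit false

namespace Pool.Agent.Y820.LD

/-- LD-G -/
theorem t_GL : S_GL := by
  intro b hb C E η hη
  obtain ⟨r0, h⟩ := Pool.Agent.Y542.LD.main b hb C E η hη
  refine ⟨r0, fun r hr => ?_⟩
  obtain ⟨Y0, h'⟩ := h r hr
  exact ⟨Y0, fun Y hY z hz a _ g hg => h' Y hY z hz a g hg⟩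

end Pool.Agent.Y820.LD
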