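import Pool.Agent.Y820.LD.Stm2
import Pool.Agent.Y820.LF.M0

set_option autoImplicit false

/-!
# Project LD (helper820), job LD-S: mean square over the primes of the averaged sieve model
-/

namespace Pool.Agent.Y820.LD.SS

open Finset
open Pool.Agent.H373R2.T7
open Pool.Agent.Y820.LF.M0 (lamzI_eq)

/-! ### residues -/

/-- the two conditions -/
def Q2 (σ x x' : ℤ) (p n : ℕ) : Prop :=
  (p : ℤ) ∣ σ * (n : ℤ) + x ∨ (p : ℤ) ∣ σ * (n : ℤ) + x'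

open Classical in
/-- the number of the good residues -/
noncomputable def G (σ x x' : ℤ) (p : ℕ) : ℕ :=
  ((range p).filter (fun r : ℕ => ¬ p ∣ r ∧ ¬ Q2 σ x x' p r)).card

lemma card_nz {p : ℕ} (hp : p.Prime) : ((range p).filter (fun r => ¬ p ∣ r)).card = p - 1 := by
  have h : (range p).filter (fun r => ¬ p ∣ r) = (range p).erase 0 := by
    ext r
    rw [mem_filter, mem_erase, mem_range]
    constructor
    · rintro ⟨h1, h2⟩
      refine ⟨fun h => h2 (h ▸ dvd_zero p), h1⟩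
    · rintro ⟨h1, h2⟩
      exact ⟨h2, fun h => h1 (Nat.eq_zero_of_dvd_of_lt h h2)⟩
  rw [h, card_erase_of_mem (mem_range.2 hp.pos), card_range]

lemma G_add (σ x x' : ℤ) {p : ℕ} (hp : p.Prime) : G σ x x' p + rhoA (Q2 σ x x') p = p - 1 := by
  classical
  unfold G rhoA
  rw [← card_nz hp, ← card_filter_add_card_filter_not (s := (range p).filter (fun r => ¬ p ∣ r))
    (fun r => ¬ Q2 σ x x' p r), filter_filter, filter_filter]
  congr 2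
  refine filter_congr fun r _ => ?_
  rw [not_not]

lemma one_sub (σ x x' : ℤ) {p : ℕ} (hp : p.Prime) :
    1 - (rhoA (Q2 σ x x') p : ℝ) / (p - 1 : ℝ) = (G σ x x' p : ℝ) / (p - 1) := by
  have h1 := G_add σ x x' hp
  have h2 : (G σ x x' p : ℝ) + rhoA (Q2 σ x x') p = (p : ℝ) - 1 := by
    have : ((G σ x x' p + rhoA (Q2 σ x x') p : ℕ) : ℝ) = ((p - 1 : ℕ) : ℝ) := by rw [h1]
    rw [Nat.cast_sub hp.one_lt.le] at this
    push_cast at this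
    exact this
  have h3 : (0 : ℝ) < (p : ℝ) - 1 := by
    have : (1 : ℝ) < p := by exact_mod_cast hp.one_lt
    linarith
  rw [eq_div_iff h3.ne', sub_mul, div_mul_cancel₀ _ h3.ne']
  linarith

/-- a linear congruence has one solution -/
lemma uniq {p : ℕ} (hp : 0 < p) (u : ℤ) :
    ((range p).filter (fun r : ℕ => (p : ℤ) ∣ (r : ℤ) + u)).card = 1 := by
  have hp0 : (0 : ℤ) < p := by exact_mod_cast hp
  have h0 := Int.emod_nonneg (-u) hp0.ne'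
  have h1 := Int.emod_lt_of_pos (-u) hp0
  refine card_eq_one.2 ⟨((-u) % (p : ℤ)).toNat, ?_⟩
  ext r
  rw [mem_filter, mem_range, mem_singleton]
  have h2 : ((p : ℤ) ∣ (r : ℤ) + u) ↔ (-u) % (p : ℤ) = (r : ℤ) % p := by
    have := Int.modEq_iff_dvd (n := (p : ℤ)) (a := -u) (b := (r : ℤ))
    rw [sub_neg_eq_add] at this
    exact this.symm
  rw [h2]
  constructor
  · rintro ⟨h3, h4⟩
    have h5 : (r : ℤ) % p = r := Int.emod_eq_of_lt (Int.natCast_nonneg r) (by exact_mod_cast h3)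
    rw [h5] at h4
    omega
  · intro h3
    have h4 : (r : ℤ) = (-u) % (p : ℤ) := by omega
    refine ⟨by omega, ?_⟩
    rw [h4, Int.emod_emod_of_dvd _ (dvd_refl _)]

lemma dvd_sg {σ : ℤ} (hσ : σ = 1 ∨ σ = -1) (p : ℕ) (r : ℕ) (u : ℤ) :
    (p : ℤ) ∣ σ * (r : ℤ) + u ↔ (p : ℤ) ∣ (r : ℤ) + σ * u := by
  rcases hσ with rfl | rfl
  · rw [one_mul, one_mul]
  · have : -1 * (r : ℤ) + u = -((r : ℤ) + -1 * u) := by ring
    rw [this, dvd_neg]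

lemma uniq_sg {σ : ℤ} (hσ : σ = 1 ∨ σ = -1) {p : ℕ} (hp : 0 < p) (u : ℤ) :
    ((range p).filter (fun r : ℕ => (p : ℤ) ∣ σ * (r : ℤ) + u)).card = 1 := by
  rw [← uniq hp (σ * u)]
  congr 1
  exact filter_congr fun r _ => dvd_sg hσ p r u

lemma rho_le {σ : ℤ} (hσ : σ = 1 ∨ σ = -1) (x x' : ℤ) {p : ℕ} (hp : p.Prime) :
    rhoA (Q2 σ x x') p ≤ 2 := by
  classical
  unfold rhoA
  have h1 : (range p).filter (fun r => ¬ p ∣ r ∧ Q2 σ x x' p r) ⊆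
      (range p).filter (fun r : ℕ => (p : ℤ) ∣ σ * (r : ℤ) + x) ∪
      (range p).filter (fun r : ℕ => (p : ℤ) ∣ σ * (r : ℤ) + x') := by
    intro r hr
    rw [mem_filter] at hr
    rw [mem_union, mem_filter, mem_filter]
    rcases hr.2.2 with h | h
    · exact Or.inl ⟨hr.1, h⟩
    · exact Or.inr ⟨hr.1, h⟩
  refine (card_le_card h1).trans ((card_union_le _ _).trans ?_)
  rw [uniq_sg hσ hp.pos, uniq_sg hσ hp.pos]

lemma rho_le1 {σ : ℤ} (hσ : σ = 1 ∨ σ = -1) (x : ℤ) {p : ℕ} (hp : p.Prime) :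
    rhoA (Q2 σ x x) p ≤ 1 := by
  classical
  unfold rhoA
  have h1 : (range p).filter (fun r => ¬ p ∣ r ∧ Q2 σ x x p r) ⊆
      (range p).filter (fun r : ℕ => (p : ℤ) ∣ σ * (r : ℤ) + x) := by
    intro r hr
    rw [mem_filter] at hr
    rw [mem_filter]
    rcases hr.2.2 with h | h
    · exact ⟨hr.1, h⟩
    · exact ⟨hr.1, h⟩
  exact (card_le_card h1).trans (uniq_sg hσ hp.pos x).le

lemma rho_eq2 {σ : ℤ} (hσ : σ = 1 ∨ σ = -1) {x x' : ℤ} {p : ℕ} (hp : p.Prime)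
    (h : ¬ (p : ℤ) ∣ x * x' * (x - x')) : rhoA (Q2 σ x x') p = 2 := by
  classical
  have hx : ¬ (p : ℤ) ∣ x := fun h' => h ((h'.mul_right _).mul_right _)
  have hx' : ¬ (p : ℤ) ∣ x' := fun h' => h ((h'.mul_left _).mul_right _)
  have hxx : ¬ (p : ℤ) ∣ x - x' := fun h' => h (h'.mul_left _)
  obtain ⟨r1, h1⟩ := card_eq_one.1 (uniq_sg hσ hp.pos x)
  obtain ⟨r2, h2⟩ := card_eq_one.1 (uniq_sg hσ hp.pos x')
  have m1 : ∀ r : ℕ, (r < p ∧ (p : ℤ) ∣ σ * (r : ℤ) + x) ↔ r = r1 := by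
    intro r
    rw [← mem_range, ← mem_filter (p := fun r : ℕ => (p : ℤ) ∣ σ * (r : ℤ) + x), h1,
      mem_singleton]
  have m2 : ∀ r : ℕ, (r < p ∧ (p : ℤ) ∣ σ * (r : ℤ) + x') ↔ r = r2 := by
    intro r
    rw [← mem_range, ← mem_filter (p := fun r : ℕ => (p : ℤ) ∣ σ * (r : ℤ) + x'), h2,
      mem_singleton]
  have g1 := (m1 r1).2 rfl
  have g2 := (m2 r2).2 rfl
  have hne : r1 ≠ r2 := by
    rintro rfl
    apply hxx
    have : x - x' = (σ * (r1 : ℤ) + x) - (σ * (r1 : ℤ) + x') := by ring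
    rw [this]
    exact dvd_sub g1.2 g2.2
  have nd : ∀ (r : ℕ) (u : ℤ), ¬ (p : ℤ) ∣ u → (p : ℤ) ∣ σ * (r : ℤ) + u → ¬ p ∣ r := by
    intro r u hu hd hr
    apply hu
    have h3 : (p : ℤ) ∣ (r : ℤ) := Int.natCast_dvd_natCast.2 hr
    have : u = (σ * (r : ℤ) + u) - σ * (r : ℤ) := by ring
    rw [this]
    exact dvd_sub hd (h3.mul_left _)
  unfold rhoA
  have h3 : (range p).filter (fun r => ¬ p ∣ r ∧ Q2 σ x x' p r) = {r1, r2} := by
    ext r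
    rw [mem_filter, mem_range, mem_insert, mem_singleton]
    constructor
    · rintro ⟨h4, h5, h6 | h6⟩
      · exact Or.inl ((m1 r).1 ⟨h4, h6⟩)
      · exact Or.inr ((m2 r).1 ⟨h4, h6⟩)
    · rintro (rfl | rfl)
      · exact ⟨g1.1, nd _ _ hx g1.2, Or.inl g1.2⟩
      · exact ⟨g2.1, nd _ _ hx' g2.2, Or.inr g2.2⟩
  rw [h3, card_pair hne]

lemma rho_eq1 {σ : ℤ} (hσ : σ = 1 ∨ σ = -1) {x : ℤ} {p : ℕ} (hp : p.Prime)
    (hx : ¬ (p : ℤ) ∣ x) : rhoA (Q2 σ x x) p = 1 := by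
  classical
  obtain ⟨r1, h1⟩ := card_eq_one.1 (uniq_sg hσ hp.pos x)
  have m1 : ∀ r : ℕ, (r < p ∧ (p : ℤ) ∣ σ * (r : ℤ) + x) ↔ r = r1 := by
    intro r
    rw [← mem_range, ← mem_filter (p := fun r : ℕ => (p : ℤ) ∣ σ * (r : ℤ) + x), h1,
      mem_singleton]
  have g1 := (m1 r1).2 rfl
  have nd : ¬ p ∣ r1 := by
    intro hr
    apply hx
    have h3 : (p : ℤ) ∣ (r1 : ℤ) := Int.natCast_dvd_natCast.2 hr
    have : x = (σ * (r1 : ℤ) + x) - σ * (r1 : ℤ) := by ring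
    rw [this]
    exact dvd_sub g1.2 (h3.mul_left _)
  unfold rhoA
  have h3 : (range p).filter (fun r => ¬ p ∣ r ∧ Q2 σ x x p r) = {r1} := by
    ext r
    rw [mem_filter, mem_range, mem_singleton]
    constructor
    · rintro ⟨h4, h5, h6 | h6⟩
      · exact (m1 r).1 ⟨h4, h6⟩
      · exact (m1 r).1 ⟨h4, h6⟩
    · rintro rfl
      exact ⟨g1.1, nd, Or.inl g1.2⟩
  rw [h3, card_singleton]

/-- the conditions depend on the residues -/
lemma Q2_congr {σ x x' y y' : ℤ} {p : ℕ} (h : (p : ℤ) ∣ x - y) (h' : (p : ℤ) ∣ x' - y') :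
    ∀ n, Q2 σ x x' p n ↔ Q2 σ y y' p n := by
  intro n
  unfold Q2
  refine or_congr ?_ ?_
  · have : σ * (n : ℤ) + x = (x - y) + (σ * (n : ℤ) + y) := by ring
    rw [this]
    exact Int.dvd_add_right h
  · have : σ * (n : ℤ) + x' = (x' - y') + (σ * (n : ℤ) + y') := by ring
    rw [this]
    exact Int.dvd_add_right h'

lemma rho_congr {σ x x' y y' : ℤ} {p : ℕ} (h : (p : ℤ) ∣ x - y) (h' : (p : ℤ) ∣ x' - y') :
    rhoA (Q2 σ x x') p = rhoA (Q2 σ y y') p := by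
  classical
  unfold rhoA
  congr 1
  exact filter_congr fun r _ => and_congr_right fun _ => Q2_congr h h' r

lemma Q2_per (σ x x' : ℤ) (p n : ℕ) : Q2 σ x x' p n ↔ Q2 σ x x' p (n % p) := by
  unfold Q2
  have h1 : (p : ℤ) ∣ σ * ((n : ℤ) - ((n % p : ℕ) : ℤ)) := by
    refine Dvd.dvd.mul_left ?_ _
    rw [Int.natCast_mod]
    exact Int.dvd_self_sub_emod
  refine or_congr ?_ ?_
  · have h2 : σ * (n : ℤ) + x = σ * ((n : ℤ) - ((n % p : ℕ) : ℤ)) +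
        (σ * ((n % p : ℕ) : ℤ) + x) := by ring
    rw [h2]
    exact Int.dvd_add_right h1
  · have h2 : σ * (n : ℤ) + x' = σ * ((n : ℤ) - ((n % p : ℕ) : ℤ)) +
        (σ * ((n % p : ℕ) : ℤ) + x') := by ring
    rw [h2]
    exact Int.dvd_add_right h1

lemma Q2_PerA {σ : ℤ} (hσ : σ = 1 ∨ σ = -1) (x x' : ℤ) : PerA (Q2 σ x x') 2 :=
  ⟨Q2_per σ x x', fun _ hp => rho_le hσ x x' hp⟩

/-! ### mean values -/

lemma sum_ind {p : ℕ} (hp : p.Prime) (u : ℤ) :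
    ∑ X ∈ range p, (if ¬ (p : ℤ) ∣ u + (X : ℤ) then (1 : ℝ) else 0) = (p : ℝ) - 1 := by
  rw [← sum_filter, sum_const, nsmul_eq_mul, mul_one]
  have h1 := card_filter_add_card_filter_not (s := range p) (fun X : ℕ => (p : ℤ) ∣ u + (X : ℤ))
  have h2 : ((range p).filter (fun X : ℕ => (p : ℤ) ∣ u + (X : ℤ))).card = 1 := by
    rw [← uniq hp.pos u]
    congr 1
    refine filter_congr fun X _ => ?_
    rw [add_comm]
  rw [h2, card_range] at h1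
  have h3 : ((1 + ((range p).filter (fun X : ℕ => ¬ (p : ℤ) ∣ u + (X : ℤ))).card : ℕ) : ℝ) =
      (p : ℝ) := by rw [h1]
  push_cast at h3
  linarith

lemma G_sum (σ x x' : ℤ) (p : ℕ) : (G σ x x' p : ℝ) =
    ∑ r ∈ (range p).filter (fun r => ¬ p ∣ r),
      ((if ¬ (p : ℤ) ∣ σ * (r : ℤ) + x then (1 : ℝ) else 0) *
        (if ¬ (p : ℤ) ∣ σ * (r : ℤ) + x' then (1 : ℝ) else 0)) := by
  classical
  unfold G
  rw [← filter_filter, card_filter]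
  push_cast
  refine sum_congr rfl fun r _ => ?_
  unfold Q2
  by_cases h1 : (p : ℤ) ∣ σ * (r : ℤ) + x <;> by_cases h2 : (p : ℤ) ∣ σ * (r : ℤ) + x' <;>
    simp [h1, h2]

lemma mean2 (σ a : ℤ) {p : ℕ} (hp : p.Prime) :
    ∑ X ∈ range p, ∑ X' ∈ range p, (G σ (a + (X : ℤ)) (a + (X' : ℤ)) p : ℝ) =
      ((p : ℝ) - 1) ^ 3 := by
  have h1 : ∀ X X' : ℕ, (G σ (a + (X : ℤ)) (a + (X' : ℤ)) p : ℝ) =
      ∑ r ∈ (range p).filter (fun r => ¬ p ∣ r),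
      ((if ¬ (p : ℤ) ∣ (σ * (r : ℤ) + a) + (X : ℤ) then (1 : ℝ) else 0) *
        (if ¬ (p : ℤ) ∣ (σ * (r : ℤ) + a) + (X' : ℤ) then (1 : ℝ) else 0)) := by
    intro X X'
    rw [G_sum]
    simp only [add_assoc]
  simp only [h1]
  have h2 : ∀ X ∈ range p, ∑ X' ∈ range p, ∑ r ∈ (range p).filter (fun r => ¬ p ∣ r),
      ((if ¬ (p : ℤ) ∣ (σ * (r : ℤ) + a) + (X : ℤ) then (1 : ℝ) else 0) *
        (if ¬ (p : ℤ) ∣ (σ * (r : ℤ) + a) + (X' : ℤ) then (1 : ℝ) else 0)) =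
      ∑ r ∈ (range p).filter (fun r => ¬ p ∣ r),
        ((if ¬ (p : ℤ) ∣ (σ * (r : ℤ) + a) + (X : ℤ) then (1 : ℝ) else 0) * ((p : ℝ) - 1)) := by
    intro X _
    rw [sum_comm]
    refine sum_congr rfl fun r _ => ?_
    rw [← mul_sum, sum_ind hp]
  rw [sum_congr rfl h2, sum_comm]
  have h3 : ∀ r ∈ (range p).filter (fun r => ¬ p ∣ r),
      ∑ X ∈ range p, ((if ¬ (p : ℤ) ∣ (σ * (r : ℤ) + a) + (X : ℤ) then (1 : ℝ) else 0) *
        ((p : ℝ) - 1)) = ((p : ℝ) - 1) ^ 2 := by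
    intro r _
    rw [← sum_mul, sum_ind hp]
    ring
  rw [sum_congr rfl h3, sum_const, card_nz hp, nsmul_eq_mul, Nat.cast_sub hp.one_lt.le]
  push_cast
  ring

lemma mean1 (σ a : ℤ) {p : ℕ} (hp : p.Prime) :
    ∑ X ∈ range p, (G σ (a + (X : ℤ)) (a + (X : ℤ)) p : ℝ) = ((p : ℝ) - 1) ^ 2 := by
  have h1 : ∀ X : ℕ, (G σ (a + (X : ℤ)) (a + (X : ℤ)) p : ℝ) =
      ∑ r ∈ (range p).filter (fun r => ¬ p ∣ r),
      (if ¬ (p : ℤ) ∣ (σ * (r : ℤ) + a) + (X : ℤ) then (1 : ℝ) else 0) := by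
    intro X
    rw [G_sum]
    refine sum_congr rfl fun r _ => ?_
    rw [← add_assoc]
    split_ifs <;> norm_num
  simp only [h1]
  rw [sum_comm]
  have h2 : ∀ r ∈ (range p).filter (fun r => ¬ p ∣ r),
      ∑ X ∈ range p, (if ¬ (p : ℤ) ∣ (σ * (r : ℤ) + a) + (X : ℤ) then (1 : ℝ) else 0) =
        (p : ℝ) - 1 := fun r _ => sum_ind hp (σ * (r : ℤ) + a)
  rw [sum_congr rfl h2, sum_const, card_nz hp, nsmul_eq_mul, Nat.cast_sub hp.one_lt.le]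
  push_cast
  ring

/-! ### bounds for the local factors -/

lemma inv_eq {P : ℝ} (hP : 3 ≤ P) : (1 - 1 / P)⁻¹ = P / (P - 1) := by
  have h1 : P ≠ 0 := by positivity
  have h2 : P - 1 ≠ 0 := by
    have : (0 : ℝ) < P - 1 := by linarith
    exact this.ne'
  rw [inv_eq_one_div, div_eq_div_iff (by
    have : (1 : ℝ) - 1 / P = (P - 1) / P := by field_simp
    rw [this]
    exact div_ne_zero h2 h1) h2]
  field_simp

lemma bg {P ρ : ℝ} (hP : 3 ≤ P) (h0 : 0 ≤ ρ) (h2 : ρ ≤ 2) :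
    |((1 - 1 / P)⁻¹) ^ 2 * (1 - ρ / (P - 1)) - 1| ≤ 30 / P * (1 + 1 / P) := by
  have hP0 : 0 < P := by linarith
  have ht : 0 < P - 1 := by linarith
  have e : ((1 - 1 / P)⁻¹) ^ 2 * (1 - ρ / (P - 1)) - 1 =
      (2 * P ^ 2 - 3 * P + 1 - ρ * P ^ 2) / (P - 1) ^ 3 := by
    rw [inv_eq hP]
    field_simp
    ring
  have h3 : |2 * P ^ 2 - 3 * P + 1 - ρ * P ^ 2| ≤ 2 * P ^ 2 := by
    rw [abs_le]
    constructor
    · nlinarith [mul_le_mul_of_nonneg_right h2 (sq_nonneg P)]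
    · nlinarith [mul_nonneg h0 (sq_nonneg P)]
  rw [e, abs_div, abs_of_pos (pow_pos ht 3)]
  have h4 : 2 * P ^ 2 / (P - 1) ^ 3 ≤ 30 / P := by
    rw [div_le_div_iff₀ (pow_pos ht 3) hP0]
    have h5 : P ≤ 3 / 2 * (P - 1) := by linarith
    have h6 : P ^ 3 ≤ (3 / 2 * (P - 1)) ^ 3 := pow_le_pow_left₀ hP0.le h5 3
    nlinarith [pow_pos ht 3]
  have h5 : |2 * P ^ 2 - 3 * P + 1 - ρ * P ^ 2| / (P - 1) ^ 3 ≤ 2 * P ^ 2 / (P - 1) ^ 3 :=
    div_le_div_of_nonneg_right h3 (pow_pos ht 3).le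
  have h6 : 30 / P ≤ 30 / P * (1 + 1 / P) :=
    le_mul_of_one_le_right (by positivity) (by
      have : 0 ≤ 1 / P := by positivity
      linarith)
  linarith

lemma bg2 {P : ℝ} (hP : 3 ≤ P) :
    |((1 - 1 / P)⁻¹) ^ 2 * (1 - 2 / (P - 1)) - 1| ≤ 30 / P * (0 + 1 / P) := by
  have hP0 : 0 < P := by linarith
  have ht : 0 < P - 1 := by linarith
  have e : ((1 - 1 / P)⁻¹) ^ 2 * (1 - 2 / (P - 1)) - 1 = -((3 * P - 1) / (P - 1) ^ 3) := by
    rw [inv_eq hP]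
    field_simp
    ring
  rw [e, abs_neg, abs_of_pos (div_pos (by linarith) (pow_pos ht 3))]
  have e2 : 30 / P * (0 + 1 / P) = 30 / P ^ 2 := by
    field_simp
    ring
  rw [e2, div_le_div_iff₀ (pow_pos ht 3) (by positivity)]
  obtain ⟨t, ht'⟩ : ∃ t, t = P - 1 := ⟨_, rfl⟩
  have hPt : P = t + 1 := by linarith
  have ht2 : 2 ≤ t := by linarith
  rw [← ht', hPt]
  have q1 : (0 : ℝ) ≤ t ^ 2 - 4 := by nlinarith
  have q2 : (0 : ℝ) ≤ t * (t ^ 2 - 4) := mul_nonneg (by linarith) q1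
  have q3 : (0 : ℝ) ≤ t ^ 2 * (t - 2) := mul_nonneg (sq_nonneg t) (by linarith)
  nlinarith

lemma bh {P ρ : ℝ} (hP : 3 ≤ P) (h0 : 0 ≤ ρ) (h2 : ρ ≤ 1) :
    |(1 - 1 / P)⁻¹ * (1 - ρ / (P - 1)) - 1| ≤ 30 / P * (1 + 1 / P) := by
  have hP0 : 0 < P := by linarith
  have ht : 0 < P - 1 := by linarith
  have e : (1 - 1 / P)⁻¹ * (1 - ρ / (P - 1)) - 1 = (P - 1 - ρ * P) / (P - 1) ^ 2 := by
    rw [inv_eq hP]
    field_simp
    ring
  have h3 : |P - 1 - ρ * P| ≤ P := by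
    rw [abs_le]
    constructor
    · nlinarith [mul_le_mul_of_nonneg_right h2 hP0.le]
    · nlinarith [mul_nonneg h0 hP0.le]
  rw [e, abs_div, abs_of_pos (pow_pos ht 2)]
  have h4 : P / (P - 1) ^ 2 ≤ 30 / P := by
    rw [div_le_div_iff₀ (pow_pos ht 2) hP0]
    have h5 : P ≤ 3 / 2 * (P - 1) := by linarith
    have h6 : P ^ 2 ≤ (3 / 2 * (P - 1)) ^ 2 := pow_le_pow_left₀ hP0.le h5 2
    nlinarith [pow_pos ht 2]
  have h5 : |P - 1 - ρ * P| / (P - 1) ^ 2 ≤ P / (P - 1) ^ 2 :=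
    div_le_div_of_nonneg_right h3 (pow_pos ht 2).le
  have h6 : 30 / P ≤ 30 / P * (1 + 1 / P) :=
    le_mul_of_one_le_right (by positivity) (by
      have : 0 ≤ 1 / P := by positivity
      linarith)
  linarith

lemma bh2 {P : ℝ} (hP : 3 ≤ P) :
    |(1 - 1 / P)⁻¹ * (1 - 1 / (P - 1)) - 1| ≤ 30 / P * (0 + 1 / P) := by
  have hP0 : 0 < P := by linarith
  have ht : 0 < P - 1 := by linarith
  have e : (1 - 1 / P)⁻¹ * (1 - 1 / (P - 1)) - 1 = -(1 / (P - 1) ^ 2) := by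
    rw [inv_eq hP]
    field_simp
    ring
  rw [e, abs_neg, abs_of_pos (div_pos one_pos (pow_pos ht 2))]
  have e2 : 30 / P * (0 + 1 / P) = 30 / P ^ 2 := by
    field_simp
    ring
  rw [e2, div_le_div_iff₀ (pow_pos ht 2) (by positivity)]
  have h5 : P ≤ 3 / 2 * (P - 1) := by linarith
  have h6 : P ^ 2 ≤ (3 / 2 * (P - 1)) ^ 2 := pow_le_pow_left₀ hP0.le h5 2
  nlinarith [pow_pos ht 2]

/-- the local factors of the triples -/
noncomputable def gF (σ a : ℤ) (p : ℕ) (x x' : ℤ) : ℝ :=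
  ((1 - 1 / (p : ℝ))⁻¹) ^ 2 * (1 - (rhoA (Q2 σ (a + x) (a + x')) p : ℝ) / (p - 1 : ℝ)) - 1

/-- the local factors of the pairs -/
noncomputable def hF (σ a : ℤ) (p : ℕ) (x _x' : ℤ) : ℝ :=
  (1 - 1 / (p : ℝ))⁻¹ * (1 - (rhoA (Q2 σ (a + x) (a + x)) p : ℝ) / (p - 1 : ℝ)) - 1

lemma three_le {b p : ℕ} (hp : p.Prime) (h : ¬ p ∣ b * (b - 1)) : 3 ≤ p := by
  have h2 : 2 ∣ b * (b - 1) := by
    have := (Nat.even_mul_pred_self b).two_dvd
    exact this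
  have h3 : p ≠ 2 := by
    rintro rfl
    exact h h2
  have := hp.two_le
  omega

lemma gF_ok {σ : ℤ} (hσ : σ = 1 ∨ σ = -1) (a : ℤ) {b z : ℕ} :
    ∀ p ∈ (pz z).filter (fun p => ¬ p ∣ b * (b - 1)),
    (∀ x x' y y' : ℤ, (p : ℤ) ∣ x - y → (p : ℤ) ∣ x' - y' → gF σ a p x x' = gF σ a p y y') ∧
    (∀ x x' : ℤ, |gF σ a p x x'| ≤ ((30 : ℕ) : ℝ) / p *
      ((if (p : ℤ) ∣ (a + x) * (a + x') * (x - x') then 1 else 0) + 1 / p)) ∧
    ∑ x ∈ range p, ∑ x' ∈ range p, gF σ a p (x : ℤ) (x' : ℤ) = 0 := by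
  intro p hp
  obtain ⟨hp1, hp2⟩ := mem_filter.1 hp
  have hpp := (mem_pz.1 hp1).2
  have hp3 := three_le hpp hp2
  have hP : (3 : ℝ) ≤ p := by exact_mod_cast hp3
  refine ⟨?_, ?_, ?_⟩
  · intro x x' y y' h h'
    unfold gF
    rw [rho_congr (σ := σ) (x := a + x) (x' := a + x') (y := a + y) (y' := a + y')
      (by have : a + x - (a + y) = x - y := by ring
          rw [this]; exact h)
      (by have : a + x' - (a + y') = x' - y' := by ring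
          rw [this]; exact h')]
  · intro x x'
    unfold gF
    split_ifs with h
    · have h1 : (rhoA (Q2 σ (a + x) (a + x')) p : ℝ) ≤ 2 := by
        exact_mod_cast rho_le hσ (a + x) (a + x') hpp
      have := bg hP (Nat.cast_nonneg (rhoA (Q2 σ (a + x) (a + x')) p)) h1
      exact_mod_cast this
    · have h1 : rhoA (Q2 σ (a + x) (a + x')) p = 2 := by
        refine rho_eq2 hσ hpp ?_
        have : a + x - (a + x') = x - x' := by ring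
        rw [this]
        exact h
      rw [h1]
      have := bg2 hP
      exact_mod_cast this
  · unfold gF
    simp only [one_sub _ _ _ hpp]
    have h1 : ∀ X ∈ range p, ∑ X' ∈ range p, (((1 - 1 / (p : ℝ))⁻¹) ^ 2 *
        ((G σ (a + (X : ℤ)) (a + (X' : ℤ)) p : ℝ) / (p - 1)) - 1) =
        ((1 - 1 / (p : ℝ))⁻¹) ^ 2 / (p - 1) *
          (∑ X' ∈ range p, (G σ (a + (X : ℤ)) (a + (X' : ℤ)) p : ℝ)) - p := by
      intro X _
      rw [sum_sub_distrib, sum_const, card_range, nsmul_eq_mul, mul_one, mul_sum]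
      congr 1
      refine sum_congr rfl fun X' _ => ?_
      ring
    rw [sum_congr rfl h1, sum_sub_distrib, ← mul_sum, mean2 σ a hpp, sum_const, card_range,
      nsmul_eq_mul, inv_eq hP]
    have ht : (p : ℝ) - 1 ≠ 0 := by
      have : (0 : ℝ) < (p : ℝ) - 1 := by linarith
      exact this.ne'
    field_simp
    ring

lemma hF_ok {σ : ℤ} (hσ : σ = 1 ∨ σ = -1) (a : ℤ) {b z : ℕ} :
    ∀ p ∈ (pz z).filter (fun p => ¬ p ∣ b * (b - 1)),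
    (∀ x x' y y' : ℤ, (p : ℤ) ∣ x - y → (p : ℤ) ∣ x' - y' → hF σ a p x x' = hF σ a p y y') ∧
    (∀ x x' : ℤ, |hF σ a p x x'| ≤ ((30 : ℕ) : ℝ) / p *
      ((if (p : ℤ) ∣ (a + x) * (a + x') * (x - x') then 1 else 0) + 1 / p)) ∧
    ∑ x ∈ range p, ∑ x' ∈ range p, hF σ a p (x : ℤ) (x' : ℤ) = 0 := by
  intro p hp
  obtain ⟨hp1, hp2⟩ := mem_filter.1 hp
  have hpp := (mem_pz.1 hp1).2
  have hp3 := three_le hpp hp2
  have hP : (3 : ℝ) ≤ p := by exact_mod_cast hp3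
  refine ⟨?_, ?_, ?_⟩
  · intro x x' y y' h h'
    unfold hF
    rw [rho_congr (σ := σ) (x := a + x) (x' := a + x) (y := a + y) (y' := a + y)
      (by have : a + x - (a + y) = x - y := by ring
          rw [this]; exact h)
      (by have : a + x - (a + y) = x - y := by ring
          rw [this]; exact h)]
  · intro x x'
    unfold hF
    split_ifs with h
    · have h1 : (rhoA (Q2 σ (a + x) (a + x)) p : ℝ) ≤ 1 := by
        exact_mod_cast rho_le1 hσ (a + x) hpp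
      have := bh hP (Nat.cast_nonneg (rhoA (Q2 σ (a + x) (a + x)) p)) h1
      exact_mod_cast this
    · have h1 : rhoA (Q2 σ (a + x) (a + x)) p = 1 := by
        refine rho_eq1 hσ hpp ?_
        intro h'
        exact h ((h'.mul_right _).mul_right _)
      rw [h1]
      have := bh2 hP
      push_cast
      exact_mod_cast this
  · unfold hF
    simp only [one_sub _ _ _ hpp, sum_const, card_range, nsmul_eq_mul]
    rw [← mul_sum, sum_sub_distrib, sum_const, card_range, nsmul_eq_mul, mul_one]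
    have h1 : ∑ X ∈ range p, ((1 - 1 / (p : ℝ))⁻¹ *
        ((G σ (a + (X : ℤ)) (a + (X : ℤ)) p : ℝ) / (p - 1))) =
        (1 - 1 / (p : ℝ))⁻¹ / (p - 1) *
          (∑ X ∈ range p, (G σ (a + (X : ℤ)) (a + (X : ℤ)) p : ℝ)) := by
      rw [mul_sum]
      refine sum_congr rfl fun X _ => ?_
      ring
    rw [h1, mean1 σ a hpp, inv_eq hP]
    have ht : (p : ℝ) - 1 ≠ 0 := by
      have : (0 : ℝ) < (p : ℝ) - 1 := by linarith
      exact this.ne'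
    field_simp
    ring

/-! ### the sums of powers and the prime divisors of `b (b - 1)` -/

lemma DD_mod {b : ℕ} (hb : 2 ≤ b) {r Y : ℕ} (ν : Fin r → Fin Y) :
    ((b * (b - 1) : ℕ) : ℤ) ∣ (DD b ν : ℤ) - ((r * b : ℕ) : ℤ) := by
  have h1 : ((b * (b - 1) : ℕ) : ℤ) = (b : ℤ) * ((b : ℤ) - 1) := by
    rw [Nat.cast_mul, Nat.cast_sub (by omega)]
    push_cast
    ring
  have h2 : (DD b ν : ℤ) - ((r * b : ℕ) : ℤ) = ∑ j : Fin r, ((b : ℤ) ^ ((ν j : ℕ) + 1) - b) := by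
    unfold DD
    rw [sum_sub_distrib, sum_const, card_univ, Fintype.card_fin, nsmul_eq_mul]
    push_cast
    ring
  rw [h1, h2]
  refine dvd_sum fun j _ => ?_
  have h3 : (b : ℤ) ^ ((ν j : ℕ) + 1) - b = b * ((b : ℤ) ^ (ν j : ℕ) - 1) := by ring
  rw [h3]
  refine mul_dvd_mul_left _ ?_
  have := sub_dvd_pow_sub_pow (b : ℤ) 1 (ν j : ℕ)
  rwa [one_pow] at this

lemma filter_pf {q z : ℕ} (hq : q ≠ 0) (hqz : q ≤ z) :
    (pz z).filter (fun p => p ∣ q) = q.primeFactors := by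
  ext p
  rw [mem_filter, mem_pz, Nat.mem_primeFactors]
  constructor
  · rintro ⟨⟨_, h1⟩, h2⟩
    exact ⟨h1, h2, hq⟩
  · rintro ⟨h1, h2, _⟩
    exact ⟨⟨(Nat.le_of_dvd (Nat.pos_of_ne_zero hq) h2).trans hqz, h1⟩, h2⟩

lemma gcd_iff {q : ℕ} (hq : q ≠ 0) (m : ℤ) :
    Int.gcd m (q : ℤ) = 1 ↔ ∀ p ∈ q.primeFactors, ¬ (p : ℤ) ∣ m := by
  have h0 : Int.gcd m (q : ℤ) = Nat.gcd m.natAbs q := by
    rw [Int.gcd_def, Int.natAbs_natCast]
  rw [h0]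
  constructor
  · intro h p hp hd
    have hpp := Nat.prime_of_mem_primeFactors hp
    have h1 : p ∣ Nat.gcd m.natAbs q :=
      Nat.dvd_gcd (Int.natCast_dvd.1 hd) (Nat.dvd_of_mem_primeFactors hp)
    rw [h] at h1
    exact hpp.one_lt.ne' (Nat.dvd_one.1 h1)
  · intro h
    by_contra hcon
    obtain ⟨p, hpp, h1, h2⟩ := Nat.Prime.not_coprime_iff_dvd.1 hcon
    exact h p (Nat.mem_primeFactors.2 ⟨hpp, h2, hq⟩) (Int.natCast_dvd.2 h1)

/-- the constant -/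
noncomputable def PQ (q : ℕ) : ℝ := ∏ p ∈ q.primeFactors, (1 - 1 / (p : ℝ))⁻¹

lemma PQ_ge (q : ℕ) : 1 ≤ PQ q := by
  have h0 : ∀ p ∈ q.primeFactors, (1 : ℝ) ≤ (1 - 1 / (p : ℝ))⁻¹ := by
    intro p hp
    have hpp := Nat.prime_of_mem_primeFactors hp
    have h1 : (2 : ℝ) ≤ p := by exact_mod_cast hpp.two_le
    have h2 : (0 : ℝ) < 1 / p := by positivity
    have h3 : 1 / (p : ℝ) ≤ 1 / 2 := one_div_le_one_div_of_le (by norm_num) h1
    exact (one_le_inv₀ (by linarith)).2 (by linarith)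
  have h1 := prod_le_prod (s := q.primeFactors) (f := fun _ => (1 : ℝ))
    (g := fun p : ℕ => (1 - 1 / (p : ℝ))⁻¹) (fun _ _ => zero_le_one) h0
  rw [prod_const_one] at h1
  exact h1

/-- the local constant -/
noncomputable def KA (q : ℕ) (σ t : ℤ) : ℝ :=
  ∏ p ∈ q.primeFactors, (1 - (rhoA (Q2 σ t t) p : ℝ) / (p - 1 : ℝ))

lemma KA_bd (q : ℕ) (σ t : ℤ) : 0 ≤ KA q σ t ∧ KA q σ t ≤ 1 := by
  have h : ∀ p ∈ q.primeFactors, 0 ≤ 1 - (rhoA (Q2 σ t t) p : ℝ) / (p - 1 : ℝ) ∧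
      1 - (rhoA (Q2 σ t t) p : ℝ) / (p - 1 : ℝ) ≤ 1 := by
    intro p hp
    have hpp := Nat.prime_of_mem_primeFactors hp
    have h1 : (1 : ℝ) < p := by exact_mod_cast hpp.one_lt
    rw [one_sub _ _ _ hpp]
    have h2 := G_add σ t t hpp
    have h3 : (G σ t t p : ℝ) ≤ (p : ℝ) - 1 := by
      have : ((G σ t t p : ℕ) : ℝ) ≤ ((p - 1 : ℕ) : ℝ) := by exact_mod_cast (by omega)
      rw [Nat.cast_sub hpp.one_lt.le] at this
      push_cast at this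
      exact this
    exact ⟨div_nonneg (Nat.cast_nonneg _) (by linarith), (div_le_one (by linarith)).2 h3⟩
  unfold KA
  exact ⟨prod_nonneg fun p hp => (h p hp).1, prod_le_one (fun p hp => (h p hp).1)
    fun p hp => (h p hp).2⟩

lemma main2 {q z : ℕ} (hq : q ≠ 0) (hqz : q ≤ z) {σ a t D D' : ℤ}
    (hD : (q : ℤ) ∣ a + D - t) (hD' : (q : ℤ) ∣ a + D' - t) :
    ((Vz z)⁻¹) ^ 2 * ∏ p ∈ pz z, (1 - (rhoA (Q2 σ (a + D) (a + D')) p : ℝ) / (p - 1 : ℝ)) =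
      PQ q ^ 2 * KA q σ t * ∏ p ∈ (pz z).filter (fun p => ¬ p ∣ q), (1 + gF σ a p D D') := by
  unfold Vz
  rw [← prod_inv_distrib, ← prod_pow, ← prod_mul_distrib,
    ← prod_filter_mul_prod_filter_not (pz z) (fun p => p ∣ q), filter_pf hq hqz]
  congr 1
  · unfold PQ KA
    rw [← prod_pow, ← prod_mul_distrib]
    refine prod_congr rfl fun p hp => ?_
    have hpq : (p : ℤ) ∣ (q : ℤ) := Int.natCast_dvd_natCast.2 (Nat.dvd_of_mem_primeFactors hp)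
    rw [rho_congr (σ := σ) (hpq.trans hD) (hpq.trans hD')]
  · refine prod_congr rfl fun p _ => ?_
    unfold gF
    ring

lemma main1 {q z : ℕ} (hq : q ≠ 0) (hqz : q ≤ z) {σ a t D : ℤ}
    (hD : (q : ℤ) ∣ a + D - t) (D' : ℤ) :
    (Vz z)⁻¹ * ∏ p ∈ pz z, (1 - (rhoA (Q2 σ (a + D) (a + D)) p : ℝ) / (p - 1 : ℝ)) =
      PQ q * KA q σ t * ∏ p ∈ (pz z).filter (fun p => ¬ p ∣ q), (1 + hF σ a p D D') := by
  unfold Vz
  rw [← prod_inv_distrib, ← prod_mul_distrib,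
    ← prod_filter_mul_prod_filter_not (pz z) (fun p => p ∣ q), filter_pf hq hqz]
  congr 1
  · unfold PQ KA
    rw [← prod_mul_distrib]
    refine prod_congr rfl fun p hp => ?_
    have hpq : (p : ℤ) ∣ (q : ℤ) := Int.natCast_dvd_natCast.2 (Nat.dvd_of_mem_primeFactors hp)
    rw [rho_congr (σ := σ) (hpq.trans hD) (hpq.trans hD)]
  · refine prod_congr rfl fun p _ => ?_
    unfold hF
    ring

/-- the conditions at the prime divisors of `q` -/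
def Q0 (q : ℕ) (σ t : ℤ) (p n : ℕ) : Prop := p ∣ q ∧ (p : ℤ) ∣ σ * (n : ℤ) + t

lemma Q0_iff {q : ℕ} {σ t : ℤ} {p n : ℕ} : Q0 q σ t p n ↔ p ∣ q ∧ Q2 σ t t p n := by
  unfold Q0 Q2
  rw [or_self_iff]

lemma rho0 {q : ℕ} {σ t : ℤ} {p : ℕ} (h : p ∣ q) :
    rhoA (Q0 q σ t) p = rhoA (Q2 σ t t) p := by
  classical
  unfold rhoA
  congr 1
  refine filter_congr fun r _ => and_congr_right fun _ => ?_
  rw [Q0_iff]
  exact ⟨fun h => h.2, fun h' => ⟨h, h'⟩⟩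

lemma rho0' {q : ℕ} {σ t : ℤ} {p : ℕ} (h : ¬ p ∣ q) : rhoA (Q0 q σ t) p = 0 := by
  classical
  unfold rhoA
  rw [card_eq_zero, filter_eq_empty_iff]
  rintro r _ ⟨_, h1, _⟩
  exact h h1

lemma Q0_PerA {q : ℕ} {σ : ℤ} (hσ : σ = 1 ∨ σ = -1) (t : ℤ) : PerA (Q0 q σ t) 2 := by
  refine ⟨fun p n => ?_, fun p hp => ?_⟩
  · rw [Q0_iff, Q0_iff, Q2_per σ t t p n]
  · by_cases h : p ∣ q
    · rw [rho0 h]
      exact rho_le hσ t t hp
    · rw [rho0' h]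
      omega

lemma main0 {q z : ℕ} (hq : q ≠ 0) (hqz : q ≤ z) {σ t : ℤ} :
    ∏ p ∈ pz z, (1 - (rhoA (Q0 q σ t) p : ℝ) / (p - 1 : ℝ)) = KA q σ t := by
  rw [← prod_filter_mul_prod_filter_not (pz z) (fun p => p ∣ q), filter_pf hq hqz]
  have h1 : ∏ p ∈ (pz z).filter (fun p => ¬ p ∣ q),
      (1 - (rhoA (Q0 q σ t) p : ℝ) / (p - 1 : ℝ)) = 1 := by
    refine prod_eq_one fun p hp => ?_
    rw [rho0' (mem_filter.1 hp).2]
    simp
  rw [h1, mul_one]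
  unfold KA
  refine prod_congr rfl fun p hp => ?_
  rw [rho0 (Nat.dvd_of_mem_primeFactors hp)]

/-! ### the sums over the integers -/

open Classical in
/-- the sifted sum -/
noncomputable def SG (X z : ℕ) (Q : ℕ → ℕ → Prop) : ℝ :=
  ∑ n ∈ (Icc 1 X).filter (fun n : ℕ => ∀ p ∈ pz z, ¬ Q p n), ArithmeticFunction.vonMangoldt n

lemma sum2 {X z : ℕ} {σ x x' : ℤ} (hx : ∀ n ∈ Icc 1 X, 1 ≤ σ * (n : ℤ) + x)
    (hx' : ∀ n ∈ Icc 1 X, 1 ≤ σ * (n : ℤ) + x') :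
    ∑ n ∈ Icc 1 X, ArithmeticFunction.vonMangoldt n *
      (lamzI z (σ * (n : ℤ) + x) * lamzI z (σ * (n : ℤ) + x')) =
      ((Vz z)⁻¹) ^ 2 * SG X z (Q2 σ x x') := by
  classical
  unfold SG
  rw [sum_filter, mul_sum]
  refine sum_congr rfl fun n hn => ?_
  have e1 := lamzI_eq z (hx n hn)
  have e2 := lamzI_eq z (hx' n hn)
  by_cases h : ∀ p ∈ pz z, ¬ Q2 σ x x' p n
  · rw [if_pos h]
    rw [if_pos (fun p hp hd => h p hp (Or.inl hd))] at e1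
    rw [if_pos (fun p hp hd => h p hp (Or.inr hd))] at e2
    rw [e1, e2]
    ring
  · rw [if_neg h]
    push Not at h
    obtain ⟨p, hp, hd | hd⟩ := h
    · rw [if_neg (fun h => h p hp hd)] at e1
      rw [e1]
      ring
    · rw [if_neg (fun h => h p hp hd)] at e2
      rw [e2]
      ring

lemma sum1 {X z : ℕ} {σ x : ℤ} (hx : ∀ n ∈ Icc 1 X, 1 ≤ σ * (n : ℤ) + x) :
    ∑ n ∈ Icc 1 X, ArithmeticFunction.vonMangoldt n * lamzI z (σ * (n : ℤ) + x) =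
      (Vz z)⁻¹ * SG X z (Q2 σ x x) := by
  classical
  unfold SG
  rw [sum_filter, mul_sum]
  refine sum_congr rfl fun n hn => ?_
  have e1 := lamzI_eq z (hx n hn)
  by_cases h : ∀ p ∈ pz z, ¬ Q2 σ x x p n
  · rw [if_pos h]
    rw [if_pos (fun p hp hd => h p hp (Or.inl hd))] at e1
    rw [e1]
    ring
  · rw [if_neg h]
    push Not at h
    obtain ⟨p, hp, hd⟩ := h
    have hd' : (p : ℤ) ∣ σ * (n : ℤ) + x := hd.elim id id
    rw [if_neg (fun h => h p hp hd')] at e1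
    rw [e1]
    ring

lemma Phi_eq {b r z : ℕ} (hb : 2 ≤ b) (hqz : b * (b - 1) ≤ z) (σ a : ℤ) (n : ℕ)
    [Decidable (∀ p ∈ pz z, ¬ Q0 (b * (b - 1)) σ (a + ((r * b : ℕ) : ℤ)) p n)] :
    Phi b r (σ * (n : ℤ) + a) =
      if ∀ p ∈ pz z, ¬ Q0 (b * (b - 1)) σ (a + ((r * b : ℕ) : ℤ)) p n then PQ (b * (b - 1))
      else 0 := by
  have hq : b * (b - 1) ≠ 0 := Nat.mul_ne_zero (by omega) (by omega)
  have h1 : (Int.gcd (σ * (n : ℤ) + a + ((r * b : ℕ) : ℤ)) ((b * (b - 1) : ℕ) : ℤ) = 1) ↔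
      ∀ p ∈ pz z, ¬ Q0 (b * (b - 1)) σ (a + ((r * b : ℕ) : ℤ)) p n := by
    rw [gcd_iff hq, ← filter_pf hq hqz]
    unfold Q0
    constructor
    · rintro h p hp ⟨h2, h3⟩
      refine h p (mem_filter.2 ⟨hp, h2⟩) ?_
      rw [add_assoc]
      exact h3
    · intro h p hp h3
      obtain ⟨hp1, hp2⟩ := mem_filter.1 hp
      refine h p hp1 ⟨hp2, ?_⟩
      rw [← add_assoc]
      exact h3
  unfold Phi PQ
  by_cases h : ∀ p ∈ pz z, ¬ Q0 (b * (b - 1)) σ (a + ((r * b : ℕ) : ℤ)) p n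
  · rw [if_pos h, if_pos (h1.2 h)]
  · rw [if_neg h, if_neg (fun h' => h (h1.1 h'))]

lemma sum0 {b r X z : ℕ} (hb : 2 ≤ b) (hqz : b * (b - 1) ≤ z) (σ a : ℤ) :
    ∑ n ∈ Icc 1 X, ArithmeticFunction.vonMangoldt n * Phi b r (σ * (n : ℤ) + a) ^ 2 =
      PQ (b * (b - 1)) ^ 2 * SG X z (Q0 (b * (b - 1)) σ (a + ((r * b : ℕ) : ℤ))) := by
  classical
  unfold SG
  rw [sum_filter, mul_sum]
  refine sum_congr rfl fun n _ => ?_
  rw [Phi_eq (z := z) hb hqz σ a n]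
  by_cases h : ∀ p ∈ pz z, ¬ Q0 (b * (b - 1)) σ (a + ((r * b : ℕ) : ℤ)) p n
  · rw [if_pos h, if_pos h]
    ring
  · rw [if_neg h, if_neg h]
    ring

/-- the product of the model and its local part -/
lemma FF_Phi {b r Y z : ℕ} (hb : 2 ≤ b) (hqz : b * (b - 1) ≤ z) {m : ℤ} (hm : 1 ≤ m) :
    FF b r Y z m * Phi b r m = PQ (b * (b - 1)) * FF b r Y z m := by
  have hq : b * (b - 1) ≠ 0 := Nat.mul_ne_zero (by omega) (by omega)
  by_cases h : Int.gcd (m + ((r * b : ℕ) : ℤ)) ((b * (b - 1) : ℕ) : ℤ) = 1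
  · have h1 : Phi b r m = PQ (b * (b - 1)) := by
      unfold Phi
      rw [if_pos h]
      rfl
    rw [h1, mul_comm]
  · have h0 := h
    rw [gcd_iff hq] at h0
    push Not at h0
    obtain ⟨p, hp, hd⟩ := h0
    have h1 : FF b r Y z m = 0 := by
      unfold FF
      rw [sum_eq_zero, zero_div]
      intro ν _
      have hpos : (1 : ℤ) ≤ m + (DD b ν : ℤ) := by
        have : (0 : ℤ) ≤ (DD b ν : ℤ) := Int.natCast_nonneg _
        omega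
      rw [lamzI_eq z hpos]
      refine if_neg fun h2 => ?_
      rw [← filter_pf hq hqz] at hp
      obtain ⟨hp1, hp2⟩ := mem_filter.1 hp
      refine h2 p hp1 ?_
      have h3 : (p : ℤ) ∣ (DD b ν : ℤ) - ((r * b : ℕ) : ℤ) :=
        (Int.natCast_dvd_natCast.2 hp2).trans (DD_mod hb ν)
      have h4 : m + (DD b ν : ℤ) = (m + ((r * b : ℕ) : ℤ)) +
          ((DD b ν : ℤ) - ((r * b : ℕ) : ℤ)) := by ring
      rw [h4]
      exact dvd_add hd h3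
    rw [h1]
    ring

/-- the final inequality -/
lemma fin_ineq {X Pq κ e V L A2 A1 A0 R η : ℝ} (hX : 0 ≤ X) (hPq : 1 ≤ Pq)
    (hκ1 : κ ≤ 1) (he : 0 ≤ e) (hV0 : 0 ≤ V) (hVL : V ≤ L) (hL : 1 ≤ L) (hR : 0 < R)
    (h2 : A2 ≤ X * (Pq ^ 2 * κ) * ((1 + e) * R ^ 2) + R ^ 2 * (V ^ 2 * (X / L ^ 3)))
    (h1 : X * (Pq * κ) * ((1 - e) * R) - R * (V * (X / L ^ 3)) ≤ A1)
    (h0 : A0 ≤ Pq ^ 2 * (X * κ + X / L ^ 3))
    (hη1 : 6 * Pq ^ 2 * e ≤ η) (hη2 : 2 * (1 + Pq) ^ 2 ≤ η * L) :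
    A2 / R ^ 2 - 2 * (Pq * (A1 / R)) + A0 ≤ η * X := by
  have hR2 : 0 < R ^ 2 := by positivity
  have hL3 : 0 < L ^ 3 := by positivity
  have g2 : A2 / R ^ 2 ≤ X * (Pq ^ 2 * κ) * (1 + e) + V ^ 2 * (X / L ^ 3) := by
    rw [div_le_iff₀ hR2]
    linarith
  have g1 : X * (Pq * κ) * (1 - e) - V * (X / L ^ 3) ≤ A1 / R := by
    rw [le_div_iff₀ hR]
    linarith
  have g1' : Pq * (X * (Pq * κ) * (1 - e) - V * (X / L ^ 3)) ≤ Pq * (A1 / R) :=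
    mul_le_mul_of_nonneg_left g1 (by linarith)
  have g3 : A2 / R ^ 2 - 2 * (Pq * (A1 / R)) + A0 ≤
      3 * e * (X * (Pq ^ 2 * κ)) + (V + Pq) ^ 2 * (X / L ^ 3) := by
    have : 3 * e * (X * (Pq ^ 2 * κ)) + (V + Pq) ^ 2 * (X / L ^ 3) =
        (X * (Pq ^ 2 * κ) * (1 + e) + V ^ 2 * (X / L ^ 3)) -
        2 * (Pq * (X * (Pq * κ) * (1 - e) - V * (X / L ^ 3))) +
        Pq ^ 2 * (X * κ + X / L ^ 3) := by ring
    rw [this]
    linarith
  have g4 : 3 * e * (X * (Pq ^ 2 * κ)) ≤ η / 2 * X := by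
    have e1 : X * (Pq ^ 2 * κ) ≤ X * Pq ^ 2 :=
      mul_le_mul_of_nonneg_left (mul_le_of_le_one_right (sq_nonneg _) hκ1) hX
    have e2 : 3 * e * (X * (Pq ^ 2 * κ)) ≤ 3 * e * (X * Pq ^ 2) :=
      mul_le_mul_of_nonneg_left e1 (by linarith)
    have e3 : 3 * e * (X * Pq ^ 2) = (6 * Pq ^ 2 * e) / 2 * X := by ring
    have e4 : (6 * Pq ^ 2 * e) / 2 * X ≤ η / 2 * X :=
      mul_le_mul_of_nonneg_right (by linarith) hX
    linarith
  have g5 : (V + Pq) ^ 2 * (X / L ^ 3) ≤ η / 2 * X := by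
    have e1 : V + Pq ≤ L * (1 + Pq) := by nlinarith
    have e2 : (V + Pq) ^ 2 ≤ (L * (1 + Pq)) ^ 2 :=
      pow_le_pow_left₀ (by linarith) e1 2
    have e3 : (V + Pq) ^ 2 * (X / L ^ 3) ≤ (L * (1 + Pq)) ^ 2 * (X / L ^ 3) :=
      mul_le_mul_of_nonneg_right e2 (by positivity)
    have e4 : (L * (1 + Pq)) ^ 2 * (X / L ^ 3) = (1 + Pq) ^ 2 / L * X := by
      field_simp
    have e5 : (1 + Pq) ^ 2 / L ≤ η / 2 := by
      rw [div_le_iff₀ (by linarith)]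
      linarith
    rw [e4] at e3
    exact e3.trans (mul_le_mul_of_nonneg_right e5 hX)
  linarith

lemma card_fun (r Y : ℕ) : ((univ : Finset (Fin r → Fin Y)).card : ℝ) = (Y : ℝ) ^ r := by
  rw [card_univ, Fintype.card_fun, Fintype.card_fin, Fintype.card_fin]
  push_cast
  rfl

end Pool.Agent.Y820.LD.SS

namespace Pool.Agent.Y820.LD

open Finset
open Pool.Agent.H373R2.T7
open SS

/-- LD-S -/
theorem t_TwoP (hG : S_GL) : S_TwoP := by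
  intro b hb E η hη
  have hq : b * (b - 1) ≠ 0 := Nat.mul_ne_zero (by omega) (by omega)
  have hPq := PQ_ge (b * (b - 1))
  obtain ⟨Pq, hPqd⟩ : ∃ Pq, Pq = PQ (b * (b - 1)) := ⟨_, rfl⟩
  rw [← hPqd] at hPq
  have hPq0 : 0 < Pq := by linarith
  obtain ⟨e, he⟩ : ∃ e, e = η / (6 * Pq ^ 2) := ⟨_, rfl⟩
  have he0 : 0 < e := by rw [he]; positivity
  obtain ⟨r0, hr0⟩ := hG b hb 30 (E + 1) e he0
  refine ⟨r0, fun r hr => ?_⟩
  obtain ⟨Y0, hY0⟩ := hr0 r hr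
  obtain ⟨n1, h1⟩ := sys_main 2 E 3 (by norm_num)
  obtain ⟨n2, h2⟩ := Vz_inv_small E
  obtain ⟨n3, h3⟩ := ev_L' ((b : ℝ) * ((Y0 : ℝ) + (b : ℝ) ^ E + 1) + 2 * (1 + Pq) ^ 2 / η + 1)
  refine ⟨max n1 (max n2 n3), fun X hX Y z hXY hqz hzE σ hσ a ha hp1 hp2 _ => ?_⟩
  have c1 := (le_max_left _ _).trans hX
  have c2 := ((le_max_left _ _).trans (le_max_right _ _)).trans hX
  have c3 := ((le_max_right _ _).trans (le_max_right _ _)).trans hX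
  have hz1 : 1 ≤ z := (Nat.one_le_iff_ne_zero.2 hq).trans hqz
  have hV := h2 X c2 z hz1 hzE
  have hL := h3 X c3
  obtain ⟨L, hLd⟩ : ∃ L, L = Real.log X := ⟨_, rfl⟩
  rw [← hLd] at hV hL hXY hzE
  have hb0 : (0 : ℝ) < b := by exact_mod_cast (by omega : 0 < b)
  have hterm1 : 0 ≤ (b : ℝ) * ((Y0 : ℝ) + (b : ℝ) ^ E + 1) := by positivity
  have hterm2 : 0 ≤ 2 * (1 + Pq) ^ 2 / η := by positivity
  have hL1 : 1 ≤ L := by linarith
  have hL2 : 2 * (1 + Pq) ^ 2 ≤ η * L := by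
    have : 2 * (1 + Pq) ^ 2 / η ≤ L := by linarith
    rw [div_le_iff₀ hη] at this
    linarith
  have hYr : (Y0 : ℝ) + (b : ℝ) ^ E + 1 ≤ Y := by
    have : (b : ℝ) * ((Y0 : ℝ) + (b : ℝ) ^ E + 1) ≤ b * Y := by linarith
    exact le_of_mul_le_mul_left this hb0
  have hYY0 : Y0 ≤ Y := by
    have : (Y0 : ℝ) ≤ Y := by
      have : (0 : ℝ) ≤ (b : ℝ) ^ E := by positivity
      linarith
    exact_mod_cast this
  have hbE : (b : ℝ) ^ E ≤ Y := by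
    have : (0 : ℝ) ≤ Y0 := Nat.cast_nonneg _
    linarith
  have hY1 : (1 : ℝ) ≤ Y := by
    have e1 : (0 : ℝ) ≤ Y0 := Nat.cast_nonneg _
    have e2 : (0 : ℝ) ≤ (b : ℝ) ^ E := by positivity
    linarith
  have hzY : (z : ℝ) ≤ (Y : ℝ) ^ (E + 1) := by
    calc (z : ℝ) ≤ L ^ E := hzE
      _ ≤ ((b : ℝ) * Y) ^ E := pow_le_pow_left₀ (by linarith) hXY E
      _ = (b : ℝ) ^ E * (Y : ℝ) ^ E := mul_pow _ _ _
      _ ≤ Y * (Y : ℝ) ^ E := mul_le_mul_of_nonneg_right hbE (by positivity)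
      _ = (Y : ℝ) ^ (E + 1) := by ring
  -- positivity
  have hpos : ∀ n ∈ Icc 1 X, 1 ≤ σ * (n : ℤ) + a := by
    intro n hn
    rw [mem_Icc] at hn
    have m1 : (1 : ℤ) ≤ n := by exact_mod_cast hn.1
    have m2 : (n : ℤ) ≤ X := by exact_mod_cast hn.2
    rcases hσ with h | h
    · rw [h] at hp1 hp2 ⊢
      linarith
    · rw [h] at hp1 hp2 ⊢
      linarith
  have hposD : ∀ ν : Fin r → Fin Y, ∀ n ∈ Icc 1 X, 1 ≤ σ * (n : ℤ) + (a + (DD b ν : ℤ)) := by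
    intro ν n hn
    have m1 := hpos n hn
    have m2 : (0 : ℤ) ≤ (DD b ν : ℤ) := Int.natCast_nonneg _
    linarith
  obtain ⟨t, ht⟩ : ∃ t : ℤ, t = a + ((r * b : ℕ) : ℤ) := ⟨_, rfl⟩
  have hDt : ∀ ν : Fin r → Fin Y, ((b * (b - 1) : ℕ) : ℤ) ∣ a + (DD b ν : ℤ) - t := by
    intro ν
    have : a + (DD b ν : ℤ) - t = (DD b ν : ℤ) - ((r * b : ℕ) : ℤ) := by rw [ht]; ring
    rw [this]
    exact DD_mod hb ν
  obtain ⟨κ, hκd⟩ : ∃ κ, κ = KA (b * (b - 1)) σ t := ⟨_, rfl⟩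
  obtain ⟨hκ0, hκ1⟩ := KA_bd (b * (b - 1)) σ t
  rw [← hκd] at hκ0 hκ1
  obtain ⟨V, hVd⟩ : ∃ V, V = (Vz z)⁻¹ := ⟨_, rfl⟩
  have hV0 : 0 ≤ V := by rw [hVd]; exact (inv_pos.2 (Vz_pos z)).le
  rw [← hVd] at hV
  obtain ⟨R, hRd⟩ : ∃ R, R = (Y : ℝ) ^ r := ⟨_, rfl⟩
  have hR : 0 < R := by rw [hRd]; positivity
  have hX0 : (0 : ℝ) ≤ X := Nat.cast_nonneg _
  -- the sieve
  have hS : ∀ Q : ℕ → ℕ → Prop, PerA Q 2 → |SG X z Q -
      X * ∏ p ∈ pz z, (1 - (rhoA Q p : ℝ) / (p - 1 : ℝ))| ≤ X / L ^ 3 := by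
    intro Q hQ
    rw [hLd]
    exact h1 X c1 z hz1 (by rw [← hLd]; exact hzE) Q hQ
  -- the mean values of the local factors
  have hg := hY0 Y hYY0 z hzY a ha (gF σ a) (gF_ok hσ a)
  have hh := hY0 Y hYY0 z hzY a ha (hF σ a) (hF_ok hσ a)
  rw [← hRd] at hg hh
  rw [abs_le] at hg hh
  -- expansion
  obtain ⟨A2, hA2⟩ : ∃ A2 : ℝ, A2 = ∑ ν : Fin r → Fin Y, ∑ ν' : Fin r → Fin Y,
      V ^ 2 * SG X z (Q2 σ (a + (DD b ν : ℤ)) (a + (DD b ν' : ℤ))) := ⟨_, rfl⟩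
  obtain ⟨A1, hA1⟩ : ∃ A1 : ℝ, A1 = ∑ ν : Fin r → Fin Y,
      V * SG X z (Q2 σ (a + (DD b ν : ℤ)) (a + (DD b ν : ℤ))) := ⟨_, rfl⟩
  obtain ⟨A0, hA0⟩ : ∃ A0 : ℝ, A0 = Pq ^ 2 * SG X z (Q0 (b * (b - 1)) σ t) := ⟨_, rfl⟩
  have hFF : ∀ n : ℕ, FF b r Y z (σ * (n : ℤ) + a) =
      (∑ ν : Fin r → Fin Y, lamzI z (σ * (n : ℤ) + (a + (DD b ν : ℤ)))) / R := by
    intro n
    unfold FF
    rw [hRd]
    simp only [add_assoc]
  have hexp : ∑ n ∈ Icc 1 X, ArithmeticFunction.vonMangoldt n *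
      (FF b r Y z (σ * (n : ℤ) + a) - Phi b r (σ * (n : ℤ) + a)) ^ 2 =
      A2 / R ^ 2 - 2 * (Pq * (A1 / R)) + A0 := by
    have e0 : ∑ n ∈ Icc 1 X, ArithmeticFunction.vonMangoldt n *
        (FF b r Y z (σ * (n : ℤ) + a) - Phi b r (σ * (n : ℤ) + a)) ^ 2 =
        ∑ n ∈ Icc 1 X, ArithmeticFunction.vonMangoldt n * FF b r Y z (σ * (n : ℤ) + a) ^ 2 -
        2 * (Pq * ∑ n ∈ Icc 1 X, ArithmeticFunction.vonMangoldt n *
          FF b r Y z (σ * (n : ℤ) + a)) +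
        ∑ n ∈ Icc 1 X, ArithmeticFunction.vonMangoldt n * Phi b r (σ * (n : ℤ) + a) ^ 2 := by
      rw [mul_sum, mul_sum, ← sum_sub_distrib, ← sum_add_distrib]
      refine sum_congr rfl fun n hn => ?_
      have := FF_Phi (r := r) (Y := Y) hb hqz (hpos n hn)
      rw [← hPqd] at this
      linear_combination (-2 * ArithmeticFunction.vonMangoldt n) * this
    have e2 : ∑ n ∈ Icc 1 X, ArithmeticFunction.vonMangoldt n *
        FF b r Y z (σ * (n : ℤ) + a) ^ 2 = A2 / R ^ 2 := by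
      have f1 : ∀ n ∈ Icc 1 X, ArithmeticFunction.vonMangoldt n *
          FF b r Y z (σ * (n : ℤ) + a) ^ 2 = (∑ ν : Fin r → Fin Y, ∑ ν' : Fin r → Fin Y,
            ArithmeticFunction.vonMangoldt n * (lamzI z (σ * (n : ℤ) + (a + (DD b ν : ℤ))) *
              lamzI z (σ * (n : ℤ) + (a + (DD b ν' : ℤ))))) / R ^ 2 := by
        intro n _
        rw [hFF n, div_pow, sq (∑ ν : Fin r → Fin Y, _), sum_mul_sum, mul_div_assoc', mul_sum]
        simp only [mul_sum]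
      rw [sum_congr rfl f1, ← sum_div, sum_comm, hA2]
      congr 1
      refine sum_congr rfl fun ν _ => ?_
      rw [sum_comm]
      refine sum_congr rfl fun ν' _ => ?_
      rw [sum2 (hposD ν) (hposD ν'), hVd]
    have e1 : ∑ n ∈ Icc 1 X, ArithmeticFunction.vonMangoldt n *
        FF b r Y z (σ * (n : ℤ) + a) = A1 / R := by
      have f1 : ∀ n ∈ Icc 1 X, ArithmeticFunction.vonMangoldt n *
          FF b r Y z (σ * (n : ℤ) + a) = (∑ ν : Fin r → Fin Y,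
            ArithmeticFunction.vonMangoldt n *
              lamzI z (σ * (n : ℤ) + (a + (DD b ν : ℤ)))) / R := by
        intro n _
        rw [hFF n, mul_div_assoc', mul_sum]
      rw [sum_congr rfl f1, ← sum_div, sum_comm, hA1]
      congr 1
      refine sum_congr rfl fun ν _ => ?_
      rw [sum1 (hposD ν), hVd]
    rw [e0, e2, e1, sum0 hb hqz σ a, hA0, ← hPqd, ht]
  rw [hexp]
  refine fin_ineq (κ := κ) (e := e) (V := V) (L := L) (Pq := Pq) hX0 hPq hκ1 he0.le hV0 hV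
    hL1 hR ?_ ?_ ?_ ?_ hL2
  · -- the second moment
    have f1 : ∀ ν ν' : Fin r → Fin Y,
        V ^ 2 * SG X z (Q2 σ (a + (DD b ν : ℤ)) (a + (DD b ν' : ℤ))) ≤
        X * (Pq ^ 2 * κ) * ∏ p ∈ (pz z).filter (fun p => ¬ p ∣ b * (b - 1)),
          (1 + gF σ a p (DD b ν : ℤ) (DD b ν' : ℤ)) + V ^ 2 * (X / L ^ 3) := by
      intro ν ν'
      have g1 := (abs_le.1 (hS _ (Q2_PerA hσ (a + (DD b ν : ℤ)) (a + (DD b ν' : ℤ))))).2
      have g2 := main2 hq hqz (σ := σ) (hDt ν) (hDt ν')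
      rw [← hVd, ← hPqd, ← hκd] at g2
      have g3 := mul_le_mul_of_nonneg_left g1 (sq_nonneg V)
      have g4 : V ^ 2 * (SG X z (Q2 σ (a + (DD b ν : ℤ)) (a + (DD b ν' : ℤ))) -
          X * ∏ p ∈ pz z, (1 - (rhoA (Q2 σ (a + (DD b ν : ℤ)) (a + (DD b ν' : ℤ))) p : ℝ) /
            (p - 1 : ℝ))) = V ^ 2 * SG X z (Q2 σ (a + (DD b ν : ℤ)) (a + (DD b ν' : ℤ))) -
          X * (V ^ 2 * ∏ p ∈ pz z, (1 - (rhoA (Q2 σ (a + (DD b ν : ℤ)) (a + (DD b ν' : ℤ))) p :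
            ℝ) / (p - 1 : ℝ))) := by ring
      rw [g4, g2] at g3
      linarith
    rw [hA2]
    have f2 : ∑ ν : Fin r → Fin Y, ∑ ν' : Fin r → Fin Y,
        V ^ 2 * SG X z (Q2 σ (a + (DD b ν : ℤ)) (a + (DD b ν' : ℤ))) ≤
        ∑ ν : Fin r → Fin Y, ∑ ν' : Fin r → Fin Y,
        (X * (Pq ^ 2 * κ) * ∏ p ∈ (pz z).filter (fun p => ¬ p ∣ b * (b - 1)),
          (1 + gF σ a p (DD b ν : ℤ) (DD b ν' : ℤ)) + V ^ 2 * (X / L ^ 3)) :=
      sum_le_sum fun ν _ => sum_le_sum fun ν' _ => f1 ν ν'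
    refine f2.trans ?_
    simp only [sum_add_distrib, ← mul_sum, sum_const, nsmul_eq_mul, card_fun]
    rw [← hRd]
    have f3 : ∑ ν : Fin r → Fin Y, ∑ ν' : Fin r → Fin Y,
        ∏ p ∈ (pz z).filter (fun p => ¬ p ∣ b * (b - 1)),
          (1 + gF σ a p (DD b ν : ℤ) (DD b ν' : ℤ)) ≤ (1 + e) * R ^ 2 := by linarith [hg.2]
    have f4 := mul_le_mul_of_nonneg_left f3 (by positivity : 0 ≤ (X : ℝ) * (Pq ^ 2 * κ))
    have f5 : V ^ 2 * (R * (R * (X / L ^ 3))) = R ^ 2 * (V ^ 2 * (X / L ^ 3)) := by ring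
    rw [f5]
    linarith
  · -- the first moment
    have f1 : ∀ ν : Fin r → Fin Y,
        X * (Pq * κ) * ∏ p ∈ (pz z).filter (fun p => ¬ p ∣ b * (b - 1)),
          (1 + hF σ a p (DD b ν : ℤ) (DD b ν : ℤ)) - V * (X / L ^ 3) ≤
        V * SG X z (Q2 σ (a + (DD b ν : ℤ)) (a + (DD b ν : ℤ))) := by
      intro ν
      have g1 := (abs_le.1 (hS _ (Q2_PerA hσ (a + (DD b ν : ℤ)) (a + (DD b ν : ℤ))))).1
      have g2 := main1 hq hqz (σ := σ) (hDt ν) (DD b ν : ℤ)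
      rw [← hVd, ← hPqd, ← hκd] at g2
      have g3 := mul_le_mul_of_nonneg_left g1 hV0
      have g4 : V * (SG X z (Q2 σ (a + (DD b ν : ℤ)) (a + (DD b ν : ℤ))) -
          X * ∏ p ∈ pz z, (1 - (rhoA (Q2 σ (a + (DD b ν : ℤ)) (a + (DD b ν : ℤ))) p : ℝ) /
            (p - 1 : ℝ))) = V * SG X z (Q2 σ (a + (DD b ν : ℤ)) (a + (DD b ν : ℤ))) -
          X * (V * ∏ p ∈ pz z, (1 - (rhoA (Q2 σ (a + (DD b ν : ℤ)) (a + (DD b ν : ℤ))) p :
            ℝ) / (p - 1 : ℝ))) := by ring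
      rw [g4, g2] at g3
      linarith
    rw [hA1]
    have f2 : ∑ ν : Fin r → Fin Y,
        (X * (Pq * κ) * ∏ p ∈ (pz z).filter (fun p => ¬ p ∣ b * (b - 1)),
          (1 + hF σ a p (DD b ν : ℤ) (DD b ν : ℤ)) - V * (X / L ^ 3)) ≤
        ∑ ν : Fin r → Fin Y,
          V * SG X z (Q2 σ (a + (DD b ν : ℤ)) (a + (DD b ν : ℤ))) :=
      sum_le_sum fun ν _ => f1 ν
    refine le_trans ?_ f2
    rw [sum_sub_distrib, ← mul_sum, sum_const, nsmul_eq_mul, card_fun, ← hRd]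
    have f3 : ∑ ν : Fin r → Fin Y, ∑ ν' : Fin r → Fin Y,
        ∏ p ∈ (pz z).filter (fun p => ¬ p ∣ b * (b - 1)),
          (1 + hF σ a p (DD b ν : ℤ) (DD b ν' : ℤ)) =
        R * ∑ ν : Fin r → Fin Y, ∏ p ∈ (pz z).filter (fun p => ¬ p ∣ b * (b - 1)),
          (1 + hF σ a p (DD b ν : ℤ) (DD b ν : ℤ)) := by
      rw [mul_sum]
      refine sum_congr rfl fun ν _ => ?_
      unfold hF
      rw [sum_const, nsmul_eq_mul, card_fun, ← hRd]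
    rw [f3] at hh
    have f4 : (1 - e) * R ≤ ∑ ν : Fin r → Fin Y,
        ∏ p ∈ (pz z).filter (fun p => ¬ p ∣ b * (b - 1)),
          (1 + hF σ a p (DD b ν : ℤ) (DD b ν : ℤ)) := by
      have g1 := hh.1
      have g2 : R * ((1 - e) * R) ≤ R * ∑ ν : Fin r → Fin Y,
        ∏ p ∈ (pz z).filter (fun p => ¬ p ∣ b * (b - 1)),
          (1 + hF σ a p (DD b ν : ℤ) (DD b ν : ℤ)) := by
        have : R * ((1 - e) * R) = R ^ 2 - e * R ^ 2 := by ring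
        rw [this]
        linarith
      exact le_of_mul_le_mul_left g2 hR
    have f5 := mul_le_mul_of_nonneg_left f4 (by positivity : 0 ≤ (X : ℝ) * (Pq * κ))
    linarith
  · -- the local part
    have g1 := (abs_le.1 (hS _ (Q0_PerA (q := b * (b - 1)) hσ t))).2
    rw [main0 hq hqz, ← hκd] at g1
    rw [hA0]
    exact mul_le_mul_of_nonneg_left (by linarith) (sq_nonneg _)
  · rw [he]
    have : 6 * Pq ^ 2 * (η / (6 * Pq ^ 2)) = η := by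
      field_simp
    rw [this]

end Pool.Agent.Y820.LD
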