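import Pool.Agent.Y820.LF.Stm

set_option autoImplicit false

/-!
# Project LD (helper820): prime tuples in dense sets after adding a bounded number of powers of `b`

Definitions and the exact statements of the tasks.
-/

namespace Pool.Agent.Y820.LD
open Finset
open Pool.Agent.H373R2.T7 (lamI lamzI lamz Vz pz)

/-- the sum of `r` powers of `b` with exponents in `[1, Y]` -/
def DD (b : ℕ) {r Y : ℕ} (ν : Fin r → Fin Y) : ℕ := ∑ j, b ^ ((ν j : ℕ) + 1)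

/-- the local factors of a pair with the difference `δ` at the primes up to `z` not dividing `q` -/
noncomputable def loc (q z : ℕ) (δ : ℤ) : ℝ := ∏ p ∈ (pz z).filter (fun p => ¬ p ∣ q),
  (if (p : ℤ) ∣ δ then (1 - 1 / (p : ℝ))⁻¹ else (1 - 2 / (p : ℝ)) / (1 - 1 / (p : ℝ)) ^ 2)

/-- LD-R: the mean value of the local factors at the differences of the sums is at most `1 + η` -/
def S_Rom : Prop := ∀ b : ℕ, 2 ≤ b → ∀ E : ℕ, ∀ η : ℝ, 0 < η → ∃ r0 : ℕ, ∀ r : ℕ, r0 ≤ r → ∃ Y0 : ℕ, ∀ Y : ℕ, Y0 ≤ Y →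
  ∀ z : ℕ, (z : ℝ) ≤ (Y : ℝ) ^ E →
  ∑ ν : Fin r → Fin Y, ∑ ν' : Fin r → Fin Y, loc (b * (b - 1)) z ((DD b ν : ℤ) - (DD b ν' : ℤ)) ≤ (1 + η) * ((Y : ℝ) ^ r) ^ 2

/-- the mean values of the model over the sums -/
noncomputable def FF (b r Y z : ℕ) (m : ℤ) : ℝ := (∑ ν : Fin r → Fin Y, lamzI z (m + (DD b ν : ℤ))) / (Y : ℝ) ^ r

/-- their local parts at the primes dividing `b (b - 1)` -/
noncomputable def Phi (b r : ℕ) (m : ℤ) : ℝ :=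
  if Int.gcd (m + ((r * b : ℕ) : ℤ)) ((b * (b - 1) : ℕ) : ℤ) = 1 then ∏ p ∈ (b * (b - 1)).primeFactors, (1 - 1 / (p : ℝ))⁻¹ else 0

/-- LD-T: the mean values of the model are close to their local parts in mean square -/
def S_Two : Prop := ∀ b : ℕ, 2 ≤ b → ∀ E : ℕ, ∀ η : ℝ, 0 < η → ∃ r0 : ℕ, ∀ r : ℕ, r0 ≤ r → ∃ X0 : ℕ, ∀ X : ℕ, X0 ≤ X →
  ∀ Y z : ℕ, Real.log X ≤ b * Y → b * (b - 1) ≤ z → (z : ℝ) ≤ Real.log X ^ E → ∀ a : ℕ,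
  ∑ n ∈ Icc 1 X, (FF b r Y z ((n : ℤ) + (a : ℤ)) - Phi b r ((n : ℤ) + (a : ℤ))) ^ 2 ≤ η * X

/-- LD-V: from the weighted sum to the number of the prime values -/
def S_tr2 : Prop := ∀ s B : ℕ, ∀ c : ℝ, 0 < c → ∃ X0 : ℕ, ∀ X : ℕ, X0 ≤ X → ∀ A ⊆ Icc 1 X, ∀ h : Fin s → ℕ, (∀ i, h i ≤ B * X) →
  c * X ≤ ∑ n ∈ A, ∏ i, ArithmeticFunction.vonMangoldt (n + h i) →
  c / 2 ^ (s + 1) * (X / Real.log X ^ s) ≤ ((A.filter (fun n => ∀ i, (n + h i).Prime)).card : ℝ)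

end Pool.Agent.Y820.LD
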