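import Mathlib
import Pool.Agent.Y820.LD.Stm

set_option autoImplicit false

/-!
# LD-V (helper77 for helper820): from the weighted sum to the number of the prime values
-/

namespace Pool.Agent.Y820.LD.V77
open Finset

/-- the contribution of the proper prime powers -/
theorem pp_sum (A : Finset ℕ) (W h : ℕ) (hW : 1 ≤ W) (hA : ∀ n ∈ A, 1 ≤ n ∧ n + h ≤ W) :
    ∑ n ∈ A, (if (n + h).Prime then 0 else ArithmeticFunction.vonMangoldt (n + h)) ≤
      2 * √(W : ℝ) * Real.log W := by
  have h0 := Chebyshev.psi_sub_theta_le (x := (W : ℝ)) (by exact_mod_cast hW)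
  rw [Chebyshev.psi_sub_theta_eq_sum_not_prime, Nat.floor_natCast] at h0
  refine le_trans ?_ h0
  have h1 : ∀ n ∈ A, (if (n + h).Prime then 0 else ArithmeticFunction.vonMangoldt (n + h)) =
      if ¬ (n + h).Prime then ArithmeticFunction.vonMangoldt (n + h) else (0 : ℝ) := by
    intro n _
    by_cases h2 : (n + h).Prime
    · rw [if_pos h2, if_neg (fun h3 => h3 h2)]
    · rw [if_neg h2, if_pos h2]
  rw [sum_congr rfl h1, ← sum_filter]
  have h2 : ∑ n ∈ A.filter (fun n : ℕ => ¬ (n + h).Prime), ArithmeticFunction.vonMangoldt (n + h) =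
      ∑ j ∈ (A.filter (fun n : ℕ => ¬ (n + h).Prime)).image (fun n : ℕ => n + h),
        ArithmeticFunction.vonMangoldt j := by
    rw [sum_image]
    intro n _ m _ hnm
    exact Nat.add_right_cancel hnm
  rw [h2]
  apply sum_le_sum_of_subset_of_nonneg
  · intro j hj
    rw [mem_image] at hj
    obtain ⟨n, hn, rfl⟩ := hj
    rw [mem_filter] at hn
    have h3 := hA n hn.1
    rw [mem_filter, mem_Ioc]
    exact ⟨⟨by omega, h3.2⟩, hn.2⟩
  · intro _ _ _
    exact ArithmeticFunction.vonMangoldt_nonneg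

/-- the products of the von Mangoldt functions -/
theorem prod_le' {s : ℕ} (v : Fin s → ℕ) (L : ℝ) (hL : 1 ≤ L)
    (hv : ∀ i, ArithmeticFunction.vonMangoldt (v i) ≤ L) :
    ∏ i, ArithmeticFunction.vonMangoldt (v i) ≤ L ^ s * (if ∀ i, (v i).Prime then 1 else 0) +
      L ^ s * ∑ i, (if (v i).Prime then 0 else ArithmeticFunction.vonMangoldt (v i)) := by
  have hL0 : 0 ≤ L := by linarith
  have hnn : ∀ i, 0 ≤ ArithmeticFunction.vonMangoldt (v i) := fun i =>
    ArithmeticFunction.vonMangoldt_nonneg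
  have hr : ∀ i, 0 ≤ (if (v i).Prime then 0 else ArithmeticFunction.vonMangoldt (v i)) := by
    intro i
    split_ifs
    · exact le_rfl
    · exact hnn i
  by_cases h : ∀ i, (v i).Prime
  · rw [if_pos h, mul_one]
    have h1 : ∏ i, ArithmeticFunction.vonMangoldt (v i) ≤ L ^ s := by
      calc _ ≤ ∏ _i : Fin s, L := prod_le_prod (fun i _ => hnn i) fun i _ => hv i
        _ = L ^ s := by rw [prod_const, card_univ, Fintype.card_fin]
    have h2 := mul_nonneg (pow_nonneg hL0 s) (sum_nonneg fun i (_ : i ∈ (univ : Finset (Fin s))) => hr i)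
    linarith
  · rw [if_neg h, mul_zero, zero_add]
    push Not at h
    obtain ⟨i, hi⟩ := h
    have h1 : ArithmeticFunction.vonMangoldt (v i) ≤
        ∑ i, (if (v i).Prime then 0 else ArithmeticFunction.vonMangoldt (v i)) := by
      have := single_le_sum (fun i (_ : i ∈ (univ : Finset (Fin s))) => hr i) (mem_univ i)
      rwa [if_neg hi] at this
    have h2 : ∏ i, ArithmeticFunction.vonMangoldt (v i) ≤
        L ^ s * ArithmeticFunction.vonMangoldt (v i) := by
      rw [← mul_prod_erase univ _ (mem_univ i), mul_comm]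
      refine mul_le_mul_of_nonneg_right ?_ (hnn i)
      calc ∏ j ∈ univ.erase i, ArithmeticFunction.vonMangoldt (v j)
          ≤ ∏ _j ∈ univ.erase i, L := prod_le_prod (fun i _ => hnn i) fun i _ => hv i
        _ = L ^ (univ.erase i).card := by rw [prod_const]
        _ ≤ L ^ s := by
            refine pow_le_pow_right₀ hL ?_
            calc (univ.erase i).card ≤ (univ : Finset (Fin s)).card := card_le_card (erase_subset _ _)
              _ = s := by rw [card_univ, Fintype.card_fin]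
    exact h2.trans (mul_le_mul_of_nonneg_left h1 (pow_nonneg hL0 s))

theorem tr2 : ∀ s B : ℕ, ∀ c : ℝ, 0 < c → ∃ X0 : ℕ, ∀ X : ℕ, X0 ≤ X → ∀ A ⊆ Icc 1 X,
    ∀ h : Fin s → ℕ, (∀ i, h i ≤ B * X) →
    c * X ≤ ∑ n ∈ A, ∏ i, ArithmeticFunction.vonMangoldt (n + h i) →
    c / 2 ^ (s + 1) * (X / Real.log X ^ s) ≤
      ((A.filter (fun n => ∀ i, (n + h i).Prime)).card : ℝ) := by
  intro s B c hc
  have hlim : Filter.Tendsto (fun n : ℕ => (n : ℝ)) Filter.atTop Filter.atTop :=
    tendsto_natCast_atTop_atTop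
  set K : ℝ := s * (2 ^ (s + 1) * (2 * √((B : ℝ) + 1))) + 1 with hK
  have hK0 : 0 < K := by positivity
  have h2 : ∀ᶠ n : ℕ in Filter.atTop, K * Real.log n ^ (s + 1) ≤ c / 2 * √(n : ℝ) := by
    have h := (isLittleO_log_rpow_rpow_atTop ((s + 1 : ℕ) : ℝ) (show (0 : ℝ) < 1 / 2 by norm_num)).bound
      (show 0 < c / 2 / K by positivity)
    filter_upwards [hlim.eventually h, hlim.eventually_ge_atTop 1] with n hn hn1
    have h0 : 0 ≤ Real.log (n : ℝ) := Real.log_nonneg hn1
    rw [Real.norm_of_nonneg (by positivity), Real.norm_of_nonneg (by positivity), Real.rpow_natCast,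
      ← Real.sqrt_eq_rpow] at hn
    calc K * Real.log n ^ (s + 1) ≤ K * (c / 2 / K * √(n : ℝ)) :=
          mul_le_mul_of_nonneg_left hn hK0.le
      _ = c / 2 * √(n : ℝ) := by field_simp
  obtain ⟨n1, hn1⟩ := Filter.eventually_atTop.1 h2
  refine ⟨max n1 (max (B + 1) 3), fun X hX A hA h hh hsum => ?_⟩
  have b1 := hn1 X ((le_max_left _ _).trans hX)
  have hXB : B + 1 ≤ X := ((le_max_left _ _).trans (le_max_right _ _)).trans hX
  have hX3 : 3 ≤ X := ((le_max_right _ _).trans (le_max_right _ _)).trans hX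
  have hX3r : (3 : ℝ) ≤ X := by exact_mod_cast hX3
  have hX0 : (0 : ℝ) < X := by linarith
  have hBr : (0 : ℝ) < (B : ℝ) + 1 := by positivity
  obtain ⟨W, hW⟩ : ∃ W : ℕ, W = (B + 1) * X := ⟨_, rfl⟩
  have hWr : (W : ℝ) = ((B : ℝ) + 1) * X := by rw [hW]; push_cast; ring
  have hWX : X ≤ W := by rw [hW]; exact Nat.le_mul_of_pos_left _ (by omega)
  have hW1 : 1 ≤ W := by omega
  have hlX : 1 < Real.log X := by
    rw [Real.lt_log_iff_exp_lt hX0]
    have := Real.exp_one_lt_d9
    linarith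
  have hlW : Real.log X ≤ Real.log W := Real.log_le_log hX0 (by exact_mod_cast hWX)
  have hlW1 : 1 ≤ Real.log W := by linarith
  have hlW2 : Real.log W ≤ 2 * Real.log X := by
    rw [hWr, Real.log_mul hBr.ne' hX0.ne']
    have : Real.log ((B : ℝ) + 1) ≤ Real.log X := Real.log_le_log hBr (by exact_mod_cast hXB)
    linarith
  have hval : ∀ n ∈ A, ∀ i, 1 ≤ n ∧ n + h i ≤ W := by
    intro n hn i
    have h3 := mem_Icc.1 (hA hn)
    have h4 := hh i
    refine ⟨h3.1, ?_⟩
    rw [hW, add_mul, one_mul]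
    omega
  have hlam : ∀ n ∈ A, ∀ i, ArithmeticFunction.vonMangoldt (n + h i) ≤ Real.log W := by
    intro n hn i
    have h3 := hval n hn i
    refine ArithmeticFunction.vonMangoldt_le_log.trans ?_
    have h5 : (0 : ℝ) < ((n + h i : ℕ) : ℝ) := by
      have : 0 < n + h i := by omega
      exact_mod_cast this
    exact Real.log_le_log h5 (by exact_mod_cast h3.2)
  set P : ℝ := ((A.filter (fun n => ∀ i, (n + h i).Prime)).card : ℝ) with hP
  have hP0 : 0 ≤ P := Nat.cast_nonneg _
  have key : ∑ n ∈ A, ∏ i, ArithmeticFunction.vonMangoldt (n + h i) ≤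
      Real.log W ^ s * P + Real.log W ^ s * (s * (2 * √(W : ℝ) * Real.log W)) := by
    calc _ ≤ ∑ n ∈ A, (Real.log W ^ s * (if ∀ i, (n + h i).Prime then 1 else 0) +
          Real.log W ^ s * ∑ i, (if (n + h i).Prime then 0 else
            ArithmeticFunction.vonMangoldt (n + h i))) :=
          sum_le_sum fun n hn => prod_le' (fun i => n + h i) _ hlW1 (hlam n hn)
      _ = Real.log W ^ s * P + Real.log W ^ s * ∑ i, ∑ n ∈ A, (if (n + h i).Prime then 0 else
            ArithmeticFunction.vonMangoldt (n + h i)) := by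
          rw [sum_add_distrib, ← mul_sum, ← mul_sum, sum_comm (s := A)]
          congr 2
          rw [← sum_filter, sum_const, nsmul_eq_mul, mul_one]
      _ ≤ Real.log W ^ s * P + Real.log W ^ s * ∑ _i : Fin s, (2 * √(W : ℝ) * Real.log W) := by
          refine add_le_add le_rfl (mul_le_mul_of_nonneg_left ?_ (by positivity))
          exact sum_le_sum fun i _ => pp_sum A W (h i) hW1 fun n hn => hval n hn i
      _ = _ := by rw [sum_const, card_univ, Fintype.card_fin, nsmul_eq_mul]
  have herr : Real.log W ^ s * (s * (2 * √(W : ℝ) * Real.log W)) ≤ c / 2 * X := by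
    have e1 : √(W : ℝ) = √((B : ℝ) + 1) * √(X : ℝ) := by rw [hWr, Real.sqrt_mul hBr.le]
    have e2 : √(X : ℝ) * √(X : ℝ) = X := Real.mul_self_sqrt hX0.le
    have e3 : Real.log W ^ s ≤ (2 * Real.log X) ^ s := pow_le_pow_left₀ (by linarith) hlW2 _
    have hsq := Real.sqrt_nonneg (X : ℝ)
    calc Real.log W ^ s * (s * (2 * √(W : ℝ) * Real.log W))
        ≤ (2 * Real.log X) ^ s * (s * (2 * √(W : ℝ) * (2 * Real.log X))) := by gcongr
      _ = (s * (2 ^ (s + 1) * (2 * √((B : ℝ) + 1))) * Real.log X ^ (s + 1)) * √(X : ℝ) := by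
          rw [e1, mul_pow, pow_succ, pow_succ]
          ring
      _ ≤ (K * Real.log X ^ (s + 1)) * √(X : ℝ) := by
          refine mul_le_mul_of_nonneg_right (mul_le_mul_of_nonneg_right ?_ (by positivity)) hsq
          rw [hK]
          linarith
      _ ≤ (c / 2 * √(X : ℝ)) * √(X : ℝ) := mul_le_mul_of_nonneg_right b1 hsq
      _ = c / 2 * X := by rw [mul_assoc, e2]
  have hfin : c / 2 * X ≤ (2 * Real.log X) ^ s * P := by
    have h5 : c / 2 * X ≤ Real.log W ^ s * P := by linarith
    exact h5.trans (mul_le_mul_of_nonneg_right (pow_le_pow_left₀ (by linarith) hlW2 _) hP0)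
  have hLs : 0 < Real.log X ^ s := by positivity
  rw [mul_pow] at hfin
  rw [← mul_div_assoc, div_le_iff₀ hLs, pow_succ]
  have h2s : (0 : ℝ) < 2 ^ s := by positivity
  have e5 : c / (2 ^ s * 2) * X = (c / 2 * X) / 2 ^ s := by
    field_simp
  rw [e5, div_le_iff₀ h2s]
  linarith

end Pool.Agent.Y820.LD.V77

namespace Pool.Agent.Y820.LD

/-- LD-V -/
theorem t_tr2 : S_tr2 := V77.tr2

end Pool.Agent.Y820.LD
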