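import Pool.Agent.Y820.LD.Stm

set_option autoImplicit false

/-! Project LD: one more statement. -/

namespace Pool.Agent.Y820.LD
open Finset

/-- LD-V2: from the weighted sum to the number of the prime values, for the forms `h i - n` -/
def S_tr2m : Prop := ∀ s B : ℕ, ∀ c : ℝ, 0 < c → ∃ X0 : ℕ, ∀ X : ℕ, X0 ≤ X → ∀ A ⊆ Icc 1 X, ∀ h : Fin s → ℕ,
  (∀ i, X < h i ∧ h i ≤ B * X) →
  c * X ≤ ∑ n ∈ A, ArithmeticFunction.vonMangoldt n * ∏ i, ArithmeticFunction.vonMangoldt (h i - n) →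
  c / 2 ^ (s + 2) * (X / Real.log X ^ (s + 1)) ≤ ((A.filter (fun n => n.Prime ∧ ∀ i, (h i - n).Prime)).card : ℝ)

end Pool.Agent.Y820.LD
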