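import Pool.Agent.Y820.LL.A
import Pool.Agent.Y820.LD.Stm

set_option autoImplicit false

/-! The averaged bound for the weighted difference of the primes and the model. -/

namespace Pool.Agent.Y820.LD
open Finset
open Pool.Agent.H373R2.T7 (lamI lamzI lamz Vz Vz_pos Vz_inv_small lamI_nonneg lamzI_nonneg)
open Pool.Agent.W93.HD (gg one_le_gg)
open Pool.Agent.W93.DG (hh logX hh_small)
open Pool.Agent.TH894.SM (dl Om Pos)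
open Pool.Agent.Y820.LT (S_R S_P w wc w_nonneg wc_nonneg wc_le w_zero w_le Ch shf PP gam gam_le Blk shf_upd shf_upd_ne upd_sum gram shift_sum
  Gc PC PC_eq Gc_supp telescope icc_cast)
open Pool.Agent.Y820.LF (S_SBF Fj Fj_nonneg Fj_supp Fj_upd UU dil_sum mom g0 f0)
open Pool.Agent.Y820.LL (Al UL UL_eq UL_le supp_l)

section
variable {s t t' : ℕ} (θ : ℤ → ℝ) (τ0 : Bool) (b z Y N : ℕ) (e : Fin s → ℕ → ℤ) (q h : Fin s → ℤ) (j : Fin s)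

/-- the weighted correlation sums -/
noncomputable def DT (x : Fin s → Ch t t') : ℝ :=
  ∑ n ∈ Icc (1 : ℤ) N, θ n * Fj τ0 b z Y N e q h j x n * Gc z Y (q j * n + shf b e h x j)

lemma DT_upd (hqj : q j ≠ 0) (x : Fin s → Ch t t')
    (ω : Fin 3 × Fin t → ℕ) (c : Fin t' → ℕ) (I : ℤ) (hI : |gam b (e j) c| + |q j| * N ≤ I) :
    DT θ τ0 b z Y N e q h j (Function.update x j (ω, c)) =
      ∑ m ∈ Icc (-I) I, Al θ τ0 b z Y N e q h j x c m * Gc z Y (m + (h j + gam b (e j) ω)) := by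
  unfold DT Al
  rw [dil_sum (fun n => θ n * Fj τ0 b z Y N e q h j x n) (fun m => Gc z Y (m + (h j + gam b (e j) ω))) N
    (supp_l θ τ0 b z Y N e q h j x) (q j) (gam b (e j) c) I hqj hI]
  apply sum_congr rfl
  intro n _
  rw [Fj_upd, shf_upd]
  congr 2
  ring

end

/-- the telescoping sum -/
lemma teleT {s t t' : ℕ} (θ : ℤ → ℝ) (τ0 : Bool) (b z Y N : ℕ) (e : Fin s → ℕ → ℤ) (q h : Fin s → ℤ) (x : Fin s → Ch t t')
    (hY : ∀ n : ℕ, n ∈ Icc 1 N → ∀ i, q i * (n : ℤ) + shf b e h x i ≤ Y) :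
    ∑ n ∈ Icc 1 N, θ (n : ℤ) * (g0 τ0 n *
        (∏ i, lamI (q i * (n : ℤ) + shf b e h x i) - ∏ i, lamzI z (q i * (n : ℤ) + shf b e h x i))) = ∑ j, DT θ τ0 b z Y N e q h j x := by
  classical
  have h1 : ∀ n ∈ Icc 1 N, θ (n : ℤ) * (g0 τ0 n *
        (∏ i, lamI (q i * (n : ℤ) + shf b e h x i) - ∏ i, lamzI z (q i * (n : ℤ) + shf b e h x i))) =
      ∑ j, θ (n : ℤ) * Fj τ0 b z Y N e q h j x (n : ℤ) * Gc z Y (q j * (n : ℤ) + shf b e h x j) := by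
    intro n hn
    rw [telescope, mul_sum, mul_sum]
    apply sum_congr rfl
    intro j _
    unfold Fj Gc f0
    have hn' := mem_Icc.1 hn
    rw [if_pos (⟨by omega, by omega⟩ : (1 : ℤ) ≤ n ∧ (n : ℤ) ≤ N), if_pos (hY n hn j)]
    have h2 : (if τ0 = true then w z true (n : ℤ) else 1) = g0 τ0 n := by
      unfold g0
      congr 1
      unfold w lamI
      rw [if_pos rfl, if_pos (by omega : (1 : ℤ) ≤ n), Int.toNat_natCast]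
    have h3 : ∏ i ∈ univ.erase j, (if j < i then lamI (q i * (n : ℤ) + shf b e h x i) else lamzI z (q i * (n : ℤ) + shf b e h x i)) =
        ∏ i ∈ univ.erase j, wc z Y (decide (j < i)) (q i * (n : ℤ) + shf b e h x i) := by
      apply prod_congr rfl
      intro i _
      unfold wc w
      rw [if_pos (hY n hn i)]
      simp only [decide_eq_true_eq]
    rw [h2, h3]
    ring
  rw [sum_congr rfl h1, icc_cast (fun n => ∑ j, θ n * Fj τ0 b z Y N e q h j x n * Gc z Y (q j * n + shf b e h x j)) N, sum_comm]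
  rfl

theorem avgT (hSB : S_SBF) (hR : S_R) (hP : S_P) (b : ℕ) (hb : 2 ≤ b) : ∃ R A B : ℕ, 1 ≤ R ∧ 3 ≤ A ∧
    ∀ s t' R' Ez Q0 : ℕ, 4 * s + 1 ≤ t' → 1 ≤ Q0 → ∀ δ : ℝ, 0 < δ → ∃ t₀ : ℕ, ∀ t : ℕ, t₀ ≤ t →
    ∃ k₀ : ℕ, ∀ K : ℕ, k₀ ≤ K → ∀ θ : ℤ → ℝ, (∀ n, |θ n| ≤ 1) → ∀ z : ℕ, 2 ≤ z →
    Real.log ((b ^ K : ℕ) : ℝ) ^ B ≤ z → (z : ℝ) ≤ Real.log ((b ^ K : ℕ) : ℝ) ^ Ez →
    ∀ (τ0 : Bool) (q : Fin s → ℤ), (∀ i, q i ≠ 0 ∧ |q i| ≤ Q0) →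
    ∀ e : Fin s → ℕ → ℤ, (∀ i j, e i j ≠ 0 ∧ |e i j| < b) → ∀ J : Fin 3 → Finset ℕ, Pos b R K (hh b A K) J →
    ∀ J' : Fin t' → Finset ℕ, Blk K R' J' → ∀ h : Fin s → ℤ, (∀ i, |h i| ≤ ((b ^ K : ℕ) : ℤ)) → ∀ N : ℕ, N ≤ b ^ K → ∀ j : Fin s,
    ∑ x ∈ PP s (Om J t) (Fintype.piFinset J'), DT θ τ0 b z (b ^ K) N e q h j x ^ 2 ≤
      δ * ((b ^ K : ℕ) : ℝ) ^ 2 * (PP s (Om J t) (Fintype.piFinset J')).card := by
  classical
  obtain ⟨R, A, B, hR1, hA, hPc⟩ := hP b hb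
  refine ⟨R, A, B, hR1, hA, fun s t' R' Ez Q0 ht' hQ0 δ hδ => ?_⟩
  obtain ⟨C, hC, hmom⟩ := mom hSB hR b hb s t' R' Ez Q0 ht' hQ0
  obtain ⟨δ', hδ'⟩ : ∃ δ' : ℝ, δ' = δ ^ 2 / (C + 1) := ⟨_, rfl⟩
  have hδ'0 : 0 < δ' := by rw [hδ']; positivity
  obtain ⟨t₀, ht₀⟩ := hPc δ' hδ'0
  refine ⟨t₀, fun t ht => ?_⟩
  obtain ⟨k1, hk1⟩ := hmom t
  obtain ⟨k2, hk2⟩ := ht₀ t ht Ez
  obtain ⟨k3, hk3⟩ := hh_small b A 4 hb
  refine ⟨k1 + k2 + k3 + 8, fun K hK θ hθ z hz2 hzB hzE τ0 q hq e he J hJ J' hJ' h hh' N hN j => ?_⟩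
  have hm := hk1 K (by omega) z hz2 hzE τ0 q hq e he (Om J t) ?_ J' hJ' h hh' N hN j
  swap
  · intro ω hω c
    have h4 := hk3 K (by omega)
    unfold Om at hω
    rw [Fintype.mem_piFinset] at hω
    have h5 := hω c
    obtain ⟨u, cc⟩ := c
    simp only at h5
    fin_cases u
    · have := mem_Ico.1 (hJ.s0 h5)
      simp only at this ⊢
      omega
    · have := mem_Ico.1 (hJ.s1 h5)
      simp only at this ⊢
      omega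
    · have := mem_Ico.1 (hJ.s2 h5)
      simp only at this ⊢
      omega
  have hp := hk2 K (by omega) z hzB hzE (e j) (he j) J hJ
  obtain ⟨Y, hY⟩ : ∃ Y, Y = b ^ K := ⟨_, rfl⟩
  rw [← hY] at hm hp hh' hN ⊢
  obtain ⟨Ω, hΩ⟩ : ∃ Ω, Ω = Om J t := ⟨_, rfl⟩
  obtain ⟨Cs, hCs⟩ : ∃ Cs, Cs = Fintype.piFinset J' := ⟨_, rfl⟩
  rw [← hΩ] at hm hp ⊢
  rw [← hCs] at hm ⊢
  -- the average over the coordinate
  have hup := upd_sum (fun _ : Fin s => Ω ×ˢ Cs) j (fun x => DT θ τ0 b z Y N e q h j x ^ 2)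
  obtain ⟨I, hI⟩ : ∃ I : ℤ, (∀ ω ∈ Ω, |h j + gam b (e j) ω| + Y ≤ I) ∧ (∀ c ∈ Cs, |gam b (e j) c| + |q j| * N ≤ I) := by
    refine ⟨∑ ω ∈ Ω, (|h j + gam b (e j) ω| + Y) + ∑ c ∈ Cs, (|gam b (e j) c| + |q j| * N), ?_, ?_⟩
    · intro ω hω
      have h1 := single_le_sum (f := fun ω => |h j + gam b (e j) ω| + (Y : ℤ)) (fun ω _ => by positivity) hω
      have h2 : 0 ≤ ∑ c ∈ Cs, (|gam b (e j) c| + |q j| * (N : ℤ)) := sum_nonneg fun c _ => by positivity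
      linarith
    · intro c hc
      have h1 := single_le_sum (f := fun c => |gam b (e j) c| + |q j| * (N : ℤ)) (fun c _ => by positivity) hc
      have h2 : 0 ≤ ∑ ω ∈ Ω, (|h j + gam b (e j) ω| + (Y : ℤ)) := sum_nonneg fun ω _ => by positivity
      linarith
  obtain ⟨hI1, hI2⟩ := hI
  -- the inequality of Cauchy and Schwarz for fixed other coordinates
  obtain ⟨Mx, hMx⟩ : ∃ Mx : (Fin s → Ch t t') → ℝ, Mx = fun x => ∑ c ∈ Cs, ∑ c' ∈ Cs,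
      UL θ τ0 b z Y N e q h j x (gam b (e j) c - gam b (e j) c') ^ 2 := ⟨_, rfl⟩
  obtain ⟨P, hPd⟩ : ∃ P : ℝ, P = ∑ ω ∈ Ω, ∑ ω' ∈ Ω, PC z Y (∑ c, dl b (e j) (ω' c) - ∑ c, dl b (e j) (ω c)) ^ 2 := ⟨_, rfl⟩
  rw [← hPd] at hp
  have hP0 : 0 ≤ P := by rw [hPd]; exact sum_nonneg fun ω _ => sum_nonneg fun ω' _ => sq_nonneg _
  have hfix : ∀ x ∈ PP s Ω Cs, (∑ y ∈ Ω ×ˢ Cs, DT θ τ0 b z Y N e q h j (Function.update x j y) ^ 2) ^ 2 ≤ Mx x * P := by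
    intro x hx
    rw [sum_product]
    have h1 : ∑ ω ∈ Ω, ∑ c ∈ Cs, DT θ τ0 b z Y N e q h j (Function.update x j (ω, c)) ^ 2 =
        ∑ ω ∈ Ω, ∑ c ∈ Cs, (∑ m ∈ Icc (-I) I, Al θ τ0 b z Y N e q h j x c m * Gc z Y (m + (h j + gam b (e j) ω))) ^ 2 := by
      apply sum_congr rfl
      intro ω _
      apply sum_congr rfl
      intro c hc
      rw [DT_upd θ τ0 b z Y N e q h j (hq j).1 x ω c I (hI2 c hc)]
    rw [h1]
    refine (gram (Icc (-I) I) Ω Cs (fun c m => Al θ τ0 b z Y N e q h j x c m)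
      (fun ω m => Gc z Y (m + (h j + gam b (e j) ω)))).trans (le_of_eq ?_)
    congr 1
    · rw [hMx]
      apply sum_congr rfl
      intro c hc
      apply sum_congr rfl
      intro c' _
      rw [UL_eq θ τ0 b z Y N e q h j (hq j).1 x c c' I (hI2 c hc)]
    · rw [hPd]
      apply sum_congr rfl
      intro ω hω
      apply sum_congr rfl
      intro ω' _
      rw [PC_eq b z Y (e j) (h j) ω ω' I (hI1 ω hω)]
  -- the sum over the other coordinates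
  have hMsum : ∑ x ∈ PP s Ω Cs, Mx x ≤ C * (Y : ℝ) ^ 2 * ((PP s Ω Cs).card * (Cs.card : ℝ) ^ 2) := by
    rw [hMx]
    refine le_trans (sum_le_sum fun x _ => sum_le_sum fun c _ => sum_le_sum fun c' _ => UL_le θ τ0 b z Y N e q h j hθ x _) hm
  obtain ⟨TT, hTT⟩ : ∃ TT : (Fin s → Ch t t') → ℝ, TT = fun x => ∑ y ∈ Ω ×ˢ Cs, DT θ τ0 b z Y N e q h j (Function.update x j y) ^ 2 := ⟨_, rfl⟩
  have hcs : (∑ x ∈ PP s Ω Cs, TT x) ^ 2 ≤ (PP s Ω Cs).card * ∑ x ∈ PP s Ω Cs, TT x ^ 2 := sq_sum_le_card_mul_sum_sq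
  have hsum2 : ∑ x ∈ PP s Ω Cs, TT x ^ 2 ≤ C * (Y : ℝ) ^ 2 * ((PP s Ω Cs).card * (Cs.card : ℝ) ^ 2) * (δ' * (Y : ℝ) ^ 2 * (Ω.card : ℝ) ^ 2) := by
    calc ∑ x ∈ PP s Ω Cs, TT x ^ 2 ≤ ∑ x ∈ PP s Ω Cs, Mx x * P := sum_le_sum fun x hx => by rw [hTT]; exact hfix x hx
      _ = (∑ x ∈ PP s Ω Cs, Mx x) * P := by rw [sum_mul]
      _ ≤ _ := mul_le_mul hMsum hp hP0 (by positivity)
  have hTeq : ∑ x ∈ PP s Ω Cs, TT x = (Ω.card * Cs.card : ℝ) * ∑ x ∈ PP s Ω Cs, DT θ τ0 b z Y N e q h j x ^ 2 := by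
    rw [hTT]
    unfold PP
    rw [hup, card_product, Nat.cast_mul]
  rcases (PP s Ω Cs).eq_empty_or_nonempty with hE | hE
  · rw [hE]; simp
  have hΩ0 : (0 : ℝ) < Ω.card := by
    rw [Nat.cast_pos, card_pos]
    obtain ⟨x, hx⟩ := hE
    unfold PP at hx
    rw [Fintype.mem_piFinset] at hx
    exact ⟨_, (mem_product.1 (hx j)).1⟩
  have hC0 : (0 : ℝ) < Cs.card := by
    rw [Nat.cast_pos, card_pos]
    obtain ⟨x, hx⟩ := hE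
    unfold PP at hx
    rw [Fintype.mem_piFinset] at hx
    exact ⟨_, (mem_product.1 (hx j)).2⟩
  obtain ⟨D, hD⟩ : ∃ D, D = ∑ x ∈ PP s Ω Cs, DT θ τ0 b z Y N e q h j x ^ 2 := ⟨_, rfl⟩
  rw [← hD] at hTeq ⊢
  have hD0 : 0 ≤ D := by rw [hD]; exact sum_nonneg fun x _ => sq_nonneg _
  rw [hTeq] at hcs
  have hfin : D ^ 2 ≤ (δ * (Y : ℝ) ^ 2 * (PP s Ω Cs).card) ^ 2 := by
    have h1 := hcs.trans (mul_le_mul_of_nonneg_left hsum2 (Nat.cast_nonneg _))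
    have h2 : C * δ' ≤ δ ^ 2 := by
      rw [hδ', ← mul_div_assoc, div_le_iff₀ (by positivity)]
      nlinarith [sq_nonneg δ]
    have h3 : ((Ω.card : ℝ) * Cs.card) ^ 2 * D ^ 2 ≤ ((Ω.card : ℝ) * Cs.card) ^ 2 * (δ * (Y : ℝ) ^ 2 * (PP s Ω Cs).card) ^ 2 := by
      calc ((Ω.card : ℝ) * Cs.card) ^ 2 * D ^ 2 = ((Ω.card : ℝ) * Cs.card * D) ^ 2 := by ring
        _ ≤ _ := h1
        _ = (C * δ') * (((Ω.card : ℝ) * Cs.card) ^ 2 * ((Y : ℝ) ^ 2 * (PP s Ω Cs).card) ^ 2) := by ring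
        _ ≤ δ ^ 2 * (((Ω.card : ℝ) * Cs.card) ^ 2 * ((Y : ℝ) ^ 2 * (PP s Ω Cs).card) ^ 2) :=
            mul_le_mul_of_nonneg_right h2 (by positivity)
        _ = _ := by ring
    exact le_of_mul_le_mul_left h3 (by positivity)
  exact (abs_le_of_sq_le_sq' hfin (by positivity)).2

end Pool.Agent.Y820.LD
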