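import Pool.Agent.Y820.LD.A
import Pool.Agent.Y820.LF.CF

set_option autoImplicit false

/-! The choice of the powers for a whole family. -/

namespace Pool.Agent.Y820.LD
open Finset
open Pool.Agent.H373R2.T7 (lamI lamzI lamz Vz Vz_pos Vz_inv_small lamI_nonneg lamzI_nonneg)
open Pool.Agent.W93.HD (gg one_le_gg)
open Pool.Agent.W93.DG (hh logX hh_small)
open Pool.Agent.TH894.SM (dl Om Pos)
open Pool.Agent.Y820.LT (S_R S_P par_z Ch shf PP gam gam_le Blk)
open Pool.Agent.Y820.LF (S_SBF g0 g0_nonneg par_K)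

/-- the sets of positions exist; the first and the last positions are not used -/
theorem blocks2 (b : ℕ) (hb : 2 ≤ b) (R A t' P₀ : ℕ) (hR : 1 ≤ R) (hA : 1 ≤ A) (hP : 1 ≤ P₀) : ∃ R' : ℕ, 1 ≤ R' ∧
    ∀ n P₁ : ℕ, ∃ k₀ : ℕ, ∀ K : ℕ, k₀ ≤ K →
    ∃ (J : Fin 3 → Finset ℕ) (J' : Fin t' → Finset ℕ), Pos b R K (hh b A K) J ∧ Blk K R' J' ∧
      (∀ q, J q ⊆ Ico P₀ (K - 1 - P₁)) ∧ (∀ m, J' m ⊆ Ico P₀ (K - 1 - P₁)) ∧ (∀ q m, Disjoint (J q) (J' m)) ∧
      (∀ q, n ≤ (J q).card) := by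
  obtain ⟨R', hR'⟩ : ∃ R', R' = 32 * R * (t' + 1) := ⟨_, rfl⟩
  have hR'1 : 1 ≤ R' := by
    rw [hR']
    exact Nat.one_le_iff_ne_zero.2 (by positivity)
  refine ⟨R', hR'1, fun n P₁ => ?_⟩
  obtain ⟨k1, hk1⟩ := hh_small b A 4 hb
  obtain ⟨k2, hk2⟩ := Pool.Agent.Y820.LT.hh_large b A hb hA (8 * R * P₀ + 8 * R * P₁ + n + P₀)
  refine ⟨k1 + k2 + 8 * (24 * R * t') + 8 * n + 32, fun K hK => ?_⟩
  have h4 := hk1 K (by omega)
  have hl := hk2 K (by omega)
  obtain ⟨h, hh'⟩ : ∃ h, h = hh b A K := ⟨_, rfl⟩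
  rw [← hh'] at h4 hl ⊢
  obtain ⟨w, hw⟩ : ∃ w, w = K / R' + 1 := ⟨_, rfl⟩
  have hwK : K ≤ R' * w := by
    rw [hw, mul_add, mul_one]
    have := Nat.div_add_mod K R'
    have := Nat.mod_lt K hR'1
    omega
  -- the total length of the blocks
  have htot : 8 * R * (t' * (w + 2)) + 2 + 2 * h + n ≤ K := by
    have e1 : 8 * R * (t' * (w + 2)) = 8 * R * t' * (K / R') + 24 * R * t' := by rw [hw]; ring
    have e2 : 4 * (8 * R * t' * (K / R')) ≤ K := by
      calc 4 * (8 * R * t' * (K / R')) = 32 * R * t' * (K / R') := by ring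
        _ ≤ R' * (K / R') := by
            apply Nat.mul_le_mul_right
            rw [hR']
            exact Nat.mul_le_mul_left _ (by omega)
        _ ≤ K := Nat.mul_div_le K R'
    omega
  have hRt : t' * (w + 2) ≤ 8 * R * (t' * (w + 2)) := by
    calc t' * (w + 2) = 1 * (t' * (w + 2)) := (one_mul _).symm
      _ ≤ _ := Nat.mul_le_mul_right _ (by omega)
  have hP8 : P₀ ≤ 8 * R * P₀ := by
    calc P₀ = 1 * P₀ := (one_mul _).symm
      _ ≤ _ := Nat.mul_le_mul_right _ (by omega)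
  have hP9 : P₁ ≤ 8 * R * P₁ := by
    calc P₁ = 1 * P₁ := (one_mul _).symm
      _ ≤ _ := Nat.mul_le_mul_right _ (by omega)
  have hblk : ∀ m : Fin t', m.val * (w + 2) + w ≤ t' * (w + 2) := by
    intro m
    have := m.2
    calc m.val * (w + 2) + w ≤ m.val * (w + 2) + (w + 2) := by omega
      _ = (m.val + 1) * (w + 2) := by ring
      _ ≤ t' * (w + 2) := Nat.mul_le_mul_right _ (by omega)
  refine ⟨fun q => if q = 0 then Ico P₀ (1 + h) else if q = 1 then Ico (1 + h + t' * (w + 2)) (K - 1 - h) else Ico (K - 1 - h) (K - 1 - P₁),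
    fun m => Ico (1 + h + m.val * (w + 2)) (1 + h + m.val * (w + 2) + w), ?_, ?_, ?_, ?_, ?_, ?_⟩
  · refine ⟨?_, ?_, ?_, ?_, ?_, ?_⟩
    · intro x hx
      simp only [if_true] at hx
      rw [mem_Ico] at hx ⊢
      omega
    · intro x hx
      simp only [one_ne_zero, if_false, if_true] at hx
      rw [mem_Ico] at hx ⊢
      omega
    · intro x hx
      have e1 : (2 : Fin 3) ≠ 0 := by decide
      have e2 : (2 : Fin 3) ≠ 1 := by decide
      simp only [e1, e2, if_false] at hx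
      rw [mem_Ico] at hx ⊢
      omega
    · simp only [if_true]
      have : (Ico 1 (1 + h) \ Ico P₀ (1 + h)).card ≤ P₀ := by
        refine (card_le_card (t := range P₀) ?_).trans (by rw [card_range])
        intro x hx
        rw [mem_sdiff, mem_Ico, mem_Ico] at hx
        rw [mem_range]
        omega
      calc 8 * R * _ ≤ 8 * R * P₀ := Nat.mul_le_mul_left _ this
        _ ≤ h := by omega
    · simp only [one_ne_zero, if_false, if_true]
      have : (Ico (1 + h) (K - 1 - h) \ Ico (1 + h + t' * (w + 2)) (K - 1 - h)).card ≤ t' * (w + 2) := by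
        refine (card_le_card (t := Ico (1 + h) (1 + h + t' * (w + 2))) ?_).trans (by rw [Nat.card_Ico]; omega)
        intro x hx
        rw [mem_sdiff, mem_Ico, mem_Ico] at hx
        rw [mem_Ico]
        omega
      calc 8 * R * _ ≤ 8 * R * (t' * (w + 2)) := Nat.mul_le_mul_left _ this
        _ ≤ K - 2 - 2 * h := by omega
    · have e1 : (2 : Fin 3) ≠ 0 := by decide
      have e2 : (2 : Fin 3) ≠ 1 := by decide
      simp only [e1, e2, if_false]
      have : (Ico (K - 1 - h) (K - 1) \ Ico (K - 1 - h) (K - 1 - P₁)).card ≤ P₁ := by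
        refine (card_le_card (t := Ico (K - 1 - P₁) (K - 1)) ?_).trans (by rw [Nat.card_Ico]; omega)
        intro x hx
        rw [mem_sdiff, mem_Ico, mem_Ico] at hx
        rw [mem_Ico]
        omega
      calc 8 * R * _ ≤ 8 * R * P₁ := Nat.mul_le_mul_left _ this
        _ ≤ h := by omega
  · refine ⟨?_, ?_, ?_⟩
    · intro m x hx
      have := hblk m
      rw [mem_Ico] at hx
      rw [mem_range]
      omega
    · intro m
      simp only [Nat.card_Ico, add_tsub_cancel_left]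
      exact hwK
    · intro m m' hmm j hj j' hj'
      rw [mem_Ico] at hj hj'
      have h5 : (m.val + 1) * (w + 2) ≤ m'.val * (w + 2) := Nat.mul_le_mul_right _ (by exact hmm)
      have h6 : (m.val + 1) * (w + 2) = m.val * (w + 2) + w + 2 := by ring
      omega
  · intro q x hx
    simp only at hx
    split_ifs at hx <;> rw [mem_Ico] at hx ⊢ <;> omega
  · intro m x hx
    have := hblk m
    rw [mem_Ico] at hx ⊢
    omega
  · intro q m
    rw [disjoint_left]
    intro x hx hx'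
    have := hblk m
    simp only at hx
    split_ifs at hx <;> rw [mem_Ico] at hx hx' <;> omega
  · intro q
    simp only
    split_ifs <;> rw [Nat.card_Ico] <;> omega

/-- the exponents of a choice -/
noncomputable def expL {s t t' : ℕ} (x : Fin s → Ch t t') (i : Fin s) : List ℕ :=
  ((univ : Finset (Fin 3 × Fin t)).toList.map (x i).1) ++ ((univ : Finset (Fin t')).toList.map (x i).2)

/-- the sum of the powers -/
def pows (b : ℕ) (L : List ℕ) : ℕ := (L.map (fun ν => b ^ ν)).sum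

lemma expL_len {s t t' : ℕ} (x : Fin s → Ch t t') (i : Fin s) : (expL x i).length = 3 * t + t' := by
  unfold expL
  rw [List.length_append, List.length_map, List.length_map, length_toList, length_toList, card_univ, card_univ, Fintype.card_prod,
    Fintype.card_fin, Fintype.card_fin, Fintype.card_fin]

lemma expL_sum {s t t' : ℕ} (b : ℕ) (h : Fin s → ℤ) (x : Fin s → Ch t t') (i : Fin s) :
    shf b (fun _ _ => 1) h x i = h i + (pows b (expL x i) : ℤ) := by
  unfold expL pows shf gam dl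
  rw [List.map_append, List.sum_append, List.map_map, List.map_map]
  have h1 : (List.map ((fun ν => b ^ ν) ∘ (x i).1) (univ : Finset (Fin 3 × Fin t)).toList).sum = ∑ c, b ^ ((x i).1 c) := by
    rw [← Finset.sum_map_toList]
    rfl
  have h2 : (List.map ((fun ν => b ^ ν) ∘ (x i).2) (univ : Finset (Fin t')).toList).sum = ∑ c, b ^ ((x i).2 c) := by
    rw [← Finset.sum_map_toList]
    rfl
  rw [h1, h2]
  push_cast
  simp only [one_mul]
  ring

theorem stageT (hSB : S_SBF) (hR : S_R) (hP : S_P) (b : ℕ) (hb : 2 ≤ b) (s : ℕ) (B : ℕ) (η θ' : ℝ) (hη : 0 < η) (hθ0 : 0 < θ') (hθ1 : θ' ≤ 1) :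
    ∃ E1 D X₀ : ℕ, 2 ≤ E1 ∧ ∀ X : ℕ, X₀ ≤ X → ∃ z : ℕ, 2 ≤ z ∧ Real.log X ^ E1 ≤ z ∧ (z : ℝ) ≤ Real.log X ^ (E1 + 1) ∧
    ∀ (τ0 : Bool) (θ : ℤ → ℝ), (∀ n, |θ n| ≤ 1) →
    ∀ (κ : Type) (T : Finset κ) (h : κ → Fin s → ℤ), (∀ g ∈ T, ∀ i, |h g i| ≤ (B : ℤ) * X) →
    ∃ L : Fin s → List ℕ, (∀ i, (L i).length = D) ∧ (∀ i, ∀ ν ∈ L i, 1 ≤ ν) ∧ (∀ i, (pows b (L i) : ℝ) ≤ θ' * X) ∧
      ∑ g ∈ T, |∑ n ∈ Icc 1 X, θ (n : ℤ) * (g0 τ0 n * (∏ i, lamI ((n : ℤ) + (h g i + (pows b (L i) : ℤ))) -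
        ∏ i, lamzI z ((n : ℤ) + (h g i + (pows b (L i) : ℤ)))))| ≤ η * X * T.card := by
  classical
  obtain ⟨R, A, BP, hR1, hA, havg⟩ := avgT hSB hR hP b hb
  obtain ⟨E1, hE1⟩ : ∃ E1, E1 = BP + 2 := ⟨_, rfl⟩
  obtain ⟨A', hA'⟩ : ∃ A', A' = B + 3 := ⟨_, rfl⟩
  have hb0 : (0 : ℝ) < b := by exact_mod_cast (by omega : 0 < b)
  have hb1 : (1 : ℝ) ≤ b := by exact_mod_cast (by omega : 1 ≤ b)
  have hA0 : (0 : ℝ) < A' := by exact_mod_cast (by omega : 0 < A')
  obtain ⟨t', ht'⟩ : ∃ t', t' = 4 * s + 1 := ⟨_, rfl⟩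
  obtain ⟨R', hR'1, hblocks⟩ := blocks2 b hb R A t' 1 hR1 (by omega) le_rfl
  obtain ⟨δ, hδ⟩ : ∃ δ : ℝ, δ = (η / ((s + 1) * (b * A'))) ^ 2 := ⟨_, rfl⟩
  have hδ0 : 0 < δ := by rw [hδ]; positivity
  obtain ⟨t₀, ht₀⟩ := havg s t' R' (E1 + 1) 1 (by omega) le_rfl δ hδ0
  obtain ⟨t, ht⟩ : ∃ t, t = t₀ := ⟨_, rfl⟩
  obtain ⟨k1, hk1⟩ := ht₀ t (by omega)
  obtain ⟨D, hD⟩ : ∃ D, D = 3 * t + t' := ⟨_, rfl⟩
  obtain ⟨P₁, hP₁⟩ : ∃ P₁ : ℕ, D * A' / θ' ≤ (b : ℝ) ^ P₁ := by
    obtain ⟨P₁, hP₁⟩ := pow_unbounded_of_one_lt (D * A' / θ' : ℝ) (by exact_mod_cast (by omega : 1 < b) : (1 : ℝ) < b)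
    exact ⟨P₁, hP₁.le⟩
  obtain ⟨k2, hk2⟩ := hblocks 1 P₁
  obtain ⟨x1, hx1⟩ := par_z E1 BP (by omega) 1 le_rfl (b * A')
  refine ⟨E1, D, x1 + b ^ (k1 + k2 + P₁ + 2) + 1, by omega, fun X hX => ?_⟩
  obtain ⟨K, hKk, hK1, hAX, hK2, hK3⟩ := par_K b hb A' (k1 + k2 + P₁ + 2) (by omega) X (by omega)
  have hXY : X ≤ b ^ K := (Nat.le_mul_of_pos_left _ (by omega)).trans hAX
  obtain ⟨z, hz2, hz3, hz4, hz5⟩ := hx1 X (by omega) (b ^ K) hXY hK3
  have hz6 := hz5 X le_rfl (by omega)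
  refine ⟨z, hz2, hz6.1, hz6.2, fun τ0 θ hθ κ T h hh' => ?_⟩
  obtain ⟨J, J', hpos, hblk, hJs, hJ's, _, hJc⟩ := hk2 K (by omega)
  have hX0 : (0 : ℝ) < X := by exact_mod_cast (by omega : 0 < X)
  obtain ⟨Y, hY⟩ : ∃ Y, Y = b ^ K := ⟨_, rfl⟩
  have hYX : (Y : ℝ) ≤ b * A' * X := by rw [hY]; exact_mod_cast hK3
  have hY0 : (0 : ℝ) < Y := by rw [hY]; exact_mod_cast Nat.pow_pos (by omega)
  obtain ⟨P, hPd⟩ : ∃ P, P = PP s (Om J t) (Fintype.piFinset J') := ⟨_, rfl⟩
  -- the choices exist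
  have hPne : P.Nonempty := by
    rw [hPd]
    unfold PP
    rw [Fintype.piFinset_nonempty]
    intro _
    apply Nonempty.product
    · unfold Om
      rw [Fintype.piFinset_nonempty]
      intro c
      exact card_pos.1 (by have := hJc c.1; omega)
    · rw [Fintype.piFinset_nonempty]
      intro m
      apply card_pos.1
      have := hblk.card m
      by_contra h0
      have h1 : (J' m).card = 0 := by omega
      rw [h1, mul_zero] at this
      omega
  have hP0 : (0 : ℝ) < P.card := by exact_mod_cast card_pos.2 hPne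
  -- the average
  have hj : ∀ g ∈ T, ∀ j : Fin s, ∑ x ∈ P, DT θ τ0 b z Y X (fun _ _ => 1) (fun _ => 1) (h g) j x ^ 2 ≤ δ * (Y : ℝ) ^ 2 * P.card := by
    intro g hg j
    rw [hPd, hY]
    refine hk1 K (by omega) θ hθ z hz2 hz3 hz4 τ0 (fun _ => 1) (fun _ => ⟨one_ne_zero, by norm_num⟩) (fun _ _ => 1)
      (fun _ _ => ⟨one_ne_zero, by rw [abs_one]; exact_mod_cast (by omega : 1 < b)⟩) J hpos J' hblk (h g) (fun i => ?_) X hXY j
    refine (hh' g hg i).trans ?_
    have : B * X ≤ b ^ K := by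
      calc B * X ≤ A' * X := Nat.mul_le_mul_right _ (by omega)
        _ ≤ b ^ K := hAX
    exact_mod_cast this
  obtain ⟨x, hx, hxs⟩ : ∃ x ∈ P, ∑ g ∈ T, ∑ j, DT θ τ0 b z Y X (fun _ _ => 1) (fun _ => 1) (h g) j x ^ 2 ≤ s * δ * (Y : ℝ) ^ 2 * T.card := by
    apply exists_le_of_sum_le hPne
    rw [sum_comm]
    calc ∑ g ∈ T, ∑ x ∈ P, ∑ j, DT θ τ0 b z Y X (fun _ _ => 1) (fun _ => 1) (h g) j x ^ 2
        ≤ ∑ g ∈ T, (s * (δ * (Y : ℝ) ^ 2 * P.card)) := by
          apply sum_le_sum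
          intro g hg
          rw [sum_comm]
          refine (sum_le_sum fun j _ => hj g hg j).trans (le_of_eq ?_)
          rw [sum_const, nsmul_eq_mul, card_univ, Fintype.card_fin]
      _ = ∑ x ∈ P, (s * δ * (Y : ℝ) ^ 2 * T.card) := by
          rw [sum_const, nsmul_eq_mul, sum_const, nsmul_eq_mul]
          ring
  have hxc : ∀ i, (∀ c, (x i).1 c ∈ J c.1) ∧ ∀ m, (x i).2 m ∈ J' m := by
    intro i
    rw [hPd] at hx
    unfold PP at hx
    rw [Fintype.mem_piFinset] at hx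
    have h1 := mem_product.1 (hx i)
    unfold Om at h1
    rw [Fintype.mem_piFinset, Fintype.mem_piFinset] at h1
    exact h1
  have hmem : ∀ i, ∀ ν ∈ expL x i, 1 ≤ ν ∧ ν < K - 1 - P₁ := by
    intro i ν hν
    unfold expL at hν
    rw [List.mem_append, List.mem_map, List.mem_map] at hν
    rcases hν with ⟨c, _, rfl⟩ | ⟨m, _, rfl⟩
    · exact mem_Ico.1 (hJs c.1 ((hxc i).1 c))
    · exact mem_Ico.1 (hJ's m ((hxc i).2 m))
  have hsz : ∀ i, (pows b (expL x i) : ℝ) ≤ θ' * X := by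
    intro i
    have h1 : pows b (expL x i) ≤ D * b ^ (K - 1 - P₁) := by
      unfold pows
      have h2 : ((expL x i).map (fun ν => b ^ ν)).sum ≤ ((expL x i).map (fun ν => b ^ ν)).length • b ^ (K - 1 - P₁) := by
        apply List.sum_le_card_nsmul
        intro y hy
        rw [List.mem_map] at hy
        obtain ⟨ν, hν, rfl⟩ := hy
        exact Nat.pow_le_pow_right (by omega) (hmem i ν hν).2.le
      rw [List.length_map, expL_len, smul_eq_mul, ← hD] at h2
      exact h2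
    have h2 : (pows b (expL x i) : ℝ) ≤ D * (b : ℝ) ^ (K - 1 - P₁) := by exact_mod_cast h1
    have h3 : (b : ℝ) ^ (K - 1 - P₁) * (b : ℝ) ^ P₁ ≤ A' * X := by
      rw [← pow_add]
      have : K - 1 - P₁ + P₁ = K - 1 := by omega
      rw [this]
      exact_mod_cast hK2.le
    have h4 : (b : ℝ) ^ (K - 1 - P₁) * (D * A' / θ') ≤ A' * X :=
      (mul_le_mul_of_nonneg_left hP₁ (by positivity)).trans h3
    have h5 : (D * (b : ℝ) ^ (K - 1 - P₁)) * A' ≤ (θ' * X) * A' := by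
      rw [mul_div_assoc', div_le_iff₀ hθ0] at h4
      linarith
    exact h2.trans (le_of_mul_le_mul_right h5 hA0)
  refine ⟨fun i => expL x i, fun i => by rw [expL_len, ← hD], fun i ν hν => (hmem i ν hν).1, hsz, ?_⟩
  -- the error
  obtain ⟨er, her⟩ : ∃ er : κ → ℝ, er = fun g => ∑ n ∈ Icc 1 X, θ (n : ℤ) * (g0 τ0 n * (∏ i, lamI ((n : ℤ) + (h g i + (pows b (expL x i) : ℤ))) -
        ∏ i, lamzI z ((n : ℤ) + (h g i + (pows b (expL x i) : ℤ))))) := ⟨_, rfl⟩
  have htel : ∀ g ∈ T, er g = ∑ j, DT θ τ0 b z Y X (fun _ _ => 1) (fun _ => 1) (h g) j x := by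
    intro g hg
    have h1 := teleT θ τ0 b z Y X (fun _ _ => 1) (fun _ => 1) (h g) x ?_
    · rw [← h1, her]
      apply sum_congr rfl
      intro n _
      simp only [one_mul, expL_sum]
    · intro n hn i
      rw [mem_Icc] at hn
      rw [expL_sum, one_mul]
      have e2 := abs_le.1 (hh' g hg i)
      have e3 : (pows b (expL x i) : ℤ) ≤ X := by
        have := (hsz i).trans (mul_le_mul_of_nonneg_right hθ1 hX0.le)
        rw [one_mul] at this
        exact_mod_cast this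
      have e4 : (n : ℤ) ≤ X := by exact_mod_cast hn.2
      have e8 : ((A' * X : ℕ) : ℤ) ≤ (Y : ℤ) := by rw [hY]; exact_mod_cast hAX
      have e9 : ((A' * X : ℕ) : ℤ) = B * X + 3 * X := by rw [hA']; push_cast; ring
      have e10 : (0 : ℤ) ≤ X := by positivity
      linarith [e2.2]
  have h1 : ∑ g ∈ T, er g ^ 2 ≤ s * (s * δ * (Y : ℝ) ^ 2 * T.card) := by
    calc ∑ g ∈ T, er g ^ 2 ≤ ∑ g ∈ T, s * ∑ j, DT θ τ0 b z Y X (fun _ _ => 1) (fun _ => 1) (h g) j x ^ 2 := by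
          apply sum_le_sum
          intro g hg
          rw [htel g hg]
          refine sq_sum_le_card_mul_sum_sq.trans (le_of_eq ?_)
          rw [card_univ, Fintype.card_fin]
      _ = s * ∑ g ∈ T, ∑ j, DT θ τ0 b z Y X (fun _ _ => 1) (fun _ => 1) (h g) j x ^ 2 := by rw [mul_sum]
      _ ≤ _ := mul_le_mul_of_nonneg_left hxs (Nat.cast_nonneg _)
  have h2 : (∑ g ∈ T, |er g|) ^ 2 ≤ T.card * ∑ g ∈ T, |er g| ^ 2 := sq_sum_le_card_mul_sum_sq
  have h3 : (∑ g ∈ T, |er g|) ^ 2 ≤ (η * X * T.card) ^ 2 := by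
    refine h2.trans ?_
    simp only [sq_abs]
    calc (T.card : ℝ) * ∑ g ∈ T, er g ^ 2 ≤ T.card * (s * (s * δ * (Y : ℝ) ^ 2 * T.card)) :=
          mul_le_mul_of_nonneg_left h1 (Nat.cast_nonneg _)
      _ = (s * Real.sqrt δ * Y * T.card) ^ 2 := by
          rw [mul_pow, mul_pow, mul_pow, Real.sq_sqrt hδ0.le]
          ring
      _ ≤ (η * X * T.card) ^ 2 := by
          apply pow_le_pow_left₀ (by positivity)
          apply mul_le_mul_of_nonneg_right _ (Nat.cast_nonneg _)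
          have hsq : Real.sqrt δ = η / ((s + 1) * (b * A')) := by
            rw [hδ, Real.sqrt_sq (by positivity)]
          rw [hsq]
          calc (s : ℝ) * (η / ((s + 1) * (b * A'))) * Y ≤ s * (η / ((s + 1) * (b * A'))) * (b * A' * X) :=
                mul_le_mul_of_nonneg_left hYX (by positivity)
            _ = s / (s + 1) * (η * X) := by field_simp
            _ ≤ 1 * (η * X) := by
                apply mul_le_mul_of_nonneg_right _ (by positivity)
                rw [div_le_one (by positivity)]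
                linarith
            _ = η * X := one_mul _
  have h4 := (abs_le_of_sq_le_sq' h3 (by positivity)).2
  rw [her] at h4
  exact h4

end Pool.Agent.Y820.LD
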