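import Pool.Agent.Y820.LD.Stm

set_option autoImplicit false

/-!
# Project LD, second part: dense sets of primes

Exact statements of the tasks.
-/

namespace Pool.Agent.Y820.LD
open Finset
open Pool.Agent.H373R2.T7 (lamI lamzI lamz Vz pz)

/-- LD-G: products of local factors with mean value one, at the sums -/
def S_GL : Prop := ∀ b : ℕ, 2 ≤ b → ∀ C E : ℕ, ∀ η : ℝ, 0 < η → ∃ r0 : ℕ, ∀ r : ℕ, r0 ≤ r → ∃ Y0 : ℕ, ∀ Y : ℕ, Y0 ≤ Y →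
  ∀ z : ℕ, (z : ℝ) ≤ (Y : ℝ) ^ E → ∀ a : ℤ, |a| ≤ (b : ℤ) ^ (2 * Y) → ∀ g : ℕ → ℤ → ℤ → ℝ,
  (∀ p ∈ (pz z).filter (fun p => ¬ p ∣ b * (b - 1)),
    (∀ x x' y y' : ℤ, (p : ℤ) ∣ x - y → (p : ℤ) ∣ x' - y' → g p x x' = g p y y') ∧
    (∀ x x' : ℤ, |g p x x'| ≤ C / p * ((if (p : ℤ) ∣ (a + x) * (a + x') * (x - x') then 1 else 0) + 1 / p)) ∧
    ∑ x ∈ range p, ∑ x' ∈ range p, g p (x : ℤ) (x' : ℤ) = 0) →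
  |∑ ν : Fin r → Fin Y, ∑ ν' : Fin r → Fin Y, ∏ p ∈ (pz z).filter (fun p => ¬ p ∣ b * (b - 1)),
    (1 + g p (DD b ν : ℤ) (DD b ν' : ℤ)) - ((Y : ℝ) ^ r) ^ 2| ≤ η * ((Y : ℝ) ^ r) ^ 2

/-- LD-S: the mean values of the model are close to their local parts in mean square over the primes -/
def S_TwoP : Prop := ∀ b : ℕ, 2 ≤ b → ∀ E : ℕ, ∀ η : ℝ, 0 < η → ∃ r0 : ℕ, ∀ r : ℕ, r0 ≤ r → ∃ X0 : ℕ, ∀ X : ℕ, X0 ≤ X →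
  ∀ Y z : ℕ, Real.log X ≤ b * Y → b * (b - 1) ≤ z → (z : ℝ) ≤ Real.log X ^ E → ∀ σ : ℤ, (σ = 1 ∨ σ = -1) →
  ∀ a : ℤ, |a| ≤ (b : ℤ) ^ (2 * Y) → 1 ≤ σ + a → 1 ≤ σ * X + a → (2 : ℤ) ∣ a + ((r * b : ℕ) : ℤ) →
  ∑ n ∈ Icc 1 X, ArithmeticFunction.vonMangoldt n * (FF b r Y z (σ * (n : ℤ) + a) - Phi b r (σ * (n : ℤ) + a)) ^ 2 ≤ η * X

end Pool.Agent.Y820.LD
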