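import Pool.Agent.Y820.LD.B

set_option autoImplicit false

/-! Prime tuples in dense sets of integers. -/

namespace Pool.Agent.Y820.LD
open Finset
open Pool.Agent.H373R2.T7 (lamI lamzI lamz Vz Vz_pos Vz_inv_small lamI_nonneg lamzI_nonneg)
open Pool.Agent.Y820.LT (S_R S_P)
open Pool.Agent.Y820.LF (S_SBF g0 g0_nonneg)

lemma pows_append (b : ℕ) (L L' : List ℕ) : pows b (L ++ L') = pows b L + pows b L' := by
  unfold pows
  rw [List.map_append, List.sum_append]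

lemma pows_zero (b u : ℕ) : pows b (List.replicate u 0) = u := by
  unfold pows
  rw [List.map_replicate, List.sum_replicate, pow_zero, smul_eq_mul, mul_one]

lemma pow_mod_q (b : ℕ) (hb : 2 ≤ b) (ν : ℕ) (hν : 1 ≤ ν) : b ^ ν ≡ b [MOD (b * (b - 1))] := by
  obtain ⟨c, rfl⟩ : ∃ c, b = c + 1 := ⟨b - 1, by omega⟩
  obtain ⟨m, rfl⟩ : ∃ m, ν = m + 1 := ⟨ν - 1, by omega⟩
  rw [Nat.add_sub_cancel]
  have h1 : (c + 1) ^ m ≡ 1 [MOD c] := by
    have h2 : c + 1 ≡ 1 [MOD c] := by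
      unfold Nat.ModEq
      rw [Nat.add_mod_left]
    have := h2.pow m
    rwa [one_pow] at this
  have h3 := Nat.ModEq.mul_left' (c + 1) h1
  rw [mul_one, ← pow_succ'] at h3
  exact h3

lemma pows_mod_q (b : ℕ) (hb : 2 ≤ b) (L : List ℕ) (hL : ∀ ν ∈ L, 1 ≤ ν) : pows b L ≡ L.length * b [MOD (b * (b - 1))] := by
  induction L with
  | nil =>
    unfold pows
    simp only [List.map_nil, List.sum_nil, List.length_nil, zero_mul]
    exact Nat.ModEq.refl 0
  | cons a L ih =>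
    have h1 : pows b (a :: L) = b ^ a + pows b L := by
      unfold pows
      rw [List.map_cons, List.sum_cons]
    rw [h1, List.length_cons, add_mul, one_mul, add_comm (L.length * b)]
    exact Nat.ModEq.add (pow_mod_q b hb a (hL a (List.mem_cons_self ..))) (ih (fun ν hν => hL ν (List.mem_cons_of_mem _ hν)))

lemma FF_nonneg (b r Y z : ℕ) (m : ℤ) : 0 ≤ FF b r Y z m := by
  unfold FF
  exact div_nonneg (sum_nonneg fun _ _ => lamzI_nonneg _ _) (by positivity)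

lemma DD_le (b : ℕ) (hb : 2 ≤ b) {r Y : ℕ} (ν : Fin r → Fin Y) : DD b ν ≤ r * b ^ Y := by
  unfold DD
  calc ∑ j, b ^ ((ν j : ℕ) + 1) ≤ ∑ _j : Fin r, b ^ Y := sum_le_sum fun j _ => Nat.pow_le_pow_right (by omega) (by have := (ν j).2; omega)
    _ = r * b ^ Y := by rw [sum_const, card_univ, Fintype.card_fin, smul_eq_mul]

/-- the exponents of a sum -/
noncomputable def exD {r Y : ℕ} (ν : Fin r → Fin Y) : List ℕ := (univ : Finset (Fin r)).toList.map (fun j => (ν j : ℕ) + 1)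

lemma exD_len {r Y : ℕ} (ν : Fin r → Fin Y) : (exD ν).length = r := by
  unfold exD
  rw [List.length_map, length_toList, card_univ, Fintype.card_fin]

lemma exD_pows (b : ℕ) {r Y : ℕ} (ν : Fin r → Fin Y) : pows b (exD ν) = DD b ν := by
  unfold exD pows DD
  rw [List.map_map, ← Finset.sum_map_toList]
  rfl

/-- many elements in one residue class -/
lemma class_exists (q : ℕ) (hq : 1 ≤ q) (A : Finset ℕ) : ∃ ρ₀ : ℕ, (A.card : ℝ) / q ≤ ((A.filter (fun n => n % q = ρ₀)).card : ℝ) := by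
  by_contra hcon
  push Not at hcon
  have h1 : A.card = ∑ ρ₀ ∈ range q, (A.filter (fun n => n % q = ρ₀)).card :=
    card_eq_sum_card_fiberwise (f := fun n => n % q) (fun n _ => by simp only [coe_range, Set.mem_Iio]; exact Nat.mod_lt _ (by omega))
  have h2 : (A.card : ℝ) = ∑ ρ₀ ∈ range q, ((A.filter (fun n => n % q = ρ₀)).card : ℝ) := by
    rw [← Nat.cast_sum]
    exact_mod_cast h1
  have h3 : ∑ ρ₀ ∈ range q, ((A.filter (fun n => n % q = ρ₀)).card : ℝ) < ∑ _ρ₀ ∈ range q, (A.card : ℝ) / q :=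
    sum_lt_sum_of_nonempty ⟨0, mem_range.2 (by omega)⟩ (fun ρ₀ _ => hcon ρ₀)
  rw [sum_const, card_range, nsmul_eq_mul, mul_div_cancel₀ _ (by exact_mod_cast (by omega : q ≠ 0)), ← h2] at h3
  exact lt_irrefl _ h3

/-- the length of the windows -/
lemma len_exists (b : ℕ) (hb : 2 ≤ b) (r : ℕ) (θ : ℝ) (hθ : 0 < θ) : ∃ X₀ : ℕ, ∀ X : ℕ, X₀ ≤ X → ∃ Y : ℕ, 1 ≤ Y ∧ (r : ℝ) * (b : ℝ) ^ Y ≤ θ * X ∧ Real.log X ≤ b * Y := by
  obtain ⟨P₂, hP₂⟩ : ∃ P₂ : ℕ, r / θ ≤ (b : ℝ) ^ P₂ := by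
    obtain ⟨P₂, hP₂⟩ := pow_unbounded_of_one_lt (r / θ : ℝ) (by exact_mod_cast (by omega : 1 < b) : (1 : ℝ) < b)
    exact ⟨P₂, hP₂.le⟩
  refine ⟨b ^ (P₂ + 1 + (P₂ + 1) * b), fun X hX => ?_⟩
  have hX1 : 1 ≤ X := le_trans (Nat.one_le_pow _ _ (by omega)) hX
  have hX0 : (0 : ℝ) < X := by exact_mod_cast (by omega : 0 < X)
  have hlog : P₂ + 1 + (P₂ + 1) * b ≤ Nat.log b X := Nat.le_log_of_pow_le (by omega) hX
  obtain ⟨Y, hY⟩ : ∃ Y, Y = Nat.log b X - P₂ := ⟨_, rfl⟩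
  have hb0 : (0 : ℝ) < b := by exact_mod_cast (by omega : 0 < b)
  refine ⟨Y, by omega, ?_, ?_⟩
  · have h1 : b ^ Nat.log b X ≤ X := Nat.pow_log_le_self b (by omega)
    have h2 : b ^ Y * b ^ P₂ ≤ X := by
      rw [← pow_add, hY, Nat.sub_add_cancel (by omega)]
      exact h1
    have h3 : (b : ℝ) ^ Y * (b : ℝ) ^ P₂ ≤ X := by exact_mod_cast h2
    have h4 : (b : ℝ) ^ Y * (r / θ) ≤ X := (mul_le_mul_of_nonneg_left hP₂ (by positivity)).trans h3
    rw [mul_div_assoc', div_le_iff₀ hθ] at h4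
    linarith
  · have h1 : X < b ^ (Nat.log b X + 1) := Nat.lt_pow_succ_log_self (by omega) X
    have h2 : (X : ℝ) ≤ (b : ℝ) ^ (Nat.log b X + 1) := by exact_mod_cast h1.le
    have h3 := Real.log_le_log hX0 h2
    rw [Real.log_pow] at h3
    have h4 : Real.log b ≤ b - 1 := Real.log_le_sub_one_of_pos hb0
    have h5 : ((Nat.log b X + 1 : ℕ) : ℝ) * Real.log b ≤ ((Nat.log b X + 1 : ℕ) : ℝ) * (b - 1) :=
      mul_le_mul_of_nonneg_left h4 (Nat.cast_nonneg _)
    have h6 : ((Nat.log b X + 1 : ℕ) : ℝ) * (b - 1) ≤ b * Y := by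
      have e1 : Nat.log b X + 1 = Y + P₂ + 1 := by omega
      rw [e1]
      push_cast
      have e2 : (P₂ + 1) * b ≤ Y := by omega
      have e3 : ((P₂ : ℝ) + 1) * b ≤ Y := by exact_mod_cast e2
      nlinarith
    linarith

theorem dense (hTwo : S_Two) (hV : S_tr2) (hSB : S_SBF) (hR : S_R) (hP : S_P) (b : ℕ) (hb : 2 ≤ b) (s B : ℕ) (δ θ' : ℝ) (hδ : 0 < δ) (hθ0 : 0 < θ') (hθ1 : θ' ≤ 1) :
    ∃ (D : ℕ) (c : ℝ) (X₀ : ℕ), 0 < c ∧ ∀ X : ℕ, X₀ ≤ X → ∀ A ⊆ Icc 1 X, δ * X ≤ A.card → ∀ h : Fin s → ℕ, (∀ i, h i ≤ B * X) →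
    ∃ L : Fin s → List ℕ, (∀ i, (L i).length ≤ D) ∧ (∀ i, (pows b (L i) : ℝ) ≤ θ' * X) ∧
      c * (X / Real.log X ^ s) ≤ ((A.filter (fun n => ∀ i, (n + (h i + pows b (L i))).Prime)).card : ℝ) := by
  classical
  obtain ⟨q, hq⟩ : ∃ q, q = b * (b - 1) := ⟨_, rfl⟩
  have hq1 : 1 ≤ q := by rw [hq]; exact Nat.mul_pos (by omega) (by omega)
  have hq0 : (0 : ℝ) < q := by exact_mod_cast (by omega : 0 < q)
  obtain ⟨κ₀, hκ₀⟩ : ∃ κ₀ : ℝ, κ₀ = δ / (2 * q * 2 ^ s) := ⟨_, rfl⟩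
  have hκ0 : 0 < κ₀ := by rw [hκ₀]; positivity
  obtain ⟨η₂, hη₂⟩ : ∃ η₂ : ℝ, η₂ = δ / (8 * (s + 1) * q) := ⟨_, rfl⟩
  have hη20 : 0 < η₂ := by rw [hη₂]; positivity
  obtain ⟨E1, D, x1, hE1, hstage⟩ := stageT hSB hR hP b hb s (B + 2) (κ₀ / 2) (θ' / 3) (by positivity) (by positivity) (by linarith)
  obtain ⟨r, hr⟩ := hTwo b hb (E1 + 1) η₂ hη20
  obtain ⟨x2, hx2⟩ := hr r le_rfl
  obtain ⟨x3, hx3⟩ := hV s (B + 1) (κ₀ / 2) (by positivity)
  obtain ⟨x4, hx4⟩ := len_exists b hb r (θ' / 3) (by positivity)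
  obtain ⟨x5, hx5⟩ : ∃ x5 : ℕ, Real.exp (q + 1) ≤ x5 := ⟨_, Nat.le_ceil _⟩
  obtain ⟨x6, hx6⟩ : ∃ x6 : ℕ, 3 * q / θ' ≤ x6 := ⟨_, Nat.le_ceil _⟩
  refine ⟨q + r + D, κ₀ / 2 / 2 ^ (s + 1), x1 + x2 + x3 + x4 + x5 + x6 + 1, by positivity, fun X hX A hA hAc h hh => ?_⟩
  have hX0 : (0 : ℝ) < X := by exact_mod_cast (by omega : 0 < X)
  have hlX : (q : ℝ) + 1 ≤ Real.log X := by
    rw [Real.le_log_iff_exp_le hX0]
    refine hx5.trans ?_
    exact_mod_cast (by omega : x5 ≤ X)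
  have hqX : (q : ℝ) ≤ θ' / 3 * X := by
    have h1 : 3 * q / θ' ≤ (X : ℝ) := hx6.trans (by exact_mod_cast (by omega : x6 ≤ X))
    rw [div_le_iff₀ hθ0] at h1
    linarith
  obtain ⟨z, hz2, hz3, hz4, hst⟩ := hstage X (by omega)
  obtain ⟨Y, hY1, hY2, hY3⟩ := hx4 X (by omega)
  have hzq : q ≤ z := by
    have h1 : Real.log X ^ 1 ≤ Real.log X ^ E1 := pow_le_pow_right₀ (by linarith) (by omega)
    rw [pow_one] at h1
    have h2 : (q : ℝ) ≤ z := by linarith
    exact_mod_cast h2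
  -- the residue class and the corrections
  obtain ⟨ρ₀, hρ₀⟩ := class_exists q hq1 A
  obtain ⟨A', hA'⟩ : ∃ A', A' = A.filter (fun n => n % q = ρ₀) := ⟨_, rfl⟩
  rw [← hA'] at hρ₀
  have hA'A : A' ⊆ A := by rw [hA']; exact filter_subset _ _
  have hu : ∀ i : Fin s, ∃ u : ℕ, u < q ∧ ρ₀ + (h i + u + D * b) + r * b ≡ 1 [MOD q] := by
    intro i
    obtain ⟨v, hv⟩ : ∃ v, v = (ρ₀ + (h i + D * b) + r * b) % q := ⟨_, rfl⟩
    have hvq : v < q := by rw [hv]; exact Nat.mod_lt _ (by omega)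
    refine ⟨(q - v + 1) % q, Nat.mod_lt _ (by omega), ?_⟩
    have e1 : ρ₀ + (h i + (q - v + 1) % q + D * b) + r * b = (ρ₀ + (h i + D * b) + r * b) + (q - v + 1) % q := by ring
    rw [e1]
    have e2 : (ρ₀ + (h i + D * b) + r * b) + (q - v + 1) % q ≡ v + (q - v + 1) [MOD q] := by
      apply Nat.ModEq.add
      · rw [hv]; exact (Nat.mod_modEq _ _).symm
      · exact Nat.mod_modEq _ _
    refine e2.trans ?_
    have e3 : v + (q - v + 1) = 1 + q := by omega
    rw [e3]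
    unfold Nat.ModEq
    rw [Nat.add_mod_right]
  choose u hu1 hu2 using hu
  -- the choice of the powers
  obtain ⟨θ, hθ⟩ : ∃ θ : ℤ → ℝ, θ = fun n => if n.toNat ∈ A' then 1 else 0 := ⟨_, rfl⟩
  have hθn : ∀ n : ℕ, θ (n : ℤ) = if n ∈ A' then 1 else 0 := by
    intro n
    rw [hθ]
    simp only [Int.toNat_natCast]
  obtain ⟨L, hL1, hL2, hL3, hL4⟩ := hst false θ (fun n => by
    rw [hθ]
    simp only
    split_ifs <;> simp) (Fin s → (Fin r → Fin Y)) univ (fun ν i => ((h i + u i + DD b (ν i) : ℕ) : ℤ)) (fun ν _ i => by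
    rw [abs_of_nonneg (by positivity)]
    have h1 : DD b (ν i) ≤ X := by
      have h2 : ((DD b (ν i) : ℕ) : ℝ) ≤ (r : ℝ) * (b : ℝ) ^ Y := by exact_mod_cast DD_le b hb (ν i)
      have h3 : ((DD b (ν i) : ℕ) : ℝ) ≤ X := by nlinarith
      exact_mod_cast h3
    have h4 : u i ≤ X := by
      have h5 : (u i : ℝ) ≤ q := by exact_mod_cast (hu1 i).le
      have h6 : (u i : ℝ) ≤ X := by nlinarith
      exact_mod_cast h6
    have h7 := hh i
    have h8 : h i + u i + DD b (ν i) ≤ (B + 2) * X := by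
      calc h i + u i + DD b (ν i) ≤ B * X + X + X := by omega
        _ = (B + 2) * X := by ring
    exact_mod_cast h8)
  have hTc : (((univ : Finset (Fin s → (Fin r → Fin Y))).card : ℕ) : ℝ) = ((Y : ℝ) ^ r) ^ s := by
    rw [card_univ, Fintype.card_fun, Fintype.card_fun, Fintype.card_fin, Fintype.card_fin, Fintype.card_fin]
    push_cast
    rfl
  have hYr : (0 : ℝ) < (Y : ℝ) ^ r := by
    have : (0 : ℝ) < Y := by exact_mod_cast (by omega : 0 < Y)
    positivity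
  obtain ⟨a, ha⟩ : ∃ a : Fin s → ℕ, a = fun i => h i + u i + pows b (L i) := ⟨_, rfl⟩
  -- the main term
  have hmain : ∑ ν : Fin s → (Fin r → Fin Y), ∑ n ∈ Icc 1 X, θ (n : ℤ) * (g0 false n * ∏ i, lamzI z ((n : ℤ) + (((h i + u i + DD b (ν i) : ℕ) : ℤ) + (pows b (L i) : ℤ)))) =
      ((Y : ℝ) ^ r) ^ s * ∑ n ∈ A', ∏ i, FF b r Y z ((n : ℤ) + (a i : ℤ)) := by
    rw [sum_comm, mul_sum]
    have e1 : ∑ n ∈ A', ((Y : ℝ) ^ r) ^ s * ∏ i, FF b r Y z ((n : ℤ) + (a i : ℤ)) =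
        ∑ n ∈ Icc 1 X, θ (n : ℤ) * (((Y : ℝ) ^ r) ^ s * ∏ i, FF b r Y z ((n : ℤ) + (a i : ℤ))) := by
      have e2 : A' = (Icc 1 X).filter (fun n => n ∈ A') := by
        ext n
        rw [mem_filter]
        exact ⟨fun hn => ⟨hA (hA'A hn), hn⟩, fun hn => hn.2⟩
      conv_lhs => rw [e2]
      rw [sum_filter]
      apply sum_congr rfl
      intro n _
      rw [hθn]
      split_ifs <;> simp
    rw [e1]
    apply sum_congr rfl
    intro n _
    rw [← mul_sum]
    congr 1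
    have e3 : ∀ ν : Fin s → (Fin r → Fin Y), g0 false n * ∏ i, lamzI z ((n : ℤ) + (((h i + u i + DD b (ν i) : ℕ) : ℤ) + (pows b (L i) : ℤ))) =
        ∏ i, lamzI z (((n : ℤ) + (a i : ℤ)) + (DD b (ν i) : ℤ)) := by
      intro ν
      unfold g0
      rw [if_neg (by simp), one_mul]
      apply prod_congr rfl
      intro i _
      congr 1
      rw [ha]
      push_cast
      ring
    simp only [e3]
    have e4 := prod_univ_sum (fun _ : Fin s => (univ : Finset (Fin r → Fin Y))) (fun i ν => lamzI z (((n : ℤ) + (a i : ℤ)) + (DD b ν : ℤ)))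
    rw [Fintype.piFinset_univ] at e4
    rw [← e4]
    have e5 : ((Y : ℝ) ^ r) ^ s = ∏ _i : Fin s, (Y : ℝ) ^ r := by rw [prod_const, card_univ, Fintype.card_fin]
    rw [e5, ← prod_mul_distrib]
    apply prod_congr rfl
    intro i _
    unfold FF
    field_simp
  -- the lower bound for the main term
  have hPhi : ∀ n ∈ A', ∀ i, 1 ≤ Phi b r ((n : ℤ) + (a i : ℤ)) := by
    intro n hn i
    unfold Phi
    have hnq : n ≡ ρ₀ [MOD q] := by
      rw [hA', mem_filter] at hn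
      have h1 := hn.2
      have h2 : ρ₀ % q = ρ₀ := by rw [← h1, Nat.mod_mod]
      unfold Nat.ModEq
      rw [h1, h2]
    have h3 : pows b (L i) ≡ D * b [MOD q] := by
      have := pows_mod_q b hb (L i) (hL2 i)
      rw [hL1 i, ← hq] at this
      exact this
    have h4 : n + (h i + u i + pows b (L i)) + r * b ≡ 1 [MOD q] := by
      refine Nat.ModEq.trans ?_ (hu2 i)
      exact Nat.ModEq.add (Nat.ModEq.add hnq (Nat.ModEq.add (Nat.ModEq.refl _) h3)) (Nat.ModEq.refl _)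
    have h5 : Nat.gcd (n + (h i + u i + pows b (L i)) + r * b) q = 1 := by
      rw [h4.gcd_eq, Nat.gcd_one_left]
    have h6 : Int.gcd ((n : ℤ) + (a i : ℤ) + ((r * b : ℕ) : ℤ)) ((b * (b - 1) : ℕ) : ℤ) = 1 := by
      rw [ha, ← hq]
      have e : (n : ℤ) + ((h i + u i + pows b (L i) : ℕ) : ℤ) + ((r * b : ℕ) : ℤ) = ((n + (h i + u i + pows b (L i)) + r * b : ℕ) : ℤ) := by
        push_cast; ring
      simp only
      rw [e, Int.gcd_natCast_natCast]
      exact h5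
    rw [if_pos h6]
    have h7 : ∀ p ∈ (b * (b - 1)).primeFactors, (1 : ℝ) ≤ (1 - 1 / (p : ℝ))⁻¹ := by
      intro p hp
      have hp2 := (Nat.prime_of_mem_primeFactors hp).two_le
      have hp0 : (2 : ℝ) ≤ p := by exact_mod_cast hp2
      have h8 : 0 < 1 - 1 / (p : ℝ) := by
        rw [sub_pos, div_lt_one (by linarith)]
        linarith
      rw [one_le_inv₀ h8]
      have : 0 ≤ 1 / (p : ℝ) := by positivity
      linarith
    calc (1 : ℝ) = ∏ _p ∈ (b * (b - 1)).primeFactors, (1 : ℝ) := by rw [prod_const_one]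
      _ ≤ _ := prod_le_prod (fun _ _ => zero_le_one) h7
  obtain ⟨Bad, hBad⟩ : ∃ Bad : Fin s → Finset ℕ, Bad = fun i => (Icc 1 X).filter (fun n : ℕ => 1 / 2 < |FF b r Y z ((n : ℤ) + (a i : ℤ)) - Phi b r ((n : ℤ) + (a i : ℤ))|) := ⟨_, rfl⟩
  have hBadc : ∀ i, ((Bad i).card : ℝ) ≤ 4 * η₂ * X := by
    intro i
    have h1 := hx2 X (by omega) Y z hY3 (by rw [← hq]; exact hzq) hz4 (a i)
    have h2 : ((Bad i).card : ℝ) * (1 / 4) ≤ ∑ n ∈ Icc 1 X, (FF b r Y z ((n : ℤ) + (a i : ℤ)) - Phi b r ((n : ℤ) + (a i : ℤ))) ^ 2 := by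
      calc ((Bad i).card : ℝ) * (1 / 4) = ∑ _n ∈ Bad i, (1 / 4 : ℝ) := by rw [sum_const, nsmul_eq_mul]
        _ ≤ ∑ n ∈ Bad i, (FF b r Y z ((n : ℤ) + (a i : ℤ)) - Phi b r ((n : ℤ) + (a i : ℤ))) ^ 2 := by
            apply sum_le_sum
            intro n hn
            rw [hBad] at hn
            have h3 := (mem_filter.1 hn).2
            rw [← sq_abs]
            nlinarith
        _ ≤ _ := by
            apply sum_le_sum_of_subset_of_nonneg
            · rw [hBad]; exact filter_subset _ _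
            · intro n _ _; positivity
    linarith
  obtain ⟨Gd, hGd⟩ : ∃ Gd, Gd = A' \ (univ.biUnion Bad) := ⟨_, rfl⟩
  have hGdc : δ / (2 * q) * X ≤ (Gd.card : ℝ) := by
    have h1 : A'.card ≤ Gd.card + (univ.biUnion Bad).card := by
      rw [hGd]
      have := card_le_card (subset_union_left (s₁ := A') (s₂ := univ.biUnion Bad))
      rw [← sdiff_union_self_eq_union] at this
      exact this.trans (card_union_le _ _)
    have h2 : ((univ.biUnion Bad).card : ℝ) ≤ s * (4 * η₂ * X) := by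
      calc ((univ.biUnion Bad).card : ℝ) ≤ ((∑ i, (Bad i).card : ℕ) : ℝ) := by exact_mod_cast card_biUnion_le
        _ = ∑ i, ((Bad i).card : ℝ) := by push_cast; rfl
        _ ≤ ∑ _i : Fin s, 4 * η₂ * X := sum_le_sum fun i _ => hBadc i
        _ = s * (4 * η₂ * X) := by rw [sum_const, nsmul_eq_mul, card_univ, Fintype.card_fin]
    have h3 : (A'.card : ℝ) ≤ Gd.card + (univ.biUnion Bad).card := by exact_mod_cast h1
    have h4 : δ * X / q ≤ A'.card := (div_le_div_of_nonneg_right hAc hq0.le).trans hρ₀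
    have h5 : s * (4 * η₂ * X) ≤ δ / (2 * q) * X := by
      rw [hη₂]
      have e1 : (s : ℝ) * (4 * (δ / (8 * (s + 1) * q)) * X) = (s / (s + 1)) * (δ / (2 * q) * X) := by
        field_simp
        ring
      rw [e1]
      have e2 : (s : ℝ) / (s + 1) ≤ 1 := by
        rw [div_le_one (by positivity)]
        linarith
      have e3 : 0 ≤ δ / (2 * q) * X := by positivity
      nlinarith
    have h6 : δ * X / q = δ / (2 * q) * X + δ / (2 * q) * X := by
      field_simp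
      ring
    linarith
  have hlow : κ₀ * X ≤ ∑ n ∈ A', ∏ i, FF b r Y z ((n : ℤ) + (a i : ℤ)) := by
    calc κ₀ * X = δ / (2 * q) * X * (1 / 2) ^ s := by
          rw [hκ₀, one_div, inv_pow]
          field_simp
      _ ≤ Gd.card * (1 / 2) ^ s := mul_le_mul_of_nonneg_right hGdc (by positivity)
      _ = ∑ _n ∈ Gd, (1 / 2 : ℝ) ^ s := by rw [sum_const, nsmul_eq_mul]
      _ ≤ ∑ n ∈ Gd, ∏ i, FF b r Y z ((n : ℤ) + (a i : ℤ)) := by
          apply sum_le_sum
          intro n hn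
          rw [hGd, mem_sdiff, mem_biUnion] at hn
          obtain ⟨hn1, hn2⟩ := hn
          calc (1 / 2 : ℝ) ^ s = ∏ _i : Fin s, (1 / 2 : ℝ) := by rw [prod_const, card_univ, Fintype.card_fin]
            _ ≤ _ := by
                apply prod_le_prod (fun _ _ => by norm_num)
                intro i _
                have h1 : n ∉ Bad i := fun h => hn2 ⟨i, mem_univ i, h⟩
                rw [hBad, mem_filter] at h1
                push Not at h1
                have h2 := h1 (hA (hA'A hn1))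
                have h3 := hPhi n hn1 i
                have h4 := (abs_le.1 h2).1
                linarith
      _ ≤ _ := by
          apply sum_le_sum_of_subset_of_nonneg
          · rw [hGd]; exact sdiff_subset
          · intro n _ _
            exact prod_nonneg fun i _ => FF_nonneg _ _ _ _ _
  -- the primes
  have hdiff : ((Y : ℝ) ^ r) ^ s * (κ₀ / 2 * X) ≤
      ∑ ν : Fin s → (Fin r → Fin Y), ∑ n ∈ Icc 1 X, θ (n : ℤ) * (g0 false n * ∏ i, lamI ((n : ℤ) + (((h i + u i + DD b (ν i) : ℕ) : ℤ) + (pows b (L i) : ℤ)))) := by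
    have h1 : |∑ ν : Fin s → (Fin r → Fin Y), (∑ n ∈ Icc 1 X, θ (n : ℤ) * (g0 false n * ∏ i, lamI ((n : ℤ) + (((h i + u i + DD b (ν i) : ℕ) : ℤ) + (pows b (L i) : ℤ)))) -
        ∑ n ∈ Icc 1 X, θ (n : ℤ) * (g0 false n * ∏ i, lamzI z ((n : ℤ) + (((h i + u i + DD b (ν i) : ℕ) : ℤ) + (pows b (L i) : ℤ)))))| ≤
        κ₀ / 2 * X * ((Y : ℝ) ^ r) ^ s := by
      refine (abs_sum_le_sum_abs _ _).trans ?_
      rw [hTc] at hL4
      refine le_trans (le_of_eq ?_) hL4
      apply sum_congr rfl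
      intro ν _
      congr 1
      rw [← sum_sub_distrib]
      apply sum_congr rfl
      intro n _
      ring
    rw [sum_sub_distrib, hmain] at h1
    have h2 := (abs_le.1 h1).1
    have h3 : ((Y : ℝ) ^ r) ^ s * (κ₀ * X) ≤ ((Y : ℝ) ^ r) ^ s * ∑ n ∈ A', ∏ i, FF b r Y z ((n : ℤ) + (a i : ℤ)) :=
      mul_le_mul_of_nonneg_left hlow (by positivity)
    have h4 : ((Y : ℝ) ^ r) ^ s * (κ₀ * X) = ((Y : ℝ) ^ r) ^ s * (κ₀ / 2 * X) + κ₀ / 2 * X * ((Y : ℝ) ^ r) ^ s := by ring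
    linarith
  have hne : (univ : Finset (Fin s → (Fin r → Fin Y))).Nonempty := ⟨fun _ _ => ⟨0, by omega⟩, mem_univ _⟩
  obtain ⟨ν, _, hν⟩ : ∃ ν ∈ (univ : Finset (Fin s → (Fin r → Fin Y))), κ₀ / 2 * X ≤
      ∑ n ∈ Icc 1 X, θ (n : ℤ) * (g0 false n * ∏ i, lamI ((n : ℤ) + (((h i + u i + DD b (ν i) : ℕ) : ℤ) + (pows b (L i) : ℤ)))) := by
    apply exists_le_of_sum_le hne
    rw [sum_const, nsmul_eq_mul, hTc]
    exact hdiff
  -- the result
  obtain ⟨L', hL'⟩ : ∃ L' : Fin s → List ℕ, L' = fun i => List.replicate (u i) 0 ++ (exD (ν i) ++ L i) := ⟨_, rfl⟩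
  have hpw : ∀ i, pows b (L' i) = u i + (DD b (ν i) + pows b (L i)) := by
    intro i
    rw [hL']
    simp only
    rw [pows_append, pows_append, pows_zero, exD_pows]
  have hsz : ∀ i, (pows b (L' i) : ℝ) ≤ θ' * X := by
    intro i
    rw [hpw i]
    push_cast
    have h1 := hL3 i
    have h2 : ((DD b (ν i) : ℕ) : ℝ) ≤ (r : ℝ) * (b : ℝ) ^ Y := by exact_mod_cast DD_le b hb (ν i)
    have h3 : (u i : ℝ) ≤ q := by exact_mod_cast (hu1 i).le
    linarith
  refine ⟨L', fun i => ?_, hsz, ?_⟩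
  · rw [hL']
    simp only
    rw [List.length_append, List.length_append, List.length_replicate, exD_len, hL1 i]
    have := hu1 i
    omega
  · have h1 := hx3 X (by omega) A hA (fun i => h i + pows b (L' i)) (fun i => by
      have h2 : pows b (L' i) ≤ X := by
        have h3 := (hsz i).trans (mul_le_mul_of_nonneg_right hθ1 hX0.le)
        rw [one_mul] at h3
        exact_mod_cast h3
      have h4 := hh i
      calc h i + pows b (L' i) ≤ B * X + X := by omega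
        _ = (B + 1) * X := by ring) ?_
    · exact h1
    · refine hν.trans ?_
      have e1 : ∑ n ∈ Icc 1 X, θ (n : ℤ) * (g0 false n * ∏ i, lamI ((n : ℤ) + (((h i + u i + DD b (ν i) : ℕ) : ℤ) + (pows b (L i) : ℤ)))) =
          ∑ n ∈ A', ∏ i, ArithmeticFunction.vonMangoldt (n + (h i + pows b (L' i))) := by
        have e2 : A' = (Icc 1 X).filter (fun n => n ∈ A') := by
          ext n
          rw [mem_filter]
          exact ⟨fun hn => ⟨hA (hA'A hn), hn⟩, fun hn => hn.2⟩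
        conv_rhs => rw [e2]
        rw [sum_filter]
        apply sum_congr rfl
        intro n hn
        rw [hθn]
        split_ifs with h5
        · rw [one_mul]
          unfold g0
          rw [if_neg (by simp), one_mul]
          apply prod_congr rfl
          intro i _
          rw [hpw i]
          have e3 : (n : ℤ) + (((h i + u i + DD b (ν i) : ℕ) : ℤ) + (pows b (L i) : ℤ)) = ((n + (h i + (u i + (DD b (ν i) + pows b (L i)))) : ℕ) : ℤ) := by
            push_cast; ring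
          rw [e3]
          unfold lamI
          rw [mem_Icc] at hn
          rw [if_pos (by exact_mod_cast (by omega : 1 ≤ n + (h i + (u i + (DD b (ν i) + pows b (L i)))))), Int.toNat_natCast]
        · rw [zero_mul]
      rw [e1]
      exact sum_le_sum_of_subset_of_nonneg hA'A (fun n _ _ => prod_nonneg fun i _ => ArithmeticFunction.vonMangoldt_nonneg)

end Pool.Agent.Y820.LD
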