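import Pool.Agent.Y820.LD.B2

set_option autoImplicit false

/-! Prime tuples in dense sets of primes. -/

namespace Pool.Agent.Y820.LD
open Finset
open Pool.Agent.H373R2.T7 (lamI lamzI lamz Vz Vz_pos Vz_inv_small lamI_nonneg lamzI_nonneg)
open Pool.Agent.Y820.LT (S_R S_P)
open Pool.Agent.Y820.LF (S_SBF g0 g0_nonneg)

/-- the length of the windows -/
lemma len_exists2 (b : ℕ) (hb : 2 ≤ b) (r c : ℕ) (θ : ℝ) (hθ : 0 < θ) : ∃ X₀ : ℕ, ∀ X : ℕ, X₀ ≤ X → ∃ Y : ℕ, 1 ≤ Y ∧ (r : ℝ) * (b : ℝ) ^ Y ≤ θ * X ∧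
    Real.log X ≤ b * Y ∧ c * X ≤ b ^ (2 * Y) := by
  obtain ⟨P₂, hP₂⟩ : ∃ P₂ : ℕ, r / θ ≤ (b : ℝ) ^ P₂ := by
    obtain ⟨P₂, hP₂⟩ := pow_unbounded_of_one_lt (r / θ : ℝ) (by exact_mod_cast (by omega : 1 < b) : (1 : ℝ) < b)
    exact ⟨P₂, hP₂.le⟩
  refine ⟨b ^ (P₂ + 1 + (P₂ + 1) * b) + c * b ^ (2 * P₂ + 2), fun X hX => ?_⟩
  have hX1 : 1 ≤ X := le_trans (Nat.one_le_pow _ _ (by omega)) ((Nat.le_add_right _ _).trans hX)
  have hX0 : (0 : ℝ) < X := by exact_mod_cast (by omega : 0 < X)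
  have hlog : P₂ + 1 + (P₂ + 1) * b ≤ Nat.log b X := Nat.le_log_of_pow_le (by omega) ((Nat.le_add_right _ _).trans hX)
  obtain ⟨Y, hY⟩ : ∃ Y, Y = Nat.log b X - P₂ := ⟨_, rfl⟩
  have hb0 : (0 : ℝ) < b := by exact_mod_cast (by omega : 0 < b)
  refine ⟨Y, by omega, ?_, ?_, ?_⟩
  · have h1 : b ^ Nat.log b X ≤ X := Nat.pow_log_le_self b (by omega)
    have h2 : b ^ Y * b ^ P₂ ≤ X := by
      rw [← pow_add, hY, Nat.sub_add_cancel (by omega)]
      exact h1
    have h3 : (b : ℝ) ^ Y * (b : ℝ) ^ P₂ ≤ X := by exact_mod_cast h2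
    have h4 : (b : ℝ) ^ Y * (r / θ) ≤ X := (mul_le_mul_of_nonneg_left hP₂ (by positivity)).trans h3
    rw [mul_div_assoc', div_le_iff₀ hθ] at h4
    linarith
  · have h1 : X < b ^ (Nat.log b X + 1) := Nat.lt_pow_succ_log_self (by omega) X
    have h2 : (X : ℝ) ≤ (b : ℝ) ^ (Nat.log b X + 1) := by exact_mod_cast h1.le
    have h3 := Real.log_le_log hX0 h2
    rw [Real.log_pow] at h3
    have h4 : Real.log b ≤ b - 1 := Real.log_le_sub_one_of_pos hb0
    have h5 : ((Nat.log b X + 1 : ℕ) : ℝ) * Real.log b ≤ ((Nat.log b X + 1 : ℕ) : ℝ) * (b - 1) :=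
      mul_le_mul_of_nonneg_left h4 (Nat.cast_nonneg _)
    have h6 : ((Nat.log b X + 1 : ℕ) : ℝ) * (b - 1) ≤ b * Y := by
      have e1 : Nat.log b X + 1 = Y + P₂ + 1 := by omega
      rw [e1]
      push_cast
      have e2 : (P₂ + 1) * b ≤ Y := by omega
      have e3 : ((P₂ : ℝ) + 1) * b ≤ Y := by exact_mod_cast e2
      nlinarith
    linarith
  · have h1 : X ≤ b ^ (Nat.log b X + 1) := (Nat.lt_pow_succ_log_self (by omega) X).le
    have h2 : X ≤ b ^ Y * b ^ (P₂ + 1) := by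
      rw [← pow_add]
      have : Y + (P₂ + 1) = Nat.log b X + 1 := by omega
      rw [this]
      exact h1
    have h3 : c * b ^ (2 * P₂ + 2) ≤ X := (Nat.le_add_left _ _).trans hX
    have h4 : (c * X) * b ^ (2 * P₂ + 2) ≤ b ^ (2 * Y) * b ^ (2 * P₂ + 2) := by
      calc (c * X) * b ^ (2 * P₂ + 2) = (c * b ^ (2 * P₂ + 2)) * X := by ring
        _ ≤ X * X := Nat.mul_le_mul_right _ h3
        _ ≤ (b ^ Y * b ^ (P₂ + 1)) * (b ^ Y * b ^ (P₂ + 1)) := Nat.mul_le_mul h2 h2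
        _ = b ^ (2 * Y) * b ^ (2 * P₂ + 2) := by ring
    exact Nat.le_of_mul_le_mul_right h4 (Nat.pow_pos (by omega))

/-- a large class of primes -/
lemma class_primes (q : ℕ) (hq : 1 ≤ q) (δ : ℝ) (hδ : 0 < δ) : ∃ X₀ : ℕ, ∀ X : ℕ, X₀ ≤ X → ∀ A ⊆ Icc 1 X, (∀ p ∈ A, p.Prime) →
    δ * (X / Real.log X) ≤ A.card → ∃ (ρ₀ : ℕ) (A' : Finset ℕ), A' ⊆ A ∧ A'.Nonempty ∧ (∀ p ∈ A', p % q = ρ₀ ∧ ¬ p ∣ q) ∧
      δ / (4 * q) * X ≤ ∑ p ∈ A', ArithmeticFunction.vonMangoldt p := by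
  classical
  have hq0 : (0 : ℝ) < q := by exact_mod_cast (by omega : 0 < q)
  have hlim : Filter.Tendsto (fun x : ℝ => Real.log x ^ 2 / x) Filter.atTop (nhds 0) := by
    have h1 := (isLittleO_log_rpow_rpow_atTop 2 (show (0 : ℝ) < 1 by norm_num)).tendsto_div_nhds_zero
    simpa using h1
  -- sqrt X is small
  obtain ⟨ε, hε⟩ : ∃ ε : ℝ, ε = δ / (4 * q) := ⟨_, rfl⟩
  have hε0 : 0 < ε := by rw [hε]; positivity
  have hev : ∀ᶠ x : ℝ in Filter.atTop, Real.log x ^ 2 / x < ε ^ 2 / 16 := by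
    apply hlim.eventually_lt_const
    positivity
  obtain ⟨x0, hx0⟩ := Filter.eventually_atTop.1 hev
  obtain ⟨n0, hn0⟩ := exists_nat_ge (max x0 (Real.exp 1))
  obtain ⟨n1, hn1⟩ : ∃ n1 : ℕ, 16 * (q + 2 : ℝ) ^ 2 ≤ n1 := ⟨_, Nat.le_ceil _⟩
  refine ⟨n0 + n1 + 1, fun X hX A hA hAp hAc => ?_⟩
  have hX0 : (0 : ℝ) < X := by exact_mod_cast (by omega : 0 < X)
  have hXn : (n0 : ℝ) ≤ X := by exact_mod_cast (by omega : n0 ≤ X)
  have hXn1 : (n1 : ℝ) ≤ X := by exact_mod_cast (by omega : n1 ≤ X)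
  have hL1 : 1 ≤ Real.log X := by
    rw [Real.le_log_iff_exp_le hX0]
    exact (le_max_right _ _).trans (hn0.trans hXn)
  have hL := hx0 X ((le_max_left _ _).trans (hn0.trans hXn))
  -- log X * sqrt X ≤ ε/4 X
  have hsq : Real.log X * Real.sqrt X ≤ ε / 4 * X := by
    have h1 : Real.log X ^ 2 ≤ ε ^ 2 / 16 * X := by
      rw [div_lt_iff₀ hX0] at hL
      exact hL.le
    have h2 : (Real.log X * Real.sqrt X) ^ 2 ≤ (ε / 4 * X) ^ 2 := by
      rw [mul_pow, Real.sq_sqrt hX0.le]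
      calc Real.log X ^ 2 * X ≤ ε ^ 2 / 16 * X * X := mul_le_mul_of_nonneg_right h1 hX0.le
        _ = (ε / 4 * X) ^ 2 := by ring
    exact (abs_le_of_sq_le_sq' h2 (by positivity)).2
  have hqs : (q : ℝ) + 2 ≤ Real.sqrt X / 4 := by
    rw [le_div_iff₀ (by norm_num)]
    apply Real.le_sqrt_of_sq_le
    have e : (((q : ℝ) + 2) * 4) ^ 2 = 16 * (q + 2 : ℝ) ^ 2 := by ring
    rw [e]
    exact hn1.trans hXn1
  obtain ⟨A₀, hA₀⟩ : ∃ A₀, A₀ = A.filter (fun p => ¬ p ∣ q ∧ X < p * p) := ⟨_, rfl⟩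
  have hA₀c : (A.card : ℝ) ≤ A₀.card + (q + 1) + (Real.sqrt X + 1) := by
    have h1 : A ⊆ (A₀ ∪ range (q + 1)) ∪ range (Nat.sqrt X + 1) := by
      intro p hp
      rw [mem_union, mem_union, hA₀, mem_filter, mem_range, mem_range]
      by_cases h2 : p ∣ q
      · left; right
        exact Nat.lt_succ_of_le (Nat.le_of_dvd (by omega) h2)
      · by_cases h3 : X < p * p
        · left; left
          exact ⟨hp, h2, h3⟩
        · right
          have : p ≤ Nat.sqrt X := Nat.le_sqrt.2 (by omega)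
          omega
    have h2 := card_le_card h1
    have h3 := h2.trans ((card_union_le _ _).trans (Nat.add_le_add_right (card_union_le _ _) _))
    rw [card_range, card_range] at h3
    have h4 : (A.card : ℝ) ≤ A₀.card + (q + 1) + ((Nat.sqrt X : ℝ) + 1) := by exact_mod_cast h3
    have h5 : (Nat.sqrt X : ℝ) ≤ Real.sqrt X := Real.nat_sqrt_le_real_sqrt
    linarith
  obtain ⟨ρ₀, hρ₀⟩ := class_exists q hq A₀
  obtain ⟨A', hA'⟩ : ∃ A', A' = A₀.filter (fun n => n % q = ρ₀) := ⟨_, rfl⟩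
  rw [← hA'] at hρ₀
  have hA'A₀ : A' ⊆ A₀ := by rw [hA']; exact filter_subset _ _
  have hA'A : A' ⊆ A := hA'A₀.trans (by rw [hA₀]; exact filter_subset _ _)
  have hsum : (A'.card : ℝ) * (Real.log X / 2) ≤ ∑ p ∈ A', ArithmeticFunction.vonMangoldt p := by
    calc (A'.card : ℝ) * (Real.log X / 2) = ∑ _p ∈ A', Real.log X / 2 := by rw [sum_const, nsmul_eq_mul]
      _ ≤ _ := by
          apply sum_le_sum
          intro p hp
          have h1 := hA'A₀ hp
          rw [hA₀, mem_filter] at h1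
          rw [ArithmeticFunction.vonMangoldt_apply_prime (hAp p h1.1)]
          have h2 : (X : ℝ) ≤ (p : ℝ) ^ 2 := by
            rw [sq]
            exact_mod_cast h1.2.2.le
          have h3 := Real.log_le_log hX0 h2
          rw [Real.log_pow] at h3
          push_cast at h3
          linarith
  have hmu : δ / (4 * q) * X ≤ ∑ p ∈ A', ArithmeticFunction.vonMangoldt p := by
    refine le_trans ?_ hsum
    have h1 : ((A.card : ℝ) - (q + 1) - (Real.sqrt X + 1)) / q ≤ A'.card := by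
      refine le_trans ?_ hρ₀
      apply div_le_div_of_nonneg_right _ hq0.le
      linarith
    have h2 : δ * X ≤ A.card * Real.log X := by
      have := mul_le_mul_of_nonneg_right hAc (by linarith : (0 : ℝ) ≤ Real.log X)
      have e : δ * (X / Real.log X) * Real.log X = δ * X := by field_simp
      rwa [e] at this
    have h3 : ((q : ℝ) + 1) + (Real.sqrt X + 1) ≤ 2 * Real.sqrt X := by
      have : 0 ≤ Real.sqrt X := Real.sqrt_nonneg _
      linarith
    have h4 : δ / (4 * q) * X * q ≤ ((A.card : ℝ) - (q + 1) - (Real.sqrt X + 1)) * (Real.log X / 2) := by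
      have e1 : δ / (4 * q) * X * q = δ * X / 4 := by field_simp
      have e2 : ε * q = δ / 4 := by rw [hε]; field_simp
      have h5 : Real.log X * Real.sqrt X ≤ δ * X / 4 := by
        have hq1' : (1 : ℝ) ≤ q := by exact_mod_cast hq
        have : ε / 4 * X ≤ δ * X / 4 := by
          have : ε ≤ δ := by
            have : ε ≤ ε * q := le_mul_of_one_le_right hε0.le hq1'
            linarith
          nlinarith
        linarith
      rw [e1]
      have h6 : (((q : ℝ) + 1) + (Real.sqrt X + 1)) * (Real.log X / 2) ≤ 2 * Real.sqrt X * (Real.log X / 2) :=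
        mul_le_mul_of_nonneg_right h3 (by linarith)
      nlinarith
    calc δ / (4 * q) * X = δ / (4 * q) * X * q / q := by field_simp
      _ ≤ ((A.card : ℝ) - (q + 1) - (Real.sqrt X + 1)) * (Real.log X / 2) / q := div_le_div_of_nonneg_right h4 hq0.le
      _ = ((A.card : ℝ) - (q + 1) - (Real.sqrt X + 1)) / q * (Real.log X / 2) := by ring
      _ ≤ A'.card * (Real.log X / 2) := mul_le_mul_of_nonneg_right h1 (by linarith)
  refine ⟨ρ₀, A', hA'A, ?_, ?_, hmu⟩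
  · by_contra hcon
    rw [not_nonempty_iff_eq_empty] at hcon
    rw [hcon, sum_empty] at hmu
    have : 0 < δ / (4 * q) * X := by positivity
    linarith
  · intro p hp
    have h1 := hA'A₀ hp
    rw [hA₀, mem_filter] at h1
    rw [hA', mem_filter] at hp
    exact ⟨hp.2, h1.2.1⟩

lemma sum_biUnion_le' {ι : Type} [DecidableEq ι] (S : Finset ι) (B : ι → Finset ℕ) (f : ℕ → ℝ) (hf : ∀ n, 0 ≤ f n) :
    ∑ n ∈ S.biUnion B, f n ≤ ∑ i ∈ S, ∑ n ∈ B i, f n := by
  induction S using Finset.induction_on with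
  | empty => simp
  | insert a S ha ih =>
    rw [biUnion_insert, sum_insert ha]
    have h3 := sum_union_inter (s₁ := B a) (s₂ := S.biUnion B) (f := f)
    have h4 : 0 ≤ ∑ n ∈ B a ∩ S.biUnion B, f n := sum_nonneg fun n _ => hf n
    linarith

theorem denseP (hTwo : S_TwoP) (hSB : S_SBF) (hR : S_R) (hP : S_P) (b : ℕ) (hb : 2 ≤ b) (s B : ℕ) (δ θ' : ℝ) (hδ : 0 < δ) (hθ0 : 0 < θ') (hθ1 : θ' ≤ 1) :
    ∃ (D : ℕ) (κ : ℝ) (X₀ : ℕ), 0 < κ ∧ ∀ X : ℕ, X₀ ≤ X → ∀ σ : ℤ, (σ = 1 ∨ σ = -1) → ∀ A ⊆ Icc 1 X, (∀ p ∈ A, p.Prime) →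
    δ * (X / Real.log X) ≤ A.card → ∀ h : Fin s → ℕ, (∀ i, h i ≤ B * X) → (σ = -1 → ∀ i, X < h i) →
    ∃ L : Fin s → List ℕ, (∀ i, (L i).length ≤ D) ∧ (∀ i, (pows b (L i) : ℝ) ≤ θ' * X) ∧
      κ * X ≤ ∑ n ∈ A, ArithmeticFunction.vonMangoldt n * ∏ i, lamI (σ * (n : ℤ) + ((h i + pows b (L i) : ℕ) : ℤ)) := by
  classical
  obtain ⟨q, hq⟩ : ∃ q, q = b * (b - 1) := ⟨_, rfl⟩
  have hq1 : 1 ≤ q := by rw [hq]; exact Nat.mul_pos (by omega) (by omega)
  have hq0 : (0 : ℝ) < q := by exact_mod_cast (by omega : 0 < q)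
  have hq2 : 2 ∣ q := by
    rw [hq]
    have := Nat.even_mul_pred_self b
    exact this.two_dvd
  obtain ⟨κ₁, hκ₁⟩ : ∃ κ₁ : ℝ, κ₁ = δ / (4 * q) := ⟨_, rfl⟩
  have hκ10 : 0 < κ₁ := by rw [hκ₁]; positivity
  obtain ⟨κ₀, hκ₀⟩ : ∃ κ₀ : ℝ, κ₀ = κ₁ / (2 * 2 ^ s) := ⟨_, rfl⟩
  have hκ0 : 0 < κ₀ := by rw [hκ₀]; positivity
  obtain ⟨η₂, hη₂⟩ : ∃ η₂ : ℝ, η₂ = κ₁ / (8 * (s + 1)) := ⟨_, rfl⟩
  have hη20 : 0 < η₂ := by rw [hη₂]; positivity
  obtain ⟨E1, D, x1, hE1, hstage⟩ := stageS hSB hR hP b hb s (B + 2) (κ₀ / 2) (θ' / 3) (by positivity) (by positivity) (by linarith)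
  obtain ⟨r, hr⟩ := hTwo b hb (E1 + 1) η₂ hη20
  obtain ⟨x2, hx2⟩ := hr r le_rfl
  obtain ⟨x3, hx3⟩ := class_primes q hq1 δ hδ
  obtain ⟨x4, hx4⟩ := len_exists2 b hb r (B + 1) (θ' / 3) (by positivity)
  obtain ⟨x5, hx5⟩ : ∃ x5 : ℕ, Real.exp (q + 1) ≤ x5 := ⟨_, Nat.le_ceil _⟩
  obtain ⟨x6, hx6⟩ : ∃ x6 : ℕ, 3 * q / θ' ≤ x6 := ⟨_, Nat.le_ceil _⟩
  refine ⟨q + r + D, κ₀ / 2, x1 + x2 + x3 + x4 + x5 + x6 + 1, by positivity, fun X hX σ hσ A hA hAp hAc h hh hhσ => ?_⟩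
  have hX1 : 1 ≤ X := by omega
  have hX0 : (0 : ℝ) < X := by exact_mod_cast (by omega : 0 < X)
  have hlX : (q : ℝ) + 1 ≤ Real.log X := by
    rw [Real.le_log_iff_exp_le hX0]
    refine hx5.trans ?_
    exact_mod_cast (by omega : x5 ≤ X)
  have hqX : (q : ℝ) ≤ θ' / 3 * X := by
    have h1 : 3 * q / θ' ≤ (X : ℝ) := hx6.trans (by exact_mod_cast (by omega : x6 ≤ X))
    rw [div_le_iff₀ hθ0] at h1
    linarith
  obtain ⟨z, hz2, hz3, hz4, hst⟩ := hstage X (by omega)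
  obtain ⟨Y, hY1, hY2, hY3, hY4⟩ := hx4 X (by omega)
  have hzq : q ≤ z := by
    have h1 : Real.log X ^ 1 ≤ Real.log X ^ E1 := pow_le_pow_right₀ (by linarith) (by omega)
    rw [pow_one] at h1
    have h2 : (q : ℝ) ≤ z := by linarith
    exact_mod_cast h2
  -- the residue class and the corrections
  obtain ⟨ρ₀, A', hA'A, hA'ne, hA'c, hmu⟩ := hx3 X (by omega) A hA hAp hAc
  have hρodd : ρ₀ % 2 = 1 := by
    obtain ⟨p, hp⟩ := hA'ne
    obtain ⟨h1, h2⟩ := hA'c p hp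
    have h3 : p ≠ 2 := fun h4 => h2 (by rw [h4]; exact hq2)
    have h4 : p % 2 = 1 := (hAp p (hA'A hp)).eq_two_or_odd.resolve_left h3
    rw [← h1, Nat.mod_mod_of_dvd p hq2]
    exact h4
  have hqz : (0 : ℤ) < q := by exact_mod_cast (by omega : 0 < q)
  have hu : ∀ i : Fin s, ∃ u : ℕ, u < q ∧ (q : ℤ) ∣ σ * ρ₀ + (((h i + u + D * b : ℕ) : ℤ)) + ((r * b : ℕ) : ℤ) - 1 := by
    intro i
    obtain ⟨v, hv⟩ : ∃ v : ℤ, v = (1 - (σ * ρ₀ + ((h i + D * b : ℕ) : ℤ) + ((r * b : ℕ) : ℤ))) % q := ⟨_, rfl⟩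
    have hv0 : 0 ≤ v := by rw [hv]; exact Int.emod_nonneg _ hqz.ne'
    have hvq : v < q := by rw [hv]; exact Int.emod_lt_of_pos _ hqz
    refine ⟨v.toNat, by omega, ?_⟩
    have e1 : ((v.toNat : ℕ) : ℤ) = v := Int.toNat_of_nonneg hv0
    have e2 : σ * (ρ₀ : ℤ) + (((h i + v.toNat + D * b : ℕ) : ℤ)) + ((r * b : ℕ) : ℤ) - 1 =
        v - (1 - (σ * ρ₀ + ((h i + D * b : ℕ) : ℤ) + ((r * b : ℕ) : ℤ))) := by
      push_cast
      rw [e1]
      ring
    rw [e2, hv]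
    exact (Int.mod_modEq _ _).symm.dvd
  choose u hu1 hu2 using hu
  -- the choice of the powers
  obtain ⟨θ, hθ⟩ : ∃ θ : ℤ → ℝ, θ = fun n => if n.toNat ∈ A' then 1 else 0 := ⟨_, rfl⟩
  have hθn : ∀ n : ℕ, θ (n : ℤ) = if n ∈ A' then 1 else 0 := by
    intro n
    rw [hθ]
    simp only [Int.toNat_natCast]
  obtain ⟨L, hL1, hL2, hL3, hL4⟩ := hst true σ hσ θ (fun n => by
    rw [hθ]
    simp only
    split_ifs <;> simp) (Fin s → (Fin r → Fin Y)) univ (fun ν i => ((h i + u i + DD b (ν i) : ℕ) : ℤ)) (fun ν _ i => by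
    rw [abs_of_nonneg (by positivity)]
    have h1 : DD b (ν i) ≤ X := by
      have h2 : ((DD b (ν i) : ℕ) : ℝ) ≤ (r : ℝ) * (b : ℝ) ^ Y := by exact_mod_cast DD_le b hb (ν i)
      have h3 : ((DD b (ν i) : ℕ) : ℝ) ≤ X := by nlinarith
      exact_mod_cast h3
    have h4 : u i ≤ X := by
      have h5 : (u i : ℝ) ≤ q := by exact_mod_cast (hu1 i).le
      have h6 : (u i : ℝ) ≤ X := by nlinarith
      exact_mod_cast h6
    have h7 := hh i
    have h8 : h i + u i + DD b (ν i) ≤ (B + 2) * X := by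
      calc h i + u i + DD b (ν i) ≤ B * X + X + X := by omega
        _ = (B + 2) * X := by ring
    exact_mod_cast h8)
  have hTc : (((univ : Finset (Fin s → (Fin r → Fin Y))).card : ℕ) : ℝ) = ((Y : ℝ) ^ r) ^ s := by
    rw [card_univ, Fintype.card_fun, Fintype.card_fun, Fintype.card_fin, Fintype.card_fin, Fintype.card_fin]
    push_cast
    rfl
  have hYr : (0 : ℝ) < (Y : ℝ) ^ r := by
    have : (0 : ℝ) < Y := by exact_mod_cast (by omega : 0 < Y)
    positivity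
  obtain ⟨a, ha⟩ : ∃ a : Fin s → ℕ, a = fun i => h i + u i + pows b (L i) := ⟨_, rfl⟩
  -- the main term
  have hmain : ∑ ν : Fin s → (Fin r → Fin Y), ∑ n ∈ Icc 1 X, θ (n : ℤ) * (g0 true n * ∏ i, lamzI z (σ * (n : ℤ) + (((h i + u i + DD b (ν i) : ℕ) : ℤ) + (pows b (L i) : ℤ)))) =
      ((Y : ℝ) ^ r) ^ s * ∑ n ∈ A', ArithmeticFunction.vonMangoldt n * ∏ i, FF b r Y z (σ * (n : ℤ) + (a i : ℤ)) := by
    rw [sum_comm, mul_sum]
    have e1 : ∑ n ∈ A', ((Y : ℝ) ^ r) ^ s * (ArithmeticFunction.vonMangoldt n * ∏ i, FF b r Y z (σ * (n : ℤ) + (a i : ℤ))) =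
        ∑ n ∈ Icc 1 X, θ (n : ℤ) * (((Y : ℝ) ^ r) ^ s * (ArithmeticFunction.vonMangoldt n * ∏ i, FF b r Y z (σ * (n : ℤ) + (a i : ℤ)))) := by
      have e2 : A' = (Icc 1 X).filter (fun n => n ∈ A') := by
        ext n
        rw [mem_filter]
        exact ⟨fun hn => ⟨hA (hA'A hn), hn⟩, fun hn => hn.2⟩
      conv_lhs => rw [e2]
      rw [sum_filter]
      apply sum_congr rfl
      intro n _
      rw [hθn]
      split_ifs <;> simp
    rw [e1]
    apply sum_congr rfl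
    intro n _
    rw [← mul_sum]
    congr 1
    have e3 : ∀ ν : Fin s → (Fin r → Fin Y), g0 true n * ∏ i, lamzI z (σ * (n : ℤ) + (((h i + u i + DD b (ν i) : ℕ) : ℤ) + (pows b (L i) : ℤ))) =
        ArithmeticFunction.vonMangoldt n * ∏ i, lamzI z ((σ * (n : ℤ) + (a i : ℤ)) + (DD b (ν i) : ℤ)) := by
      intro ν
      unfold g0
      rw [if_pos rfl]
      congr 1
      apply prod_congr rfl
      intro i _
      congr 1
      rw [ha]
      push_cast
      ring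
    simp only [e3]
    rw [← mul_sum, mul_left_comm]
    congr 1
    have e4 := prod_univ_sum (fun _ : Fin s => (univ : Finset (Fin r → Fin Y))) (fun i ν => lamzI z ((σ * (n : ℤ) + (a i : ℤ)) + (DD b ν : ℤ)))
    rw [Fintype.piFinset_univ] at e4
    rw [← e4]
    have e5 : ((Y : ℝ) ^ r) ^ s = ∏ _i : Fin s, (Y : ℝ) ^ r := by rw [prod_const, card_univ, Fintype.card_fin]
    rw [e5, ← prod_mul_distrib]
    apply prod_congr rfl
    intro i _
    unfold FF
    field_simp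
  -- the lower bound for the main term
  have hcong : ∀ n ∈ A', ∀ i, (q : ℤ) ∣ σ * (n : ℤ) + (a i : ℤ) + ((r * b : ℕ) : ℤ) - 1 := by
    intro n hn i
    have h1 : (q : ℤ) ∣ (n : ℤ) - (ρ₀ : ℤ) := by
      have h2 : (ρ₀ : ℤ) ≡ (n : ℤ) [ZMOD (q : ℤ)] := by
        rw [Int.natCast_modEq_iff, ← (hA'c n hn).1]
        exact Nat.mod_modEq _ _
      exact h2.dvd
    have h3 : (q : ℤ) ∣ (pows b (L i) : ℤ) - ((D * b : ℕ) : ℤ) := by
      have h4 := pows_mod_q b hb (L i) (hL2 i)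
      rw [hL1 i, ← hq] at h4
      exact ((Int.natCast_modEq_iff).2 h4.symm).dvd
    have h5 := dvd_add (dvd_add (hu2 i) (dvd_mul_of_dvd_right h1 σ)) h3
    refine dvd_trans (dvd_of_eq rfl) (Eq.mp ?_ h5)
    congr 1
    rw [ha]
    push_cast
    ring
  have hPhi : ∀ n ∈ A', ∀ i, 1 ≤ Phi b r (σ * (n : ℤ) + (a i : ℤ)) := by
    intro n hn i
    unfold Phi
    have h4 := hcong n hn i
    have h6 : Int.gcd (σ * (n : ℤ) + (a i : ℤ) + ((r * b : ℕ) : ℤ)) ((b * (b - 1) : ℕ) : ℤ) = 1 := by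
      rw [← hq]
      have h7 : ((Int.gcd (σ * (n : ℤ) + (a i : ℤ) + ((r * b : ℕ) : ℤ)) (q : ℤ) : ℕ) : ℤ) ∣ 1 := by
        have h8 := Int.gcd_dvd_left (a := σ * (n : ℤ) + (a i : ℤ) + ((r * b : ℕ) : ℤ)) (b := (q : ℤ))
        have h9 := Int.gcd_dvd_right (a := σ * (n : ℤ) + (a i : ℤ) + ((r * b : ℕ) : ℤ)) (b := (q : ℤ))
        have h10 := dvd_sub h8 (h9.trans h4)
        have e : σ * (n : ℤ) + (a i : ℤ) + ((r * b : ℕ) : ℤ) - (σ * (n : ℤ) + (a i : ℤ) + ((r * b : ℕ) : ℤ) - 1) = 1 := by ring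
        rwa [e] at h10
      have h11 := Int.eq_one_of_dvd_one (Int.natCast_nonneg _) h7
      exact_mod_cast h11
    rw [if_pos h6]
    have h7 : ∀ p ∈ (b * (b - 1)).primeFactors, (1 : ℝ) ≤ (1 - 1 / (p : ℝ))⁻¹ := by
      intro p hp
      have hp2 := (Nat.prime_of_mem_primeFactors hp).two_le
      have hp0 : (2 : ℝ) ≤ p := by exact_mod_cast hp2
      have h8 : 0 < 1 - 1 / (p : ℝ) := by
        rw [sub_pos, div_lt_one (by linarith)]
        linarith
      rw [one_le_inv₀ h8]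
      have : 0 ≤ 1 / (p : ℝ) := by positivity
      linarith
    calc (1 : ℝ) = ∏ _p ∈ (b * (b - 1)).primeFactors, (1 : ℝ) := by rw [prod_const_one]
      _ ≤ _ := prod_le_prod (fun _ _ => zero_le_one) h7
  have haX : ∀ i, a i ≤ (B + 1) * X := by
    intro i
    have h1 : (a i : ℝ) ≤ (B + 1) * X := by
      rw [ha]
      push_cast
      have e1 : (h i : ℝ) ≤ B * X := by exact_mod_cast hh i
      have e2 : (u i : ℝ) ≤ q := by exact_mod_cast (hu1 i).le
      have e3 := hL3 i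
      have e4 : θ' / 3 * X + θ' / 3 * X ≤ X := by nlinarith
      linarith
    exact_mod_cast h1
  obtain ⟨Bad, hBad⟩ : ∃ Bad : Fin s → Finset ℕ, Bad = fun i => (Icc 1 X).filter (fun n : ℕ => 1 / 2 < |FF b r Y z (σ * (n : ℤ) + (a i : ℤ)) - Phi b r (σ * (n : ℤ) + (a i : ℤ))|) := ⟨_, rfl⟩
  have hBadc : ∀ i, ∑ n ∈ Bad i, ArithmeticFunction.vonMangoldt n ≤ 4 * η₂ * X := by
    intro i
    have h1 := hx2 X (by omega) Y z hY3 (by rw [← hq]; exact hzq) hz4 σ hσ (a i : ℤ) (by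
      rw [abs_of_nonneg (by positivity)]
      exact_mod_cast (haX i).trans hY4) (by
      have h0 : (0 : ℤ) ≤ a i := by positivity
      rcases hσ with h2 | h2
      · rw [h2]; omega
      · have h3 := hhσ h2 i
        have h4 : h i ≤ a i := by rw [ha]; simp only; omega
        rw [h2]; omega) (by
      have h0 : (0 : ℤ) ≤ a i := by positivity
      rcases hσ with h2 | h2
      · rw [h2, one_mul]; omega
      · have h3 := hhσ h2 i
        have h4 : h i ≤ a i := by rw [ha]; simp only; omega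
        rw [h2]; omega) (by
      obtain ⟨p, hp⟩ := hA'ne
      have h2 := (Int.natCast_dvd_natCast.2 hq2).trans (hcong p hp i)
      have h3 : (p : ℤ) % 2 = 1 := by
        have h4 := (hA'c p hp).1
        have h5 : p % 2 = 1 := by rw [← Nat.mod_mod_of_dvd p hq2, h4]; exact hρodd
        omega
      rcases hσ with h4 | h4
      · rw [h4, one_mul] at h2
        omega
      · rw [h4] at h2
        omega)
    have h2 : (∑ n ∈ Bad i, ArithmeticFunction.vonMangoldt n) * (1 / 4) ≤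
        ∑ n ∈ Icc 1 X, ArithmeticFunction.vonMangoldt n * (FF b r Y z (σ * (n : ℤ) + (a i : ℤ)) - Phi b r (σ * (n : ℤ) + (a i : ℤ))) ^ 2 := by
      rw [sum_mul]
      calc ∑ n ∈ Bad i, ArithmeticFunction.vonMangoldt n * (1 / 4)
          ≤ ∑ n ∈ Bad i, ArithmeticFunction.vonMangoldt n * (FF b r Y z (σ * (n : ℤ) + (a i : ℤ)) - Phi b r (σ * (n : ℤ) + (a i : ℤ))) ^ 2 := by
            apply sum_le_sum
            intro n hn
            rw [hBad] at hn
            have h3 := (mem_filter.1 hn).2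
            apply mul_le_mul_of_nonneg_left _ ArithmeticFunction.vonMangoldt_nonneg
            rw [← sq_abs]
            nlinarith
        _ ≤ _ := by
            apply sum_le_sum_of_subset_of_nonneg
            · rw [hBad]; exact filter_subset _ _
            · intro n _ _
              exact mul_nonneg ArithmeticFunction.vonMangoldt_nonneg (sq_nonneg _)
    linarith
  obtain ⟨Gd, hGd⟩ : ∃ Gd, Gd = A' \ (univ.biUnion Bad) := ⟨_, rfl⟩
  have hGdc : κ₁ / 2 * X ≤ ∑ n ∈ Gd, ArithmeticFunction.vonMangoldt n := by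
    have h1 : ∑ n ∈ A', ArithmeticFunction.vonMangoldt n ≤ ∑ n ∈ Gd, ArithmeticFunction.vonMangoldt n + ∑ n ∈ univ.biUnion Bad, ArithmeticFunction.vonMangoldt n := by
      have h2 : A' ⊆ Gd ∪ univ.biUnion Bad := by
        rw [hGd, sdiff_union_self_eq_union]
        exact subset_union_left
      refine (sum_le_sum_of_subset_of_nonneg h2 fun n _ _ => ArithmeticFunction.vonMangoldt_nonneg).trans ?_
      have h3 := sum_union_inter (s₁ := Gd) (s₂ := univ.biUnion Bad) (f := fun n => (ArithmeticFunction.vonMangoldt n : ℝ))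
      have h4 : 0 ≤ ∑ n ∈ Gd ∩ univ.biUnion Bad, (ArithmeticFunction.vonMangoldt n : ℝ) := sum_nonneg fun n _ => ArithmeticFunction.vonMangoldt_nonneg
      linarith
    have h2 : ∑ n ∈ univ.biUnion Bad, ArithmeticFunction.vonMangoldt n ≤ s * (4 * η₂ * X) := by
      calc ∑ n ∈ univ.biUnion Bad, ArithmeticFunction.vonMangoldt n ≤ ∑ i, ∑ n ∈ Bad i, ArithmeticFunction.vonMangoldt n :=
            sum_biUnion_le' univ Bad (fun n => ArithmeticFunction.vonMangoldt n) (fun n => ArithmeticFunction.vonMangoldt_nonneg)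
        _ ≤ ∑ _i : Fin s, 4 * η₂ * X := sum_le_sum fun i _ => hBadc i
        _ = s * (4 * η₂ * X) := by rw [sum_const, nsmul_eq_mul, card_univ, Fintype.card_fin]
    have h5 : s * (4 * η₂ * X) ≤ κ₁ / 2 * X := by
      rw [hη₂]
      have e1 : (s : ℝ) * (4 * (κ₁ / (8 * (s + 1))) * X) = (s / (s + 1)) * (κ₁ / 2 * X) := by
        field_simp
        ring
      rw [e1]
      have e2 : (s : ℝ) / (s + 1) ≤ 1 := by
        rw [div_le_one (by positivity)]
        linarith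
      have e3 : 0 ≤ κ₁ / 2 * X := by positivity
      nlinarith
    rw [← hκ₁] at hmu
    have h6 : κ₁ * X = κ₁ / 2 * X + κ₁ / 2 * X := by ring
    linarith
  have hlow : κ₀ * X ≤ ∑ n ∈ A', ArithmeticFunction.vonMangoldt n * ∏ i, FF b r Y z (σ * (n : ℤ) + (a i : ℤ)) := by
    calc κ₀ * X = κ₁ / 2 * X * (1 / 2) ^ s := by
          rw [hκ₀, one_div, inv_pow]
          field_simp
      _ ≤ (∑ n ∈ Gd, ArithmeticFunction.vonMangoldt n) * (1 / 2) ^ s := mul_le_mul_of_nonneg_right hGdc (by positivity)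
      _ = ∑ n ∈ Gd, ArithmeticFunction.vonMangoldt n * (1 / 2 : ℝ) ^ s := by rw [sum_mul]
      _ ≤ ∑ n ∈ Gd, ArithmeticFunction.vonMangoldt n * ∏ i, FF b r Y z (σ * (n : ℤ) + (a i : ℤ)) := by
          apply sum_le_sum
          intro n hn
          rw [hGd, mem_sdiff, mem_biUnion] at hn
          obtain ⟨hn1, hn2⟩ := hn
          apply mul_le_mul_of_nonneg_left _ ArithmeticFunction.vonMangoldt_nonneg
          calc (1 / 2 : ℝ) ^ s = ∏ _i : Fin s, (1 / 2 : ℝ) := by rw [prod_const, card_univ, Fintype.card_fin]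
            _ ≤ _ := by
                apply prod_le_prod (fun _ _ => by norm_num)
                intro i _
                have h1 : n ∉ Bad i := fun h => hn2 ⟨i, mem_univ i, h⟩
                rw [hBad, mem_filter] at h1
                push Not at h1
                have h2 := h1 (hA (hA'A hn1))
                have h3 := hPhi n hn1 i
                have h4 := (abs_le.1 h2).1
                linarith
      _ ≤ _ := by
          apply sum_le_sum_of_subset_of_nonneg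
          · rw [hGd]; exact sdiff_subset
          · intro n _ _
            exact mul_nonneg ArithmeticFunction.vonMangoldt_nonneg (prod_nonneg fun i _ => FF_nonneg _ _ _ _ _)
  -- the primes
  have hdiff : ((Y : ℝ) ^ r) ^ s * (κ₀ / 2 * X) ≤
      ∑ ν : Fin s → (Fin r → Fin Y), ∑ n ∈ Icc 1 X, θ (n : ℤ) * (g0 true n * ∏ i, lamI (σ * (n : ℤ) + (((h i + u i + DD b (ν i) : ℕ) : ℤ) + (pows b (L i) : ℤ)))) := by
    have h1 : |∑ ν : Fin s → (Fin r → Fin Y), (∑ n ∈ Icc 1 X, θ (n : ℤ) * (g0 true n * ∏ i, lamI (σ * (n : ℤ) + (((h i + u i + DD b (ν i) : ℕ) : ℤ) + (pows b (L i) : ℤ)))) -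
        ∑ n ∈ Icc 1 X, θ (n : ℤ) * (g0 true n * ∏ i, lamzI z (σ * (n : ℤ) + (((h i + u i + DD b (ν i) : ℕ) : ℤ) + (pows b (L i) : ℤ)))))| ≤
        κ₀ / 2 * X * ((Y : ℝ) ^ r) ^ s := by
      refine (abs_sum_le_sum_abs _ _).trans ?_
      rw [hTc] at hL4
      refine le_trans (le_of_eq ?_) hL4
      apply sum_congr rfl
      intro ν _
      congr 1
      rw [← sum_sub_distrib]
      apply sum_congr rfl
      intro n _
      ring
    rw [sum_sub_distrib, hmain] at h1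
    have h2 := (abs_le.1 h1).1
    have h3 := mul_le_mul_of_nonneg_left hlow (show 0 ≤ ((Y : ℝ) ^ r) ^ s by positivity)
    have h4 : ((Y : ℝ) ^ r) ^ s * (κ₀ * X) = ((Y : ℝ) ^ r) ^ s * (κ₀ / 2 * X) + κ₀ / 2 * X * ((Y : ℝ) ^ r) ^ s := by ring
    linarith
  have hne : (univ : Finset (Fin s → (Fin r → Fin Y))).Nonempty := ⟨fun _ _ => ⟨0, by omega⟩, mem_univ _⟩
  obtain ⟨ν, _, hν⟩ : ∃ ν ∈ (univ : Finset (Fin s → (Fin r → Fin Y))), κ₀ / 2 * X ≤
      ∑ n ∈ Icc 1 X, θ (n : ℤ) * (g0 true n * ∏ i, lamI (σ * (n : ℤ) + (((h i + u i + DD b (ν i) : ℕ) : ℤ) + (pows b (L i) : ℤ)))) := by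
    apply exists_le_of_sum_le hne
    rw [sum_const, nsmul_eq_mul, hTc]
    exact hdiff
  -- the result
  obtain ⟨L', hL'⟩ : ∃ L' : Fin s → List ℕ, L' = fun i => List.replicate (u i) 0 ++ (exD (ν i) ++ L i) := ⟨_, rfl⟩
  have hpw : ∀ i, pows b (L' i) = u i + (DD b (ν i) + pows b (L i)) := by
    intro i
    rw [hL']
    simp only
    rw [pows_append, pows_append, pows_zero, exD_pows]
  refine ⟨L', fun i => ?_, fun i => ?_, ?_⟩
  · rw [hL']
    simp only
    rw [List.length_append, List.length_append, List.length_replicate, exD_len, hL1 i]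
    have := hu1 i
    omega
  · rw [hpw i]
    push_cast
    have h1 := hL3 i
    have h2 : ((DD b (ν i) : ℕ) : ℝ) ≤ (r : ℝ) * (b : ℝ) ^ Y := by exact_mod_cast DD_le b hb (ν i)
    have h3 : (u i : ℝ) ≤ q := by exact_mod_cast (hu1 i).le
    linarith
  · refine hν.trans ?_
    have e1 : ∑ n ∈ Icc 1 X, θ (n : ℤ) * (g0 true n * ∏ i, lamI (σ * (n : ℤ) + (((h i + u i + DD b (ν i) : ℕ) : ℤ) + (pows b (L i) : ℤ)))) =
        ∑ n ∈ A', ArithmeticFunction.vonMangoldt n * ∏ i, lamI (σ * (n : ℤ) + ((h i + pows b (L' i) : ℕ) : ℤ)) := by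
      have e2 : A' = (Icc 1 X).filter (fun n => n ∈ A') := by
        ext n
        rw [mem_filter]
        exact ⟨fun hn => ⟨hA (hA'A hn), hn⟩, fun hn => hn.2⟩
      conv_rhs => rw [e2]
      rw [sum_filter]
      apply sum_congr rfl
      intro n hn
      rw [hθn]
      split_ifs with h5
      · rw [one_mul]
        unfold g0
        rw [if_pos rfl]
        congr 1
        apply prod_congr rfl
        intro i _
        congr 1
        rw [hpw i]
        push_cast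
        ring
      · rw [zero_mul]
    rw [e1]
    exact sum_le_sum_of_subset_of_nonneg hA'A (fun n _ _ => mul_nonneg ArithmeticFunction.vonMangoldt_nonneg (prod_nonneg fun i _ => lamI_nonneg _))

end Pool.Agent.Y820.LD
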