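import Pool.Agent.Y820.LD.E

set_option autoImplicit false

/-! Prime tuples in dense sets of primes: the number of the primes. -/

namespace Pool.Agent.Y820.LD
open Finset
open Pool.Agent.H373R2.T7 (lamI lamzI lamz Vz Vz_pos Vz_inv_small lamI_nonneg lamzI_nonneg)
open Pool.Agent.Y820.LT (S_R S_P)
open Pool.Agent.Y820.LF (S_SBF g0 g0_nonneg)

/-- prime tuples with one prime in a dense set -/
theorem denseP1 (hTwo : S_TwoP) (hV : S_tr2) (hSB : S_SBF) (hR : S_R) (hP : S_P) (b : ℕ) (hb : 2 ≤ b) (s B : ℕ) (δ θ' : ℝ) (hδ : 0 < δ) (hθ0 : 0 < θ') (hθ1 : θ' ≤ 1) :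
    ∃ (D : ℕ) (c : ℝ) (X₀ : ℕ), 0 < c ∧ ∀ X : ℕ, X₀ ≤ X → ∀ A ⊆ Icc 1 X, (∀ p ∈ A, p.Prime) →
    δ * (X / Real.log X) ≤ A.card → ∀ h : Fin s → ℕ, (∀ i, h i ≤ B * X) →
    ∃ L : Fin s → List ℕ, (∀ i, (L i).length ≤ D) ∧ (∀ i, (pows b (L i) : ℝ) ≤ θ' * X) ∧
      c * (X / Real.log X ^ (s + 1)) ≤ ((A.filter (fun n => ∀ i, (n + (h i + pows b (L i))).Prime)).card : ℝ) := by
  classical
  obtain ⟨D, κ, x1, hκ, hmain⟩ := denseP hTwo hSB hR hP b hb s B δ θ' hδ hθ0 hθ1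
  obtain ⟨x2, hx2⟩ := hV (s + 1) (B + 1) κ hκ
  refine ⟨D, κ / 2 ^ (s + 1 + 1), x1 + x2 + 1, by positivity, fun X hX A hA hAp hAc h hh => ?_⟩
  have hX0 : (0 : ℝ) < X := by exact_mod_cast (by omega : 0 < X)
  obtain ⟨L, hL1, hL2, hL3⟩ := hmain X (by omega) 1 (Or.inl rfl) A hA hAp hAc h hh (fun h1 => absurd h1 (by norm_num))
  have hsz : ∀ i, pows b (L i) ≤ X := by
    intro i
    have h3 := (hL2 i).trans (mul_le_mul_of_nonneg_right hθ1 hX0.le)
    rw [one_mul] at h3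
    exact_mod_cast h3
  refine ⟨L, hL1, hL2, ?_⟩
  have h1 := hx2 X (by omega) A hA (Fin.cons 0 (fun i => h i + pows b (L i))) (fun i => by
    refine Fin.cases ?_ (fun i => ?_) i
    · rw [Fin.cons_zero]; exact Nat.zero_le _
    · rw [Fin.cons_succ]
      have h2 := hsz i
      have h4 := hh i
      calc h i + pows b (L i) ≤ B * X + X := by omega
        _ = (B + 1) * X := by ring) ?_
  · refine h1.trans ?_
    have h2 : A.filter (fun n => ∀ i, (n + (Fin.cons 0 (fun i => h i + pows b (L i)) : Fin (s + 1) → ℕ) i).Prime) ⊆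
        A.filter (fun n => ∀ i, (n + (h i + pows b (L i))).Prime) := by
      intro n hn
      rw [mem_filter] at hn ⊢
      refine ⟨hn.1, fun i => ?_⟩
      have := hn.2 i.succ
      rwa [Fin.cons_succ] at this
    exact_mod_cast card_le_card h2
  · refine hL3.trans (le_of_eq ?_)
    apply sum_congr rfl
    intro n hn
    rw [Fin.prod_univ_succ, Fin.cons_zero, add_zero]
    congr 1
    apply prod_congr rfl
    intro i _
    rw [Fin.cons_succ]
    have hn1 := (mem_Icc.1 (hA hn)).1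
    have e : 1 * (n : ℤ) + ((h i + pows b (L i) : ℕ) : ℤ) = ((n + (h i + pows b (L i)) : ℕ) : ℤ) := by push_cast; ring
    rw [e]
    unfold lamI
    rw [if_pos (by exact_mod_cast (by omega : 1 ≤ n + (h i + pows b (L i)))), Int.toNat_natCast]

/-- Goldbach representations with one prime in a dense set -/
theorem denseM (hTwo : S_TwoP) (hV : S_tr2m) (hSB : S_SBF) (hR : S_R) (hP : S_P) (b : ℕ) (hb : 2 ≤ b) (s B : ℕ) (δ θ' : ℝ) (hδ : 0 < δ) (hθ0 : 0 < θ') (hθ1 : θ' ≤ 1) :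
    ∃ (D : ℕ) (c : ℝ) (X₀ : ℕ), 0 < c ∧ ∀ X : ℕ, X₀ ≤ X → ∀ A ⊆ Icc 1 X, (∀ p ∈ A, p.Prime) →
    δ * (X / Real.log X) ≤ A.card → ∀ h : Fin s → ℕ, (∀ i, X < h i ∧ h i ≤ B * X) →
    ∃ L : Fin s → List ℕ, (∀ i, (L i).length ≤ D) ∧ (∀ i, (pows b (L i) : ℝ) ≤ θ' * X) ∧
      c * (X / Real.log X ^ (s + 1)) ≤ ((A.filter (fun n => ∀ i, (h i + pows b (L i) - n).Prime)).card : ℝ) := by
  classical
  obtain ⟨D, κ, x1, hκ, hmain⟩ := denseP hTwo hSB hR hP b hb s B δ θ' hδ hθ0 hθ1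
  obtain ⟨x2, hx2⟩ := hV s (B + 1) κ hκ
  refine ⟨D, κ / 2 ^ (s + 2), x1 + x2 + 1, by positivity, fun X hX A hA hAp hAc h hh => ?_⟩
  have hX0 : (0 : ℝ) < X := by exact_mod_cast (by omega : 0 < X)
  obtain ⟨L, hL1, hL2, hL3⟩ := hmain X (by omega) (-1) (Or.inr rfl) A hA hAp hAc h (fun i => (hh i).2) (fun _ i => (hh i).1)
  have hsz : ∀ i, pows b (L i) ≤ X := by
    intro i
    have h3 := (hL2 i).trans (mul_le_mul_of_nonneg_right hθ1 hX0.le)
    rw [one_mul] at h3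
    exact_mod_cast h3
  refine ⟨L, hL1, hL2, ?_⟩
  have h1 := hx2 X (by omega) A hA (fun i => h i + pows b (L i)) (fun i => by
    have h2 := hsz i
    have h4 := hh i
    refine ⟨by omega, ?_⟩
    calc h i + pows b (L i) ≤ B * X + X := by omega
      _ = (B + 1) * X := by ring) ?_
  · refine h1.trans ?_
    have h2 : A.filter (fun n => n.Prime ∧ ∀ i, (h i + pows b (L i) - n).Prime) ⊆ A.filter (fun n => ∀ i, (h i + pows b (L i) - n).Prime) := by
      intro n hn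
      rw [mem_filter] at hn ⊢
      exact ⟨hn.1, hn.2.2⟩
    exact_mod_cast card_le_card h2
  · refine hL3.trans (le_of_eq ?_)
    apply sum_congr rfl
    intro n hn
    congr 1
    apply prod_congr rfl
    intro i _
    have hn1 := (mem_Icc.1 (hA hn)).2
    have h4 := (hh i).1
    have e : -1 * (n : ℤ) + ((h i + pows b (L i) : ℕ) : ℤ) = ((h i + pows b (L i) - n : ℕ) : ℤ) := by omega
    rw [e]
    unfold lamI
    rw [if_pos (by exact_mod_cast (by omega : 1 ≤ h i + pows b (L i) - n)), Int.toNat_natCast]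

end Pool.Agent.Y820.LD
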