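import Pool.Agent.Y820.LD.Stm
import Pool.Agent.Y438.LD.A4

/-!
# LD-R (helper438 for helper820, job 8847): the mean value of the local factors

The proof is in the files `Pool/Agent/Y438/LD/A1.lean` to `A4.lean`.
-/

set_option autoImplicit false

namespace Pool.Agent.Y820.LD

/-- LD-R -/
theorem t_Rom : S_Rom := by
  intro b hb E η hη
  obtain ⟨r0, h⟩ := Pool.Agent.Y438.LD.rom b hb E η hη
  refine ⟨r0, fun r hr => ?_⟩
  obtain ⟨Y0, h'⟩ := h r hr
  exact ⟨Y0, fun Y hY z hz => h' Y hY z hz⟩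

end Pool.Agent.Y820.LD
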