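import Pool.Agent.Y820.LD.T1
import Pool.Agent.Y820.LF.M0

set_option autoImplicit false

/-!
# Project LD (helper820), task LD-T (by helper383)
-/

namespace Pool.Agent.Y820.LD

theorem t_Two (hR : S_Rom) : S_Two := TwoPf.two_of Pool.Agent.Y820.LF.t_main0 hR

end Pool.Agent.Y820.LD
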