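import Pool.Agent.Y820.LD.Stm

set_option autoImplicit false

/-!
# Project LD (helper820), task LD-T (by helper383): the averaged sieve model and its local part
-/

namespace Pool.Agent.Y820.LD.TwoPf
open Finset
open Pool.Agent.H373R2.T7 (lamI lamzI lamz Vz pz)
open Pool.Agent.Y820.LF (nuF singF AdmF PosF S_main0)

/-- the local factor at the primes dividing `q` -/
noncomputable def PP (q : ℕ) : ℝ := ∏ p ∈ q.primeFactors, (1 - 1 / (p : ℝ))⁻¹

lemma one_sub_pos {p : ℕ} (hp : p.Prime) : 0 < 1 - 1 / (p : ℝ) := by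
  have h1 : (1 : ℝ) < p := by exact_mod_cast hp.one_lt
  have h2 : 1 / (p : ℝ) < 1 := by
    rw [div_lt_one (by linarith)]
    exact h1
  linarith

lemma PP_pos (q : ℕ) : 0 < PP q :=
  prod_pos fun _ hp => inv_pos.2 (one_sub_pos (Nat.prime_of_mem_primeFactors hp))

lemma PP_tot (q : ℕ) : PP q * (q.totient : ℝ) = q := by
  have h := congrArg (fun x : ℚ => (x : ℝ)) (Nat.totient_eq_mul_prod_factors q)
  simp only [Rat.cast_natCast, Rat.cast_mul, Rat.cast_prod, Rat.cast_sub, Rat.cast_one,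
    Rat.cast_inv] at h
  rw [h]
  have h2 : PP q * ∏ p ∈ q.primeFactors, (1 - ((p : ℝ))⁻¹) = 1 := by
    unfold PP
    rw [← prod_mul_distrib]
    refine prod_eq_one fun p hp => ?_
    have h3 := one_sub_pos (Nat.prime_of_mem_primeFactors hp)
    rw [one_div] at h3 ⊢
    exact inv_mul_cancel₀ h3.ne'
  rw [mul_left_comm, h2, mul_one]

lemma dvd_DD (b : ℕ) (hb : 1 ≤ b) {r Y : ℕ} (ν : Fin r → Fin Y) :
    ((b * (b - 1) : ℕ) : ℤ) ∣ (DD b ν : ℤ) - ((r * b : ℕ) : ℤ) := by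
  have h1 : (DD b ν : ℤ) - ((r * b : ℕ) : ℤ) = ∑ j : Fin r, (b : ℤ) * ((b : ℤ) ^ (ν j : ℕ) - 1) := by
    unfold DD
    push_cast
    simp only [mul_sub, mul_one, sum_sub_distrib, sum_const, card_univ, Fintype.card_fin,
      nsmul_eq_mul, pow_succ]
    congr 1
    exact sum_congr rfl fun j _ => mul_comm _ _
  rw [h1]
  refine dvd_sum fun j _ => ?_
  rw [Nat.cast_mul, Nat.cast_sub hb, Nat.cast_one]
  refine mul_dvd_mul_left _ ?_
  have := sub_dvd_pow_sub_pow (b : ℤ) 1 (ν j : ℕ)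
  rwa [one_pow] at this

lemma dvd_DD2 (b : ℕ) (hb : 1 ≤ b) {r Y : ℕ} (ν ν' : Fin r → Fin Y) :
    ((b * (b - 1) : ℕ) : ℤ) ∣ (DD b ν : ℤ) - (DD b ν' : ℤ) := by
  have := dvd_sub (dvd_DD b hb ν) (dvd_DD b hb ν')
  rwa [sub_sub_sub_cancel_right] at this

/-- the residue -/
def rho (p : ℕ) (x : ℤ) : ℕ := ((-x) % (p : ℤ)).toNat

lemma rho_lt {p : ℕ} (hp : 0 < p) (x : ℤ) : rho p x < p := by
  unfold rho
  have h1 : (0 : ℤ) < p := by exact_mod_cast hp
  have h2 := Int.emod_lt_of_pos (-x) h1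
  have h3 := Int.emod_nonneg (-x) h1.ne'
  omega

lemma rho_coe {p : ℕ} (hp : 0 < p) (x : ℤ) : (rho p x : ℤ) = (-x) % (p : ℤ) := by
  unfold rho
  have h1 : (0 : ℤ) < p := by exact_mod_cast hp
  exact Int.toNat_of_nonneg (Int.emod_nonneg (-x) h1.ne')

lemma dvd_iff_rho {p : ℕ} (hp : 0 < p) (x : ℤ) {r : ℕ} (hr : r < p) :
    (p : ℤ) ∣ (r : ℤ) + x ↔ r = rho p x := by
  have h1 : (0 : ℤ) < p := by exact_mod_cast hp
  have h0 := rho_coe hp x
  constructor
  · intro h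
    have h2 : (r : ℤ) % p = (-x) % p := by
      rw [Int.emod_eq_emod_iff_emod_sub_eq_zero, sub_neg_eq_add]
      exact Int.emod_eq_zero_of_dvd h
    have h3 : (r : ℤ) % p = r := Int.emod_eq_of_lt (by positivity) (by exact_mod_cast hr)
    rw [h3, ← h0] at h2
    exact_mod_cast h2
  · rintro rfl
    rw [h0]
    have h4 := Int.emod_add_mul_ediv (-x) p
    exact ⟨-((-x) / p), by linear_combination h4⟩

lemma rho_eq_iff {p : ℕ} (hp : 0 < p) (x x' : ℤ) : rho p x = rho p x' ↔ (p : ℤ) ∣ x - x' := by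
  have h1 := dvd_iff_rho hp x' (rho_lt hp x)
  rw [← h1]
  have h2 := (dvd_iff_rho hp x (rho_lt hp x)).2 rfl
  constructor
  · intro h
    have := dvd_sub h2 h
    rwa [add_sub_add_left_eq_sub] at this
  · intro h
    have := dvd_sub h2 h
    rwa [show (rho p x : ℤ) + x - (x - x') = (rho p x : ℤ) + x' by ring] at this

lemma nuF_one {p : ℕ} (hp : 0 < p) (x : ℤ) :
    nuF (fun _ : Fin 1 => (1 : ℤ)) (fun _ => x) p = 1 := by
  unfold nuF
  have h : (range p).filter (fun r : ℕ => ∃ _ : Fin 1, (p : ℤ) ∣ 1 * (r : ℤ) + x) = {rho p x} := by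
    ext r
    rw [mem_filter, mem_range, mem_singleton]
    constructor
    · rintro ⟨hr, -, h⟩
      rw [one_mul] at h
      exact (dvd_iff_rho hp x hr).1 h
    · rintro rfl
      refine ⟨rho_lt hp x, 0, ?_⟩
      rw [one_mul]
      exact (dvd_iff_rho hp x (rho_lt hp x)).2 rfl
  rw [h, card_singleton]

lemma nuF_two {p : ℕ} (hp : 0 < p) (x x' : ℤ) :
    nuF (fun _ : Fin 2 => (1 : ℤ)) ![x, x'] p = if (p : ℤ) ∣ x - x' then 1 else 2 := by
  unfold nuF
  have h : (range p).filter (fun r : ℕ => ∃ i : Fin 2, (p : ℤ) ∣ 1 * (r : ℤ) + ![x, x'] i) =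
      {rho p x, rho p x'} := by
    ext r
    rw [mem_filter, mem_range, mem_insert, mem_singleton]
    constructor
    · rintro ⟨hr, i, h⟩
      rw [one_mul] at h
      fin_cases i
      · exact Or.inl ((dvd_iff_rho hp x hr).1 h)
      · exact Or.inr ((dvd_iff_rho hp x' hr).1 h)
    · rintro (rfl | rfl)
      · refine ⟨rho_lt hp x, 0, ?_⟩
        rw [one_mul]
        exact (dvd_iff_rho hp x (rho_lt hp x)).2 rfl
      · refine ⟨rho_lt hp x', 1, ?_⟩
        rw [one_mul]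
        exact (dvd_iff_rho hp x' (rho_lt hp x')).2 rfl
  rw [h]
  split_ifs with hd
  · rw [(rho_eq_iff hp x x').2 hd]
    simp
  · rw [card_pair]
    exact fun h => hd ((rho_eq_iff hp x x').1 h)

lemma singF_one (x : ℤ) (z : ℕ) : singF (fun _ : Fin 1 => (1 : ℤ)) (fun _ => x) z = 1 := by
  unfold singF
  refine prod_eq_one fun p hp => ?_
  have hpp : p.Prime := (mem_filter.1 hp).2
  rw [nuF_one hpp.pos, Nat.cast_one, pow_one]
  exact div_self (one_sub_pos hpp).ne'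

lemma singF_two {q z : ℕ} (hq : q ≠ 0) (hqz : q ≤ z) {x x' : ℤ} (hd : (q : ℤ) ∣ x - x') :
    singF (fun _ : Fin 2 => (1 : ℤ)) ![x, x'] z = PP q * loc q z (x - x') := by
  classical
  unfold singF
  have h1 : ∀ p ∈ (Icc 1 z).filter Nat.Prime,
      (1 - (nuF (fun _ : Fin 2 => (1 : ℤ)) ![x, x'] p : ℝ) / p) / (1 - 1 / (p : ℝ)) ^ 2 =
      (if (p : ℤ) ∣ x - x' then (1 - 1 / (p : ℝ))⁻¹ else
        (1 - 2 / (p : ℝ)) / (1 - 1 / (p : ℝ)) ^ 2) := by
    intro p hp
    have hpp : p.Prime := (mem_filter.1 hp).2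
    have h0 := (one_sub_pos hpp).ne'
    rw [nuF_two hpp.pos]
    split_ifs
    · rw [Nat.cast_one, pow_two, div_mul_cancel_left₀ h0]
    · norm_num
  rw [prod_congr rfl h1, ← prod_filter_mul_prod_filter_not _ (fun p => p ∣ q)]
  congr 1
  have h2 : ((Icc 1 z).filter Nat.Prime).filter (fun p => p ∣ q) = q.primeFactors := by
    ext p
    rw [mem_filter, mem_filter, mem_Icc, Nat.mem_primeFactors]
    constructor
    · rintro ⟨⟨_, h2⟩, h3⟩
      exact ⟨h2, h3, hq⟩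
    · rintro ⟨h2, h3, _⟩
      exact ⟨⟨⟨h2.one_lt.le, (Nat.le_of_dvd (Nat.pos_of_ne_zero hq) h3).trans hqz⟩, h2⟩, h3⟩
  rw [h2]
  unfold PP
  refine prod_congr rfl fun p hp => ?_
  have h3 : (p : ℤ) ∣ x - x' :=
    (Int.natCast_dvd_natCast.2 (Nat.dvd_of_mem_primeFactors hp)).trans hd
  rw [if_pos h3]

lemma adm_one (x : ℤ) : AdmF (fun _ : Fin 1 => (1 : ℤ)) (fun _ => x) := by
  intro p hp
  rw [nuF_one hp.pos]
  exact hp.one_lt

lemma adm_two {x x' : ℤ} (hd : (2 : ℤ) ∣ x - x') : AdmF (fun _ : Fin 2 => (1 : ℤ)) ![x, x'] := by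
  intro p hp
  rw [nuF_two hp.pos]
  split_ifs with h
  · exact hp.one_lt
  · rcases eq_or_lt_of_le hp.two_le with h2 | h2
    · exfalso
      apply h
      rw [← h2]
      exact_mod_cast hd
    · exact h2

/-- the product of the model and the local part -/
lemma lam_Phi {b r Y z : ℕ} (hb : 2 ≤ b) (hz : b * (b - 1) ≤ z) (ν : Fin r → Fin Y) (m : ℤ) :
    lamzI z (m + (DD b ν : ℤ)) * Phi b r m = PP (b * (b - 1)) * lamzI z (m + (DD b ν : ℤ)) := by
  have hq0 : b * (b - 1) ≠ 0 := by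
    have : 1 ≤ b - 1 := by omega
    positivity
  by_cases h0 : lamzI z (m + (DD b ν : ℤ)) = 0
  · rw [h0, zero_mul, mul_zero]
  · have h1 : 1 ≤ m + (DD b ν : ℤ) := by
      by_contra h
      apply h0
      unfold lamzI
      rw [if_neg h]
    have h2 : ∀ p ∈ pz z, ¬ p ∣ (m + (DD b ν : ℤ)).toNat := by
      by_contra h
      apply h0
      unfold lamzI lamz
      rw [if_pos h1, if_neg h]
    have h3 : Int.gcd (m + ((r * b : ℕ) : ℤ)) ((b * (b - 1) : ℕ) : ℤ) = 1 := by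
      by_contra h
      obtain ⟨p, hp, hpd⟩ := Nat.exists_prime_and_dvd h
      have h4 : (p : ℤ) ∣ m + ((r * b : ℕ) : ℤ) :=
        (Int.natCast_dvd_natCast.2 hpd).trans (Int.gcd_dvd_left _ _)
      have h5 : (p : ℤ) ∣ ((b * (b - 1) : ℕ) : ℤ) :=
        (Int.natCast_dvd_natCast.2 hpd).trans (Int.gcd_dvd_right _ _)
      have h6 : (p : ℤ) ∣ m + (DD b ν : ℤ) := by
        have h7 := dvd_add h4 (h5.trans (dvd_DD b (by omega) ν))
        rwa [show m + ((r * b : ℕ) : ℤ) + ((DD b ν : ℤ) - ((r * b : ℕ) : ℤ)) =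
          m + (DD b ν : ℤ) by ring] at h7
      refine h2 p ?_ ?_
      · rw [Pool.Agent.H373R2.T7.mem_pz]
        exact ⟨(Nat.le_of_dvd (Nat.pos_of_ne_zero hq0) (Int.natCast_dvd_natCast.1 h5)).trans hz, hp⟩
      · rw [← Int.natCast_dvd_natCast, Int.toNat_of_nonneg (by omega)]
        exact h6
    unfold Phi
    rw [if_pos h3, mul_comm]
    rfl

lemma FF_Phi {b r Y z : ℕ} (hb : 2 ≤ b) (hz : b * (b - 1) ≤ z) (m : ℤ) :
    FF b r Y z m * Phi b r m = PP (b * (b - 1)) * FF b r Y z m := by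
  unfold FF
  rw [div_mul_eq_mul_div, sum_mul, mul_div_assoc', mul_sum]
  congr 1
  exact sum_congr rfl fun ν _ => lam_Phi hb hz ν m

/-- the mean square of the local part -/
lemma Phi_sq (b r a X : ℕ) (hb : 2 ≤ b) :
    ∑ n ∈ Icc 1 X, Phi b r ((n : ℤ) + (a : ℤ)) ^ 2 ≤
      PP (b * (b - 1)) * X + PP (b * (b - 1)) * ((b * (b - 1) : ℕ) : ℝ) := by
  classical
  set q := b * (b - 1) with hq
  have hq0 : q ≠ 0 := by
    have : 1 ≤ b - 1 := by omega
    rw [hq]
    positivity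
  have h1 : ∀ n ∈ Icc 1 X, Phi b r ((n : ℤ) + (a : ℤ)) ^ 2 =
      if q.Coprime (n + (a + r * b)) then PP q ^ 2 else 0 := by
    intro n _
    unfold Phi
    have h2 : Int.gcd ((n : ℤ) + (a : ℤ) + ((r * b : ℕ) : ℤ)) ((b * (b - 1) : ℕ) : ℤ) = 1 ↔
        q.Coprime (n + (a + r * b)) := by
      have h3 : (n : ℤ) + (a : ℤ) + ((r * b : ℕ) : ℤ) = ((n + (a + r * b) : ℕ) : ℤ) := by
        push_cast
        ring
      rw [h3, Int.gcd_natCast_natCast, Nat.coprime_comm]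
    by_cases h : q.Coprime (n + (a + r * b))
    · rw [if_pos (h2.2 h), if_pos h]
      rfl
    · rw [if_neg (fun h' => h (h2.1 h')), if_neg h]
      norm_num
  rw [sum_congr rfl h1, ← sum_filter, sum_const, nsmul_eq_mul]
  have h4 : ((Icc 1 X).filter (fun n => q.Coprime (n + (a + r * b)))).card ≤
      q.totient * (X / q + 1) := by
    refine le_trans ?_ (Nat.Ico_filter_coprime_le (a + r * b + 1) X hq0)
    refine card_le_card_of_injOn (fun n => n + (a + r * b)) ?_ ?_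
    · intro n hn
      have hn' := mem_filter.1 (mem_coe.1 hn)
      rw [mem_Icc] at hn'
      refine mem_coe.2 (mem_filter.2 ⟨mem_Ico.2 ⟨?_, ?_⟩, hn'.2⟩)
      · simp only
        omega
      · simp only
        omega
    · intro n _ n' _ h
      simp only at h
      omega
  have h5 : (((Icc 1 X).filter (fun n => q.Coprime (n + (a + r * b)))).card : ℝ) ≤
      (q.totient : ℝ) * ((X : ℝ) / q + 1) := by
    refine (Nat.cast_le.2 h4).trans ?_
    push_cast
    refine mul_le_mul_of_nonneg_left ?_ (Nat.cast_nonneg _)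
    have := @Nat.cast_div_le ℝ _ _ _ X q
    linarith
  have h6 := PP_tot q
  have h7 := PP_pos q
  have hq1 : (0 : ℝ) < q := by exact_mod_cast Nat.pos_of_ne_zero hq0
  calc (((Icc 1 X).filter (fun n => q.Coprime (n + (a + r * b)))).card : ℝ) * PP q ^ 2
      ≤ ((q.totient : ℝ) * ((X : ℝ) / q + 1)) * PP q ^ 2 :=
        mul_le_mul_of_nonneg_right h5 (sq_nonneg _)
    _ = PP q * (PP q * (q.totient : ℝ)) * ((X : ℝ) / q + 1) := by ring
    _ = PP q * X + PP q * q := by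
        rw [h6]
        field_simp

end Pool.Agent.Y820.LD.TwoPf
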