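import Pool.Agent.Y820.LD.T0

set_option autoImplicit false

/-!
# Project LD (helper820), task LD-T (by helper383): the mean square
-/

namespace Pool.Agent.Y820.LD.TwoPf
open Finset Filter Topology
open Pool.Agent.H373R2.T7 (lamI lamzI lamz Vz pz)
open Pool.Agent.Y820.LF (nuF singF AdmF PosF S_main0)

theorem two_of (hM : S_main0) (hR : S_Rom) : S_Two := by
  classical
  intro b hb E η hη
  set q := b * (b - 1) with hq
  have hq0 : q ≠ 0 := by
    have : 1 ≤ b - 1 := by omega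
    rw [hq]
    positivity
  have hq2 : (2 : ℤ) ∣ ((q : ℕ) : ℤ) := by
    have h1 : Even (b * (b - 1)) := Nat.even_mul_pred_self b
    exact_mod_cast h1.two_dvd
  have hP := PP_pos q
  obtain ⟨r0, hr0⟩ := hR b hb (E + 1) (η / (2 * PP q)) (by positivity)
  refine ⟨r0, fun r hr => ?_⟩
  obtain ⟨Y0, hY0⟩ := hr0 r hr
  obtain ⟨n1, hn1⟩ := hM 1 E 1 le_rfl
  obtain ⟨n2, hn2⟩ := hM 2 E 1 (by norm_num)
  have hb0 : (0 : ℝ) < b := by
    have : 0 < b := by omega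
    exact_mod_cast this
  have hb1 : (1 : ℝ) ≤ b := by
    have : 1 ≤ b := by omega
    exact_mod_cast this
  have hlog : Tendsto (fun X : ℕ => Real.log X) atTop atTop :=
    Real.tendsto_log_atTop.comp tendsto_natCast_atTop_atTop
  have hev := (hlog.eventually_ge_atTop ((b : ℝ) * ((Y0 : ℝ) + (b : ℝ) ^ E + 1))).and
    ((hlog.eventually_ge_atTop (4 * (1 + 2 * PP q) / η)).and
      ((eventually_ge_atTop (max n1 n2 + 1)).and
        ((tendsto_natCast_atTop_atTop (R := ℝ)).eventually_ge_atTop (4 * (PP q * q) / η))))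
  obtain ⟨X0, hX0⟩ := eventually_atTop.1 hev
  refine ⟨X0, fun X hX Y z hY hz hzE a => ?_⟩
  obtain ⟨c1, c2, c3, c4⟩ := hX0 X hX
  set L := Real.log X with hL
  have hbE : (0 : ℝ) ≤ (b : ℝ) ^ E := by positivity
  have hY0' : (0 : ℝ) ≤ (Y0 : ℝ) := Nat.cast_nonneg _
  have hL0 : 0 < L := by
    refine lt_of_lt_of_le ?_ c1
    positivity
  have hY1 : (Y0 : ℝ) + (b : ℝ) ^ E + 1 ≤ Y := le_of_mul_le_mul_left (c1.trans hY) hb0
  have hYp : (1 : ℝ) ≤ Y := by linarith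
  have hYY0 : Y0 ≤ Y := by
    have : (Y0 : ℝ) ≤ Y := by linarith
    exact_mod_cast this
  have hzY : (z : ℝ) ≤ (Y : ℝ) ^ (E + 1) := by
    refine hzE.trans ?_
    refine (pow_le_pow_left₀ hL0.le hY E).trans ?_
    rw [mul_pow, pow_succ, mul_comm ((Y : ℝ) ^ E)]
    exact mul_le_mul_of_nonneg_right (by linarith) (by positivity)
  have hrom := hY0 Y hYY0 z hzY
  rw [← hq] at hrom
  have hz1 : 1 ≤ z := le_trans (Nat.pos_of_ne_zero hq0) hz
  have hXn1 : n1 ≤ X := by omega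
  have hXn2 : n2 ≤ X := by omega
  have hX1 : 1 ≤ X := by omega
  set D : ℝ := (Y : ℝ) ^ r with hD
  have hD0 : 0 < D := by positivity
  have hcard : ((univ : Finset (Fin r → Fin Y)).card : ℝ) = D := by
    rw [card_univ, Fintype.card_fun, Fintype.card_fin, Fintype.card_fin, Nat.cast_pow]
  have hXr : (0 : ℝ) ≤ X := Nat.cast_nonneg _
  -- one sum
  have s1 : ∀ ν : Fin r → Fin Y, (X : ℝ) - X / L ≤
      ∑ n ∈ Icc 1 X, lamzI z ((n : ℤ) + (a : ℤ) + (DD b ν : ℤ)) := by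
    intro ν
    have h1 := hn1 X hXn1 z hz1 hzE (fun _ => 1) (fun _ => (a : ℤ) + (DD b ν : ℤ))
      (fun i => ⟨by simp only; omega, by simp only; omega⟩) (adm_one _)
    rw [singF_one, one_mul, pow_one] at h1
    have h2 : ∑ n ∈ Icc 1 X, ∏ i : Fin 1, lamzI z ((fun _ => (1 : ℤ)) i * (n : ℤ) +
        (fun _ => (a : ℤ) + (DD b ν : ℤ)) i) =
        ∑ n ∈ Icc 1 X, lamzI z ((n : ℤ) + (a : ℤ) + (DD b ν : ℤ)) := by
      refine sum_congr rfl fun n _ => ?_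
      rw [Fin.prod_univ_one, one_mul, add_assoc]
    rw [h2] at h1
    have h3 := (abs_le.1 h1).1
    linarith
  -- two sums
  have s2 : ∀ ν ν' : Fin r → Fin Y,
      ∑ n ∈ Icc 1 X, lamzI z ((n : ℤ) + (a : ℤ) + (DD b ν : ℤ)) *
        lamzI z ((n : ℤ) + (a : ℤ) + (DD b ν' : ℤ)) ≤
      PP q * X * loc q z ((DD b ν : ℤ) - (DD b ν' : ℤ)) + X / L := by
    intro ν ν'
    have hdd := dvd_DD2 b (by omega) ν ν'
    rw [← hq] at hdd
    have hdd' : ((q : ℕ) : ℤ) ∣ ((a : ℤ) + (DD b ν : ℤ)) - ((a : ℤ) + (DD b ν' : ℤ)) := by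
      rwa [add_sub_add_left_eq_sub]
    have h1 := hn2 X hXn2 z hz1 hzE (fun _ => 1) ![(a : ℤ) + (DD b ν : ℤ), (a : ℤ) + (DD b ν' : ℤ)]
      (fun i => by
        fin_cases i
        · exact ⟨by simp only [Fin.zero_eta, Matrix.cons_val_zero]; omega,
            by simp only [Fin.zero_eta, Matrix.cons_val_zero]; omega⟩
        · exact ⟨by simp only [Fin.mk_one, Matrix.cons_val_one, Matrix.cons_val_zero]; omega,
            by simp only [Fin.mk_one, Matrix.cons_val_one, Matrix.cons_val_zero]; omega⟩)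
      (adm_two (hq2.trans hdd'))
    rw [singF_two hq0 hz hdd', pow_one, add_sub_add_left_eq_sub] at h1
    have h2 : ∑ n ∈ Icc 1 X, ∏ i : Fin 2, lamzI z ((fun _ => (1 : ℤ)) i * (n : ℤ) +
        ![(a : ℤ) + (DD b ν : ℤ), (a : ℤ) + (DD b ν' : ℤ)] i) =
        ∑ n ∈ Icc 1 X, lamzI z ((n : ℤ) + (a : ℤ) + (DD b ν : ℤ)) *
        lamzI z ((n : ℤ) + (a : ℤ) + (DD b ν' : ℤ)) := by
      refine sum_congr rfl fun n _ => ?_
      rw [Fin.prod_univ_two]
      simp only [Matrix.cons_val_zero, Matrix.cons_val_one, one_mul, add_assoc]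
    rw [h2] at h1
    have h3 := (abs_le.1 h1).2
    linarith
  -- the square
  have t1 : ∑ n ∈ Icc 1 X, FF b r Y z ((n : ℤ) + (a : ℤ)) ^ 2 ≤
      PP q * X * (1 + η / (2 * PP q)) + X / L := by
    have e1 : ∀ n ∈ Icc 1 X, FF b r Y z ((n : ℤ) + (a : ℤ)) ^ 2 =
        (∑ ν : Fin r → Fin Y, ∑ ν' : Fin r → Fin Y,
          lamzI z ((n : ℤ) + (a : ℤ) + (DD b ν : ℤ)) *
          lamzI z ((n : ℤ) + (a : ℤ) + (DD b ν' : ℤ))) / D ^ 2 := by
      intro n _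
      unfold FF
      rw [div_pow, sq, sum_mul_sum]
    rw [sum_congr rfl e1, ← sum_div, div_le_iff₀ (by positivity), sum_comm]
    have e2 : ∀ ν : Fin r → Fin Y, ∑ n ∈ Icc 1 X, ∑ ν' : Fin r → Fin Y,
          lamzI z ((n : ℤ) + (a : ℤ) + (DD b ν : ℤ)) *
          lamzI z ((n : ℤ) + (a : ℤ) + (DD b ν' : ℤ)) ≤
        ∑ ν' : Fin r → Fin Y, (PP q * X * loc q z ((DD b ν : ℤ) - (DD b ν' : ℤ)) + X / L) := by
      intro ν
      rw [sum_comm]
      exact sum_le_sum fun ν' _ => s2 ν ν'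
    refine (sum_le_sum fun ν _ => e2 ν).trans ?_
    simp only [sum_add_distrib, ← mul_sum, sum_const, nsmul_eq_mul, hcard]
    have e3 := mul_le_mul_of_nonneg_left hrom (by positivity : 0 ≤ PP q * (X : ℝ))
    nlinarith
  -- the first moment
  have t2 : (X : ℝ) - X / L ≤ ∑ n ∈ Icc 1 X, FF b r Y z ((n : ℤ) + (a : ℤ)) := by
    have e1 : ∀ n ∈ Icc 1 X, FF b r Y z ((n : ℤ) + (a : ℤ)) =
        (∑ ν : Fin r → Fin Y, lamzI z ((n : ℤ) + (a : ℤ) + (DD b ν : ℤ))) / D := fun n _ => rfl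
    rw [sum_congr rfl e1, ← sum_div, le_div_iff₀ hD0, sum_comm]
    refine le_trans ?_ (sum_le_sum fun ν _ => s1 ν)
    rw [sum_const, nsmul_eq_mul, hcard, mul_comm]
  have t3 := Phi_sq b r a X hb
  rw [← hq] at t3
  have e : ∑ n ∈ Icc 1 X, (FF b r Y z ((n : ℤ) + (a : ℤ)) - Phi b r ((n : ℤ) + (a : ℤ))) ^ 2 =
      ∑ n ∈ Icc 1 X, FF b r Y z ((n : ℤ) + (a : ℤ)) ^ 2 -
      2 * PP q * ∑ n ∈ Icc 1 X, FF b r Y z ((n : ℤ) + (a : ℤ)) +
      ∑ n ∈ Icc 1 X, Phi b r ((n : ℤ) + (a : ℤ)) ^ 2 := by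
    rw [mul_sum, ← sum_sub_distrib, ← sum_add_distrib]
    refine sum_congr rfl fun n _ => ?_
    have h1 := FF_Phi (r := r) (Y := Y) hb hz ((n : ℤ) + (a : ℤ))
    rw [← hq] at h1
    linear_combination (-2) * h1
  rw [e]
  have u1 : PP q * X * (1 + η / (2 * PP q)) = PP q * X + η / 2 * X := by
    field_simp
  have u2 : (1 + 2 * PP q) * (X / L) ≤ η / 4 * X := by
    rw [div_le_iff₀ hη] at c2
    rw [mul_div_assoc', div_le_iff₀ hL0]
    nlinarith
  have u3 : PP q * q ≤ η / 4 * X := by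
    rw [div_le_iff₀ hη] at c4
    linarith
  have u4 := mul_le_mul_of_nonneg_left t2 (by positivity : 0 ≤ 2 * PP q)
  nlinarith

end Pool.Agent.Y820.LD.TwoPf
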